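import Pool.Agent.EPR.St
import Pool.Agent.EC.Gr1

/-!
# [EPR Gr1] the random graph is typical with probability `1 - O(1/n)`

All the properties except `R6` are those of `EC.RG2`; for `R6` the union bound of `EC/Gr1.lean` is
repeated for sets of linear size.
-/

set_option autoImplicit false

namespace Pool.Agent.EPR

open Finset Pool.Agent.EB Pool.Agent.Helper56.Iso

/-- nonempty sets of size at most `n / (10 ^ 13 * k ^ 3)` -/
def Gr1_P9 (k n : ℕ) (S : Finset (Fin n)) : Prop := 1 ≤ S.card ∧ 10 ^ 13 * k ^ 3 * S.card ≤ n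

theorem Gr1_term9 (k n t : ℕ) (hk : 1 ≤ k) (hn : 0 < n) (htn : 10 ^ 13 * k ^ 3 * (t + 1) ≤ n)
    (d p : ℝ) (hd : 1 ≤ d) (hd2 : 1000 * d ≤ 1001 * (10 ^ 10 * (k : ℝ) ^ 2)) (hp : p = d / n) :
    (n.choose (t + 1) : ℝ) * (Real.exp 1 * (p * (t + 1 : ℕ)) ^ 5) ^ (t + 1) ≤
      8 * d ^ 5 / n * (1 / 4) ^ t := by
  obtain ⟨s, hs⟩ : ∃ s : ℕ, s = t + 1 := ⟨_, rfl⟩
  rw [← hs]
  have hnr : (0 : ℝ) < n := by exact_mod_cast hn
  have hs1 : 1 ≤ s := by omega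
  have hsr : (0 : ℝ) < s := by exact_mod_cast hs1
  have hkr : (1 : ℝ) ≤ k := by exact_mod_cast hk
  have hd0 : (0 : ℝ) ≤ d := by linarith
  have hsn : (10 : ℝ) ^ 13 * (k : ℝ) ^ 3 * s ≤ n := by
    rw [hs]
    exact_mod_cast htn
  have hsn1 : (s : ℝ) ≤ n := by
    have h1 : (1 : ℝ) ≤ 10 ^ 13 * (k : ℝ) ^ 3 := by
      have h2 : (1 : ℝ) ≤ (k : ℝ) ^ 3 := one_le_pow₀ hkr
      linarith
    calc (s : ℝ) = 1 * s := (one_mul _).symm
      _ ≤ 10 ^ 13 * (k : ℝ) ^ 3 * s := mul_le_mul_of_nonneg_right h1 hsr.le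
      _ ≤ n := hsn
  have h1 : (n.choose s : ℝ) ≤ (n * Real.exp 1 / s) ^ s := by
    have h2 : (n.choose s : ℝ) ≤ (n : ℝ) ^ s / (s.factorial : ℝ) := Nat.choose_le_pow_div s n
    have h3 := Real.pow_div_factorial_le_exp (s : ℝ) hsr.le s
    have hf : (0 : ℝ) < s.factorial := by exact_mod_cast Nat.factorial_pos s
    refine h2.trans ?_
    rw [div_le_iff₀ hf] at h3
    rw [div_le_iff₀ hf, div_pow, mul_pow, ← Real.exp_nat_mul, mul_one]
    calc (n : ℝ) ^ s = (n : ℝ) ^ s * (s : ℝ) ^ s / (s : ℝ) ^ s := by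
          field_simp
      _ ≤ (n : ℝ) ^ s * (Real.exp s * s.factorial) / (s : ℝ) ^ s := by
          apply div_le_div_of_nonneg_right _ (by positivity)
          exact mul_le_mul_of_nonneg_left h3 (by positivity)
      _ = (n : ℝ) ^ s * Real.exp s / (s : ℝ) ^ s * s.factorial := by ring
  have h4 : Real.exp 1 * Real.exp 1 ≤ 8 := by
    have h5 := Real.exp_one_lt_d9
    have h6 := Real.exp_pos 1
    nlinarith
  have hp0 : 0 ≤ p := by
    rw [hp]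
    positivity
  -- the base
  obtain ⟨y, hy⟩ : ∃ y : ℝ, y = (n * Real.exp 1 / s) * (Real.exp 1 * (p * s) ^ 5) := ⟨_, rfl⟩
  have hy0 : 0 ≤ y := by
    rw [hy]
    positivity
  have hy1 : y ≤ 8 * d ^ 5 * ((s : ℝ) ^ 4 / n ^ 4) := by
    have h7 : y = (Real.exp 1 * Real.exp 1) * d ^ 5 * ((s : ℝ) ^ 4 / n ^ 4) := by
      rw [hy, hp]
      field_simp
    rw [h7]
    apply mul_le_mul_of_nonneg_right _ (by positivity)
    exact mul_le_mul_of_nonneg_right h4 (by positivity)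
  have hy2 : y ≤ 1 / 8 := by
    refine hy1.trans ?_
    have h8 : d ≤ 1001 / 1000 * (10 ^ 10 * (k : ℝ) ^ 2) := by linarith
    have h9 : d ^ 5 ≤ (1001 / 1000 * (10 ^ 10 * (k : ℝ) ^ 2)) ^ 5 := pow_le_pow_left₀ hd0 h8 5
    have h10 : ((10 : ℝ) ^ 13 * (k : ℝ) ^ 3 * s) ^ 4 ≤ (n : ℝ) ^ 4 :=
      pow_le_pow_left₀ (by positivity) hsn 4
    have h11 : (k : ℝ) ^ 10 ≤ (k : ℝ) ^ 12 := pow_le_pow_right₀ hkr (by norm_num)
    have h12 : 64 * (d ^ 5 * (s : ℝ) ^ 4) ≤ (n : ℝ) ^ 4 := by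
      calc 64 * (d ^ 5 * (s : ℝ) ^ 4)
          ≤ 64 * ((1001 / 1000 * (10 ^ 10 * (k : ℝ) ^ 2)) ^ 5 * (s : ℝ) ^ 4) := by
            apply mul_le_mul_of_nonneg_left _ (by norm_num)
            exact mul_le_mul_of_nonneg_right h9 (by positivity)
        _ = (64 * (1001 / 1000) ^ 5 * 10 ^ 50) * ((k : ℝ) ^ 10 * (s : ℝ) ^ 4) := by ring
        _ ≤ 10 ^ 52 * ((k : ℝ) ^ 12 * (s : ℝ) ^ 4) := by
            apply mul_le_mul (by norm_num) _ (by positivity) (by norm_num)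
            exact mul_le_mul_of_nonneg_right h11 (by positivity)
        _ = ((10 : ℝ) ^ 13 * (k : ℝ) ^ 3 * s) ^ 4 := by ring
        _ ≤ (n : ℝ) ^ 4 := h10
    rw [← mul_div_assoc, div_le_div_iff₀ (by positivity) (by norm_num)]
    linarith
  have hy3 : y ≤ 8 * d ^ 5 / n * s := by
    refine hy1.trans ?_
    have h8 : (s : ℝ) ^ 4 / n ^ 4 ≤ s / n := by
      rw [div_le_div_iff₀ (by positivity) hnr]
      have h9 : (s : ℝ) ^ 3 ≤ (n : ℝ) ^ 3 := pow_le_pow_left₀ hsr.le hsn1 3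
      calc (s : ℝ) ^ 4 * n = s * n * (s : ℝ) ^ 3 := by ring
        _ ≤ s * n * (n : ℝ) ^ 3 := mul_le_mul_of_nonneg_left h9 (by positivity)
        _ = s * (n : ℝ) ^ 4 := by ring
    calc 8 * d ^ 5 * ((s : ℝ) ^ 4 / n ^ 4) ≤ 8 * d ^ 5 * (s / n) :=
          mul_le_mul_of_nonneg_left h8 (by positivity)
      _ = 8 * d ^ 5 / n * s := by ring
  have hst : (s : ℝ) ≤ 2 ^ t := by
    have h8 : t + 1 ≤ 2 ^ t := Nat.lt_two_pow_self
    rw [hs]
    exact_mod_cast h8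
  calc (n.choose s : ℝ) * (Real.exp 1 * (p * s) ^ 5) ^ s
      ≤ (n * Real.exp 1 / s) ^ s * (Real.exp 1 * (p * s) ^ 5) ^ s :=
        mul_le_mul_of_nonneg_right h1 (by positivity)
    _ = y ^ s := by
        rw [hy]
        exact (mul_pow _ _ _).symm
    _ = y * y ^ t := by rw [hs, pow_succ']
    _ ≤ (8 * d ^ 5 / n * s) * (1 / 8) ^ t :=
        mul_le_mul hy3 (pow_le_pow_left₀ hy0 hy2 t) (by positivity) (by positivity)
    _ ≤ (8 * d ^ 5 / n * 2 ^ t) * (1 / 8) ^ t := by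
        apply mul_le_mul_of_nonneg_right _ (by positivity)
        exact mul_le_mul_of_nonneg_left hst (by positivity)
    _ = 8 * d ^ 5 / n * (1 / 4) ^ t := by
        rw [mul_assoc, ← mul_pow]
        norm_num

theorem Gr1_B9 (k n : ℕ) (hk : 1 ≤ k) (hn : 0 < n) (d p : ℝ) (hd : 1 ≤ d)
    (hd2 : 1000 * d ≤ 1001 * (10 ^ 10 * (k : ℝ) ^ 2)) (hp : p = d / n) (h0 : 0 < p)
    (h1 : p ≤ 1) :
    Pr p (fun E => ∃ S ∈ EC.Gr1_J (Gr1_P9 k n), 5 * S.card + 1 ≤ (E ∩ EC.Gr1_ST S S).card) ≤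
      16 * d ^ 5 / n := by
  have hnr : (0 : ℝ) < n := by exact_mod_cast hn
  have hkr : (1 : ℝ) ≤ k := by exact_mod_cast hk
  have hd0 : (0 : ℝ) ≤ d := by linarith
  obtain ⟨g, hg⟩ : ∃ g : ℕ → ℝ, g = fun s => if 1 ≤ s ∧ 10 ^ 13 * k ^ 3 * s ≤ n then
    (Real.exp 1 * (p * s) ^ 5) ^ s else 0 := ⟨_, rfl⟩
  have hg0 : ∀ s, 0 ≤ g s := by
    intro s
    rw [hg]
    dsimp only
    split_ifs
    · positivity
    · exact le_rfl
  have step1 : Pr p (fun E => ∃ S ∈ EC.Gr1_J (Gr1_P9 k n),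
      5 * S.card + 1 ≤ (E ∩ EC.Gr1_ST S S).card) ≤ ∑ S ∈ EC.Gr1_J (Gr1_P9 k n), g S.card := by
    refine (Pr_exists_le h0.le h1 _ _).trans (sum_le_sum fun S hS => ?_)
    have hS' : 1 ≤ S.card ∧ 10 ^ 13 * k ^ 3 * S.card ≤ n := (EC.Gr1_mem_J _ _).mp hS
    rw [hg]
    dsimp only
    rw [if_pos hS']
    apply EC.Gr1_dense S hS'.1 p h0 h1
    have h9 : (10 : ℝ) ^ 13 * (k : ℝ) ^ 3 * S.card ≤ n := by exact_mod_cast hS'.2
    have h10 : d ≤ 10 ^ 13 * (k : ℝ) ^ 3 := by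
      have h11 : (k : ℝ) ^ 2 ≤ (k : ℝ) ^ 3 := pow_le_pow_right₀ hkr (by norm_num)
      have h12 : (0 : ℝ) ≤ (k : ℝ) ^ 2 := by positivity
      linarith
    rw [hp, div_mul_eq_mul_div, div_le_one hnr]
    exact (mul_le_mul_of_nonneg_right h10 (Nat.cast_nonneg _)).trans h9
  have step2 : ∑ S ∈ EC.Gr1_J (Gr1_P9 k n), g S.card ≤
      ∑ s ∈ range (n + 1), (n.choose s : ℝ) * g s := by
    have h2 := Finset.sum_powerset_apply_card g (x := (univ : Finset (Fin n)))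
    rw [powerset_univ, card_univ, Fintype.card_fin] at h2
    have h3 : ∑ s ∈ range (n + 1), (n.choose s : ℝ) * g s =
        ∑ s ∈ range (n + 1), n.choose s • g s :=
      sum_congr rfl fun s _ => by rw [nsmul_eq_mul]
    rw [h3, ← h2]
    exact sum_le_sum_of_subset_of_nonneg (subset_univ _) fun S _ _ => hg0 _
  have step3 : ∑ s ∈ range (n + 1), (n.choose s : ℝ) * g s ≤
      ∑ t ∈ range n, 8 * d ^ 5 / n * (1 / 4) ^ t := by
    rw [sum_range_succ']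
    have h2 : (n.choose 0 : ℝ) * g 0 = 0 := by
      rw [hg]
      dsimp only
      rw [if_neg (by omega), mul_zero]
    rw [h2, add_zero]
    apply sum_le_sum
    intro t _
    by_cases ht : 10 ^ 13 * k ^ 3 * (t + 1) ≤ n
    · have h3 := Gr1_term9 k n t hk hn ht d p hd hd2 hp
      rw [hg]
      dsimp only
      rw [if_pos ⟨by omega, ht⟩]
      exact h3
    · rw [hg]
      dsimp only
      rw [if_neg (fun h => ht h.2), mul_zero]
      positivity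
  have step4 : ∑ t ∈ range n, 8 * d ^ 5 / n * (1 / 4 : ℝ) ^ t ≤ 16 * d ^ 5 / n := by
    have h2 : (1 - 1 / 4 : ℝ) * ∑ t ∈ range n, (1 / 4 : ℝ) ^ t = 1 - (1 / 4 : ℝ) ^ n :=
      mul_neg_geom_sum _ n
    have h5 : ∑ t ∈ range n, (1 / 4 : ℝ) ^ t ≤ 2 := by
      have h6 : (0 : ℝ) ≤ (1 / 4 : ℝ) ^ n := by positivity
      linarith
    rw [← mul_sum]
    calc 8 * d ^ 5 / n * ∑ t ∈ range n, (1 / 4 : ℝ) ^ t ≤ 8 * d ^ 5 / n * 2 :=
          mul_le_mul_of_nonneg_left h5 (by positivity)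
      _ = 16 * d ^ 5 / n := by ring
  linarith

theorem thm_Gr1 : St_Gr1 := by
  intro k D Λ hk hD hΛ hΛD
  obtain ⟨C, hC⟩ := EC.thm_Gr1 k D Λ hk hD hΛ hΛD
  obtain ⟨d1, hd1⟩ : ∃ d1 : ℝ, d1 = 2 * (10 ^ 10 * (k : ℝ) ^ 2) := ⟨_, rfl⟩
  have hkr : (1 : ℝ) ≤ k := by exact_mod_cast hk
  have hk2 : (1 : ℝ) ≤ (k : ℝ) ^ 2 := one_le_pow₀ hkr
  refine ⟨C + 16 * d1 ^ 5, ?_⟩
  intro n d hd hd2 hdn
  have hdd : d ≤ d1 := by
    rw [hd1]
    linarith
  have hdbig : 10 ^ 10 ≤ d := by nlinarith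
  have hd0 : (1 : ℝ) ≤ d := by linarith
  have hnr : (0 : ℝ) < n := by linarith
  have hnp : 0 < n := by exact_mod_cast hnr
  obtain ⟨p, hp⟩ : ∃ p : ℝ, p = d / n := ⟨_, rfl⟩
  have h0 : 0 < p := by
    rw [hp]
    positivity
  have h1 : p ≤ 1 := by
    rw [hp, div_le_one hnr]
    exact hdn
  have hC' := hC n d hd hd2 hdn
  rw [← hp] at hC'
  rw [← hp]
  have hmarg : Prob n p (fun E => ¬ RG3 k D Λ n E) =
      Pr p (fun E => ¬ RG3 k D Λ n (E ∩ EC.clauses n)) := by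
    classical
    unfold Prob
    exact @EC.Gr1_marg _ _ _ p (EC.clauses n) (fun E => ¬ RG3 k D Λ n E)
      fun E => Classical.propDecidable _
  have hmarg2 : EC.Prob n p (fun E => ¬ EC.RG2 k D Λ n E) =
      Pr p (fun E => ¬ EC.RG2 k D Λ n (E ∩ EC.clauses n)) := by
    classical
    unfold EC.Prob
    exact @EC.Gr1_marg _ _ _ p (EC.clauses n) (fun E => ¬ EC.RG2 k D Λ n E)
      fun E => Classical.propDecidable _
  rw [hmarg2] at hC'
  rw [hmarg]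
  have hB := Gr1_B9 k n hk hnp d p hd0 hd2 hp h0 h1
  have hor := Pr_or_le h0.le h1
    (fun E : Finset (Sym2 (Fin n)) => ¬ EC.RG2 k D Λ n (E ∩ EC.clauses n))
    (fun E : Finset (Sym2 (Fin n)) => ∃ S ∈ EC.Gr1_J (Gr1_P9 k n), 5 * S.card + 1 ≤ (E ∩ EC.Gr1_ST S S).card)
  have hd5 : 16 * d ^ 5 / n ≤ 16 * d1 ^ 5 / n := by
    apply div_le_div_of_nonneg_right _ hnr.le
    have := pow_le_pow_left₀ (by linarith : (0 : ℝ) ≤ d) hdd 5
    linarith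
  have e5 : (C + 16 * d1 ^ 5) / n = C / n + 16 * d1 ^ 5 / n := by ring
  rw [e5]
  refine le_trans (Pr_mono h0.le h1 ?_) (hor.trans (by linarith))
  intro E hE
  by_contra hcon
  rw [not_or, not_not] at hcon
  obtain ⟨g1, g8⟩ := hcon
  apply hE
  refine ⟨g1.loop, g1.tot, g1.tot2, g1.R1, g1.R2, g1.R3, g1.R4, g1.R5, ?_⟩
  intro S hS
  by_cases hS1 : 1 ≤ S.card
  · have h4 : ¬ 5 * S.card + 1 ≤ (E ∩ EC.Gr1_ST S S).card :=
      fun h => g8 ⟨S, (EC.Gr1_mem_J _ _).mpr ⟨hS1, hS⟩, h⟩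
    have h5 : (E ∩ EC.Gr1_ST S S).card ≤ 5 * S.card := by omega
    refine le_trans (Finset.card_le_card ?_) h5
    intro e he
    rw [EC.Gr1_mem_inner, Finset.mem_inter] at he
    exact Finset.mem_inter.mpr ⟨he.1.1, EC.Gr1_mem_in S e he.2⟩
  · have h4 : S = ∅ := card_eq_zero.mp (by omega)
    have h5 : EC.inner (E ∩ EC.clauses n) S = ∅ := by
      rw [eq_empty_iff_forall_notMem]
      intro e he
      rw [EC.Gr1_mem_inner] at he
      have h6 := EC.Gr1_mem_in S e he.2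
      rw [h4] at h6
      simp [EC.Gr1_ST] at h6
    rw [h5, card_empty]
    exact Nat.zero_le _

end Pool.Agent.EPR
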