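import Pool.Agent.EPR.St

/-!
# [Gr2] the main part of a typical graph
-/

set_option autoImplicit false

namespace Pool.Agent.EPR

open Finset Pool.Agent.WD Pool.Agent.EB Pool.Agent.EC

private theorem Gr2_mt {V : Type} [Fintype V] [DecidableEq V] {E : Finset (Sym2 V)}
    {S : Finset V} {e : Sym2 V} : e ∈ touch E S ↔ e ∈ E ∧ ∃ v ∈ e, v ∈ S := by
  unfold touch
  exact mem_filter

private theorem Gr2_mi {V : Type} [Fintype V] [DecidableEq V] {E : Finset (Sym2 V)}
    {S : Finset V} {e : Sym2 V} : e ∈ inner E S ↔ e ∈ E ∧ ∀ v ∈ e, v ∈ S := by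
  unfold Pool.Agent.EC.inner
  exact mem_filter

private theorem Gr2_mb {V : Type} [Fintype V] [DecidableEq V] {E : Finset (Sym2 V)}
    {S T : Finset V} {e : Sym2 V} :
    e ∈ betw E S T ↔ e ∈ E ∧ ∃ u ∈ S, ∃ v ∈ T, e = s(u, v) := by
  unfold betw
  exact mem_filter

section del

variable {n : ℕ} {E E' : Finset (Sym2 (Fin n))}

/-- no closed walk of length 3 -/
private theorem Gr2_c3 (hE : E' ⊆ E) (hl : ∀ e ∈ E, ¬ e.IsDiag) (hs : ∀ e ∈ E', ¬ Short E e)
    (a b c : Fin n) : ¬ (s(a, b) ∈ E' ∧ s(b, c) ∈ E' ∧ s(c, a) ∈ E') := by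
  rintro ⟨h1, h2, h3⟩
  have n1 : a ≠ b := fun h => hl _ (hE h1) (Sym2.mk_isDiag_iff.mpr h)
  have n2 : b ≠ c := fun h => hl _ (hE h2) (Sym2.mk_isDiag_iff.mpr h)
  have n3 : c ≠ a := fun h => hl _ (hE h3) (Sym2.mk_isDiag_iff.mpr h)
  refine hs _ h1 (Or.inl ⟨![a, b, c], ⟨?_, ?_⟩, rfl⟩)
  · intro i j hij
    fin_cases i <;> fin_cases j <;>
      first
      | rfl
      | exact absurd hij n1
      | exact absurd hij.symm n1
      | exact absurd hij n2
      | exact absurd hij.symm n2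
      | exact absurd hij n3
      | exact absurd hij.symm n3
  · intro i
    fin_cases i
    · exact hE h1
    · exact hE h2
    · exact hE h3

/-- no closed walk of length 4 without repetitions -/
private theorem Gr2_c4 (hE : E' ⊆ E) (hl : ∀ e ∈ E, ¬ e.IsDiag) (hs : ∀ e ∈ E', ¬ Short E e)
    (a b c d : Fin n) (hac : a ≠ c) (hbd : b ≠ d) :
    ¬ (s(a, b) ∈ E' ∧ s(b, c) ∈ E' ∧ s(c, d) ∈ E' ∧ s(d, a) ∈ E') := by
  rintro ⟨h1, h2, h3, h4⟩
  have n1 : a ≠ b := fun h => hl _ (hE h1) (Sym2.mk_isDiag_iff.mpr h)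
  have n2 : b ≠ c := fun h => hl _ (hE h2) (Sym2.mk_isDiag_iff.mpr h)
  have n3 : c ≠ d := fun h => hl _ (hE h3) (Sym2.mk_isDiag_iff.mpr h)
  have n4 : d ≠ a := fun h => hl _ (hE h4) (Sym2.mk_isDiag_iff.mpr h)
  refine hs _ h1 (Or.inr (Or.inl ⟨![a, b, c, d], ⟨?_, ?_⟩, rfl⟩))
  · intro i j hij
    fin_cases i <;> fin_cases j <;>
      first
      | rfl
      | exact absurd hij n1
      | exact absurd hij.symm n1
      | exact absurd hij n2
      | exact absurd hij.symm n2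
      | exact absurd hij n3
      | exact absurd hij.symm n3
      | exact absurd hij n4
      | exact absurd hij.symm n4
      | exact absurd hij hac
      | exact absurd hij.symm hac
      | exact absurd hij hbd
      | exact absurd hij.symm hbd
  · intro i
    fin_cases i
    · exact hE h1
    · exact hE h2
    · exact hE h3
    · exact hE h4

/-- no closed walk of length 5 -/
private theorem Gr2_c5w (hE : E' ⊆ E) (hl : ∀ e ∈ E, ¬ e.IsDiag) (hs : ∀ e ∈ E', ¬ Short E e)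
    (w : Fin 5 → Fin n) (hw : ∀ i, s(w i, w (i + 1)) ∈ E') : False := by
  have hne : ∀ i, w i ≠ w (i + 1) := fun i h => hl _ (hE (hw i)) (Sym2.mk_isDiag_iff.mpr h)
  have hinj : Function.Injective w := by
    intro i j hij
    by_contra hne'
    obtain ⟨t, rfl⟩ : ∃ t, j = i + t := ⟨j - i, (add_sub_cancel i j).symm⟩
    have h0 := hw i
    have h1 := hw (i + 1)
    have h2 := hw (i + 2)
    have h3 := hw (i + 3)
    have h4 := hw (i + 4)
    have g4 := hne (i + 4)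
    rw [(by decide : ∀ i : Fin 5, i + 1 + 1 = i + 2) i] at h1
    rw [(by decide : ∀ i : Fin 5, i + 2 + 1 = i + 3) i] at h2
    rw [(by decide : ∀ i : Fin 5, i + 3 + 1 = i + 4) i] at h3
    rw [(by decide : ∀ i : Fin 5, i + 4 + 1 = i) i] at h4 g4
    fin_cases t
    · exact hne' (by simp)
    · exact hne i hij
    · have hij' : w i = w (i + 2) := hij
      rw [hij'] at h4
      exact Gr2_c3 hE hl hs _ _ _ ⟨h2, h3, h4⟩
    · have hij' : w i = w (i + 3) := hij
      rw [← hij'] at h2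
      exact Gr2_c3 hE hl hs _ _ _ ⟨h0, h1, h2⟩
    · exact g4 hij.symm
  exact hs _ (hw 0) (Or.inr (Or.inr (Or.inl ⟨w, ⟨hinj, fun i => hE (hw i)⟩, rfl⟩)))

private theorem Gr2_c5 (hE : E' ⊆ E) (hl : ∀ e ∈ E, ¬ e.IsDiag) (hs : ∀ e ∈ E', ¬ Short E e)
    (a b c d e : Fin n) :
    ¬ (s(a, b) ∈ E' ∧ s(b, c) ∈ E' ∧ s(c, d) ∈ E' ∧ s(d, e) ∈ E' ∧ s(e, a) ∈ E') := by
  rintro ⟨h1, h2, h3, h4, h5⟩
  refine Gr2_c5w hE hl hs ![a, b, c, d, e] ?_
  intro i
  fin_cases i
  · exact h1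
  · exact h2
  · exact h3
  · exact h4
  · exact h5

/-- no closed walk of length 7 -/
private theorem Gr2_c7w (hE : E' ⊆ E) (hl : ∀ e ∈ E, ¬ e.IsDiag) (hs : ∀ e ∈ E', ¬ Short E e)
    (w : Fin 7 → Fin n) (hw : ∀ i, s(w i, w (i + 1)) ∈ E') : False := by
  have hne : ∀ i, w i ≠ w (i + 1) := fun i h => hl _ (hE (hw i)) (Sym2.mk_isDiag_iff.mpr h)
  have hinj : Function.Injective w := by
    intro i j hij
    by_contra hne'
    obtain ⟨t, rfl⟩ : ∃ t, j = i + t := ⟨j - i, (add_sub_cancel i j).symm⟩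
    have h0 := hw i
    have h1 := hw (i + 1)
    have h2 := hw (i + 2)
    have h3 := hw (i + 3)
    have h4 := hw (i + 4)
    have h5 := hw (i + 5)
    have h6 := hw (i + 6)
    have g6 := hne (i + 6)
    rw [(by decide : ∀ i : Fin 7, i + 1 + 1 = i + 2) i] at h1
    rw [(by decide : ∀ i : Fin 7, i + 2 + 1 = i + 3) i] at h2
    rw [(by decide : ∀ i : Fin 7, i + 3 + 1 = i + 4) i] at h3
    rw [(by decide : ∀ i : Fin 7, i + 4 + 1 = i + 5) i] at h4
    rw [(by decide : ∀ i : Fin 7, i + 5 + 1 = i + 6) i] at h5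
    rw [(by decide : ∀ i : Fin 7, i + 6 + 1 = i) i] at h6 g6
    fin_cases t
    · exact hne' (by simp)
    · exact hne i hij
    · have hij' : w i = w (i + 2) := hij
      rw [hij'] at h6
      exact Gr2_c5 hE hl hs _ _ _ _ _ ⟨h2, h3, h4, h5, h6⟩
    · have hij' : w i = w (i + 3) := hij
      rw [← hij'] at h2
      exact Gr2_c3 hE hl hs _ _ _ ⟨h0, h1, h2⟩
    · have hij' : w i = w (i + 4) := hij
      rw [hij'] at h6
      exact Gr2_c3 hE hl hs _ _ _ ⟨h4, h5, h6⟩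
    · have hij' : w i = w (i + 5) := hij
      rw [← hij'] at h4
      exact Gr2_c5 hE hl hs _ _ _ _ _ ⟨h0, h1, h2, h3, h4⟩
    · exact g6 hij.symm
  exact hs _ (hw 0) (Or.inr (Or.inr (Or.inr ⟨w, ⟨hinj, fun i => hE (hw i)⟩, rfl⟩)))

private theorem Gr2_c7 (hE : E' ⊆ E) (hl : ∀ e ∈ E, ¬ e.IsDiag) (hs : ∀ e ∈ E', ¬ Short E e)
    (a b c d e f g : Fin n) :
    ¬ (s(a, b) ∈ E' ∧ s(b, c) ∈ E' ∧ s(c, d) ∈ E' ∧ s(d, e) ∈ E' ∧ s(e, f) ∈ E' ∧
      s(f, g) ∈ E' ∧ s(g, a) ∈ E') := by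
  rintro ⟨h1, h2, h3, h4, h5, h6, h7⟩
  refine Gr2_c7w hE hl hs ![a, b, c, d, e, f, g] ?_
  intro i
  fin_cases i
  · exact h1
  · exact h2
  · exact h3
  · exact h4
  · exact h5
  · exact h6
  · exact h7

/-- the sum of the degrees of the vertices in a set -/
private theorem Gr2_deg (E : Finset (Sym2 (Fin n))) (S : Finset (Fin n)) :
    ∑ v ∈ S, (nb E v).card ≤ 2 * (touch E S).card := by
  classical
  have h1 : ∑ v ∈ S, (nb E v).card =
      ((S ×ˢ (univ : Finset (Fin n))).filter fun p : Fin n × Fin n => s(p.1, p.2) ∈ E).card := by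
    rw [card_filter, sum_product]
    refine sum_congr rfl fun v _ => ?_
    unfold nb
    rw [card_filter]
  rw [h1]
  refine card_le_mul_card_image_of_maps_to (f := fun p : Fin n × Fin n => s(p.1, p.2))
    (fun p hp => ?_) 2 ?_
  · obtain ⟨h2, h3⟩ := mem_filter.mp hp
    exact Gr2_mt.mpr ⟨h3, p.1, Sym2.mem_mk_left _ _, (mem_product.mp h2).1⟩
  intro e he
  induction e using Sym2.ind with
  | _ x y =>
    have h2 : (((S ×ˢ (univ : Finset (Fin n))).filter fun p : Fin n × Fin n =>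
        s(p.1, p.2) ∈ E).filter fun p => s(p.1, p.2) = s(x, y)) ⊆ {(x, y), (y, x)} := by
      intro p hp
      have h3 := (mem_filter.mp hp).2
      rw [Sym2.eq_iff] at h3
      rw [mem_insert, mem_singleton]
      rcases h3 with ⟨h4, h5⟩ | ⟨h4, h5⟩
      · exact Or.inl (Prod.ext h4 h5)
      · exact Or.inr (Prod.ext h4 h5)
    exact (card_le_card h2).trans card_le_two

/-- the ends of a set of edges -/
private theorem Gr2_ends (F : Finset (Sym2 (Fin n))) :
    (univ.filter fun v : Fin n => ∃ e ∈ F, v ∈ e).card ≤ 2 * F.card := by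
  classical
  have h1 : (univ.filter fun v : Fin n => ∃ e ∈ F, v ∈ e) ⊆
      F.biUnion fun e => univ.filter fun v => v ∈ e := by
    intro v hv
    obtain ⟨-, e, he, hve⟩ := mem_filter.mp hv
    exact mem_biUnion.mpr ⟨e, he, mem_filter.mpr ⟨mem_univ _, hve⟩⟩
  refine (card_le_card h1).trans ?_
  rw [mul_comm]
  refine card_biUnion_le_card_mul _ _ 2 fun e _ => ?_
  induction e using Sym2.ind with
  | _ x y =>
    have h2 : (univ.filter fun v => v ∈ s(x, y)) ⊆ {x, y} := by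
      intro v hv
      have h3 := (mem_filter.mp hv).2
      rw [Sym2.mem_iff] at h3
      rw [mem_insert, mem_singleton]
      exact h3
    exact (card_le_card h2).trans card_le_two

end del

private theorem Gr2_Lc {k D n s : ℕ} (hD : 10 ^ 12 * k ^ 2 ≤ D)
    (h : Lc k D * s ≤ (D + 1) * n) : 10 ^ 13 * k ^ 3 * s ≤ n := by
  have h1 : 10 ^ 7 * k ^ 2 ≤ (D + 1) ^ 11 := by
    have h2 : 10 ^ 7 * k ^ 2 ≤ D + 1 := by
      have h3 : 10 ^ 7 * k ^ 2 ≤ 10 ^ 12 * k ^ 2 := Nat.mul_le_mul_right _ (by norm_num)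
      omega
    exact h2.trans (Nat.le_self_pow (by norm_num) _)
  have h4 : (D + 1) * (10 ^ 13 * k ^ 3) ≤ Lc k D := by
    unfold Lc
    calc (D + 1) * (10 ^ 13 * k ^ 3) = 10 ^ 6 * k * ((10 ^ 7 * k ^ 2) * (D + 1)) := by ring
      _ ≤ 10 ^ 6 * k * ((D + 1) ^ 11 * (D + 1)) :=
        Nat.mul_le_mul_left _ (Nat.mul_le_mul_right _ h1)
      _ = 10 ^ 6 * k * (D + 1) ^ 12 := by ring
  have h5 : (D + 1) * (10 ^ 13 * k ^ 3 * s) ≤ (D + 1) * n := by
    calc (D + 1) * (10 ^ 13 * k ^ 3 * s) = (D + 1) * (10 ^ 13 * k ^ 3) * s := by ring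
      _ ≤ Lc k D * s := Nat.mul_le_mul_right _ h4
      _ ≤ (D + 1) * n := h
  exact Nat.le_of_mul_le_mul_left h5 (Nat.succ_pos D)

/-- **Gr2** the main part of a typical graph -/
theorem thm_Gr2 : St_Gr2 := by
  classical
  intro k D Λ n E hk hD hDΛ hΛn hE
  have hk2 : 1 ≤ k ^ 2 := Nat.one_le_pow _ _ hk
  have hD0 : 10 ^ 12 ≤ D := by nlinarith
  have hn0 : 0 < n := by omega
  have hΛ0 : 0 < Λ := by omega
  set high : Finset (Fin n) := univ.filter fun v => D < (nb E v).card with hhigh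
  -- few vertices of large degree
  have hfew : Λ * high.card < n := by
    by_contra hcon
    push Not at hcon
    have hc1 : (n + Λ - 1) / Λ ≤ high.card := by
      rw [Nat.div_le_iff_le_mul_add_pred hΛ0]
      omega
    obtain ⟨S, hS, hSc⟩ := exists_subset_card_eq hc1
    have hdm := Nat.div_add_mod (n + Λ - 1) Λ
    have hml := Nat.mod_lt (n + Λ - 1) hΛ0
    have h1 : n ≤ Λ * S.card := by
      rw [hSc]
      omega
    have h2 : Λ * S.card ≤ 2 * n := by
      rw [hSc]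
      omega
    have h3 := hE.R4 S h2
    have h4 : (D + 1) * S.card ≤ 2 * (touch E S).card := by
      refine le_trans ?_ (Gr2_deg E S)
      calc (D + 1) * S.card = ∑ _v ∈ S, (D + 1) := by rw [sum_const, smul_eq_mul, mul_comm]
        _ ≤ ∑ v ∈ S, (nb E v).card := sum_le_sum fun v hv => (mem_filter.mp (hS hv)).2
    have h5 : (D + 1) * n ≤ D * n := by
      calc (D + 1) * n ≤ (D + 1) * (Λ * S.card) := Nat.mul_le_mul_left _ h1
        _ = Λ * ((D + 1) * S.card) := by ring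
        _ ≤ Λ * (2 * (touch E S).card) := Nat.mul_le_mul_left _ h4
        _ = 2 * Λ * (touch E S).card := by ring
        _ ≤ D * n := h3
    rw [add_mul, one_mul] at h5
    omega
  set E1 := touch E high with hE1
  set E2 := E.filter fun e => Short E e with hE2
  set E' := E \ (E1 ∪ E2) with hE'
  set H : Finset (Fin n) := univ.filter fun v => ∃ e ∈ E1 ∪ E2, v ∈ e with hH
  have hsub : E' ⊆ E := sdiff_subset
  have hnH : ∀ e ∈ E', ∀ v ∈ e, v ∉ high := by
    intro e he v hv hvH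
    have h1 := mem_sdiff.mp he
    exact h1.2 (mem_union_left _ (Gr2_mt.mpr ⟨h1.1, v, hv, hvH⟩))
  have hnS : ∀ e ∈ E', ¬ Short E e := by
    intro e he hS
    have h1 := mem_sdiff.mp he
    exact h1.2 (mem_union_right _ (mem_filter.mpr ⟨h1.1, hS⟩))
  have hE1c : 2 * Λ * E1.card ≤ D * n := hE.R4 high (by omega)
  have hE2c : Λ * E2.card ≤ n := hE.R5
  have hU : 2 * Λ * (E1 ∪ E2).card ≤ (D + 2) * n := by
    calc 2 * Λ * (E1 ∪ E2).card ≤ 2 * Λ * (E1.card + E2.card) :=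
          Nat.mul_le_mul_left _ (card_union_le _ _)
      _ = 2 * Λ * E1.card + 2 * (Λ * E2.card) := by ring
      _ ≤ D * n + 2 * n := by omega
      _ = (D + 2) * n := by ring
  have hDn : (D + 2) * n ≤ 2 * D * n := Nat.mul_le_mul_right _ (by omega)
  have hrem : (E1 ∪ E2).card ≤ n := by
    have h1 : 2 * Λ * (E1 ∪ E2).card ≤ 2 * Λ * n := by
      refine hU.trans (hDn.trans ?_)
      exact Nat.mul_le_mul_right _ (by omega)
    exact Nat.le_of_mul_le_mul_left h1 (by omega)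
  have hsd : E \ E' ⊆ E1 ∪ E2 := by
    intro e he
    obtain ⟨h1, h2⟩ := mem_sdiff.mp he
    by_contra h3
    exact h2 (mem_sdiff.mpr ⟨h1, h3⟩)
  have hcard : E.card ≤ E'.card + n := by
    have h1 : E ⊆ E' ∪ (E1 ∪ E2) := by
      intro e he
      by_cases h : e ∈ E1 ∪ E2
      · exact mem_union_right _ h
      · exact mem_union_left _ (mem_sdiff.mpr ⟨he, h⟩)
    have h2 := (card_le_card h1).trans (card_union_le _ _)
    omega
  have hG1 : ∀ S T : Finset (Fin n), Disjoint S T → n ≤ 20000 * k * S.card →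
      n ≤ 20000 * k * T.card → 3 * n ≤ (betw E' S T).card := by
    intro S T hST hS hT
    have h1 := hE.R1 S T hST hS hT
    have h2 : betw E S T ⊆ betw E' S T ∪ (E1 ∪ E2) := by
      intro e he
      by_cases h : e ∈ E1 ∪ E2
      · exact mem_union_right _ h
      · obtain ⟨h3, h4⟩ := Gr2_mb.mp he
        exact mem_union_left _ (Gr2_mb.mpr ⟨mem_sdiff.mpr ⟨h3, h⟩, h4⟩)
    have h3 := (card_le_card h2).trans (card_union_le _ _)
    omega
  refine ⟨E', H, hE.loop, hE.tot, hE.tot2, hsub, ⟨⟨fun e he => hE.loop e (hsub he), ?_,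
    Gr2_c3 hsub hE.loop hnS, Gr2_c4 hsub hE.loop hnS, Gr2_c5 hsub hE.loop hnS,
    Gr2_c7 hsub hE.loop hnS, ?_, ?_, ?_, ?_⟩, hG1, ?_⟩, ?_, ?_, ?_⟩
  · -- degrees
    intro v
    by_cases hv : v ∈ high
    · have h1 : nb E' v = ∅ := by
        apply filter_eq_empty_iff.mpr
        intro w _ hw
        exact hnH _ hw v (Sym2.mem_mk_left v w) hv
      rw [h1, card_empty]
      exact Nat.zero_le _
    · have h1 : (nb E v).card ≤ D := by
        by_contra h
        exact hv (mem_filter.mpr ⟨mem_univ _, not_le.mp h⟩)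
      refine le_trans (card_le_card ?_) h1
      intro w hw
      exact mem_filter.mpr ⟨mem_univ _, hsub (mem_filter.mp hw).2⟩
  · -- the number of edges
    have h1 := hE.tot
    have h2 : n ≤ k ^ 2 * n := Nat.le_mul_of_pos_left _ (by omega)
    have h3 : 10 ^ 10 * k ^ 2 * n = 10 ^ 10 * (k ^ 2 * n) := by ring
    have h4 : 10 ^ 9 * k ^ 2 * n = 10 ^ 9 * (k ^ 2 * n) := by ring
    rw [h3] at h1
    rw [h4]
    omega
  · -- edges between large sets
    intro S T hST hS hT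
    have h1 := hG1 S T hST hS hT
    have h2 : (betw E' S T).Nonempty := by
      rw [← card_pos]
      omega
    obtain ⟨e, he⟩ := h2
    obtain ⟨heE, u, hu, v, hv, rfl⟩ := Gr2_mb.mp he
    exact ⟨u, hu, v, hv, heE⟩
  · intro S hS
    refine le_trans (card_le_card ?_) (hE.R2 S hS)
    intro e he
    obtain ⟨h1, h2⟩ := mem_filter.mp he
    exact Gr2_mi.mpr ⟨hsub h1, h2⟩
  · intro S hS
    refine le_trans (card_le_card ?_) (hE.R3 S hS)
    intro e he
    obtain ⟨h1, h2⟩ := mem_filter.mp he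
    exact Gr2_mt.mpr ⟨hsub h1, h2⟩
  · intro S hS
    refine le_trans (card_le_card ?_) (hE.R6 S (Gr2_Lc hD hS))
    intro e he
    obtain ⟨h1, h2⟩ := Gr2_mi.mp he
    exact Gr2_mi.mpr ⟨hsub h1, h2⟩
  · intro e he hne v hv
    have h1 : e ∈ E1 ∪ E2 := hsd (mem_sdiff.mpr ⟨he, hne⟩)
    exact mem_filter.mpr ⟨mem_univ _, e, h1, hv⟩
  · have h1 : 2 * (Λ * (E \ E').card) ≤ 2 * (D * n) := by
      calc 2 * (Λ * (E \ E').card) = 2 * Λ * (E \ E').card := by ring
        _ ≤ 2 * Λ * (E1 ∪ E2).card := Nat.mul_le_mul_left _ (card_le_card hsd)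
        _ ≤ 2 * D * n := hU.trans hDn
        _ = 2 * (D * n) := by ring
    omega
  · calc Λ * H.card ≤ Λ * (2 * (E1 ∪ E2).card) := Nat.mul_le_mul_left _ (Gr2_ends _)
      _ = 2 * Λ * (E1 ∪ E2).card := by ring
      _ ≤ 2 * D * n := hU.trans hDn

end Pool.Agent.EPR
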