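import Pool.Agent.EPR.St
import Pool.Agent.EC.Ori

/-!
# A random orientation is unbalanced, without an upper bound for the numbers of crossings

`thm_Ori : St_Ori`. For every piece the separated pairs are owned in the order of the pieces or in
the reversed order, so in one of the two orders many pieces own many pairs.
-/

set_option autoImplicit false
set_option linter.unusedSectionVars false

namespace Pool.Agent.EPR

open Finset Pool.Agent.EC

section
variable {I V : Type} [Fintype I] [DecidableEq I] [DecidableEq V]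

/-- the conclusion, if many pieces own many pairs -/
theorem oriP_main (p q : I → V) {k m : ℕ} (P : Fin k → Finset V) (hm : 1 ≤ m)
    (J : Finset (Fin k)) (hk : k ≤ 2 * J.card) (hJ : ∀ j ∈ J, m ≤ 2 * (oriOwn p q P j).card) :
    ((univ.filter fun o : I → Bool =>
        ((∑ j, (imb (mix o p q) (mix o q p) (P j)).natAbs : ℕ) : ℝ) <
          1 / 4096 * k * Real.sqrt m).card : ℝ) ≤
      2 ^ (-(1 / 4096 * (k : ℝ))) * 2 ^ Fintype.card I := by
  have hm0 : (1 : ℝ) ≤ m := by exact_mod_cast hm
  have hs0 : 0 < Real.sqrt m := Real.sqrt_pos.2 (by linarith)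
  have h4 := ori_few p q P J (fun j hj => by
    have := hJ j hj
    omega) (Real.sqrt m / 32) (fun j hj => by
    have h5 : (m : ℝ) / 4 ≤ ((oriOwn p q P j).card : ℝ) := by
      have h6 : (m : ℝ) ≤ 2 * ((oriOwn p q P j).card : ℝ) := by exact_mod_cast hJ j hj
      linarith
    have h6 := Real.sqrt_le_sqrt h5
    have h7 : Real.sqrt ((m : ℝ) / 4) = Real.sqrt m / 2 := by
      rw [Real.sqrt_div (by positivity)]
      congr 1
      rw [show (4 : ℝ) = 2 ^ 2 by norm_num]
      exact Real.sqrt_sq (by norm_num)
    rw [h7] at h6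
    linarith)
  have hk' : (k : ℝ) ≤ 2 * J.card := by exact_mod_cast hk
  have hJ0 : (0 : ℝ) ≤ J.card := Nat.cast_nonneg _
  have hk0 : (0 : ℝ) ≤ k := Nat.cast_nonneg _
  refine le_trans ?_ (h4.trans ?_)
  · have h5 : (univ.filter fun o : I → Bool =>
        ((∑ j, (imb (mix o p q) (mix o q p) (P j)).natAbs : ℕ) : ℝ) <
          1 / 4096 * k * Real.sqrt m) ⊆
        (univ.filter fun o : I → Bool => 32 * (J.filter fun j =>
      Real.sqrt m / 32 ≤ ((imb (mix o p q) (mix o q p) (P j)).natAbs : ℝ)).card < J.card) := by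
      intro o ho
      rw [mem_filter] at ho ⊢
      refine ⟨mem_univ _, ?_⟩
      by_contra hcon
      rw [not_lt] at hcon
      have h6 : (J.card : ℝ) ≤ 32 * ((J.filter fun j => Real.sqrt m / 32 ≤
          ((imb (mix o p q) (mix o q p) (P j)).natAbs : ℝ)).card : ℝ) := by exact_mod_cast hcon
      have h7 : ((J.filter fun j => Real.sqrt m / 32 ≤
          ((imb (mix o p q) (mix o q p) (P j)).natAbs : ℝ)).card : ℝ) * (Real.sqrt m / 32) ≤
          ((∑ j, (imb (mix o p q) (mix o q p) (P j)).natAbs : ℕ) : ℝ) := by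
        push_cast
        calc ((J.filter fun j => Real.sqrt m / 32 ≤
          ((imb (mix o p q) (mix o q p) (P j)).natAbs : ℝ)).card : ℝ) * (Real.sqrt m / 32)
            = ∑ j ∈ J.filter fun j => Real.sqrt m / 32 ≤
          ((imb (mix o p q) (mix o q p) (P j)).natAbs : ℝ), (Real.sqrt m / 32) := by
              rw [sum_const, nsmul_eq_mul]
          _ ≤ ∑ j ∈ J.filter fun j => Real.sqrt m / 32 ≤
          ((imb (mix o p q) (mix o q p) (P j)).natAbs : ℝ),
              ((imb (mix o p q) (mix o q p) (P j)).natAbs : ℝ) := by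
              apply sum_le_sum
              intro j hj
              exact (mem_filter.1 hj).2
          _ ≤ ∑ j, ((imb (mix o p q) (mix o q p) (P j)).natAbs : ℝ) := by
              apply sum_le_univ_sum_of_nonneg
              intro j
              positivity
      have h8 := ho.2
      have h9 : (k : ℝ) * Real.sqrt m ≤ 2 * J.card * Real.sqrt m :=
        mul_le_mul_of_nonneg_right hk' hs0.le
      have h10 : (J.card : ℝ) * Real.sqrt m ≤ 32 * ((J.filter fun j => Real.sqrt m / 32 ≤
          ((imb (mix o p q) (mix o q p) (P j)).natAbs : ℝ)).card : ℝ) * Real.sqrt m :=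
        mul_le_mul_of_nonneg_right h6 hs0.le
      have h11 : (0 : ℝ) ≤ (J.card : ℝ) * Real.sqrt m := by positivity
      have h12 : (0 : ℝ) ≤ (k : ℝ) * Real.sqrt m := by positivity
      linarith
    exact_mod_cast card_le_card h5
  · gcongr
    · norm_num
    · linarith

theorem oriP_rev (p q : I → V) {k : ℕ} (P : Fin k → Finset V) (j : Fin k) (i : I)
    (h : OriSep p q P j i) (hP : ∀ i j, i ≠ j → Disjoint (P i) (P j)) :
    i ∈ oriOwn p q P j ∨ i ∈ oriOwn p q (fun l => P l.rev) j.rev := by
  by_contra hcon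
  rw [not_or] at hcon
  obtain ⟨h1, h2⟩ := hcon
  unfold oriOwn at h1 h2
  rw [mem_filter] at h1 h2
  have h3 : ∃ l, l < j ∧ OriSep p q P l i := by
    by_contra h4
    push Not at h4
    exact h1 ⟨mem_univ _, h, h4⟩
  have h4 : ∃ l, j < l ∧ OriSep p q P l i := by
    by_contra h5
    push Not at h5
    apply h2
    refine ⟨mem_univ _, ?_, ?_⟩
    · unfold OriSep at h ⊢
      simp only [Fin.rev_rev]
      exact h
    · intro l hl hs
      refine h5 l.rev ?_ hs
      have := Fin.rev_lt_rev.2 hl
      rwa [Fin.rev_rev] at this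
  obtain ⟨a, ha, hsa⟩ := h3
  obtain ⟨b, hb, hsb⟩ := h4
  have hab : a ≠ b := (ha.trans hb).ne
  have hone : ∀ (v : V) (x y : Fin k), v ∈ P x → v ∈ P y → x = y := by
    intro v x y hx hy
    by_contra hxy
    exact disjoint_left.1 (hP x y hxy) hx hy
  have hor : ∀ x, OriSep p q P x i → p i ∈ P x ∨ q i ∈ P x := by
    intro x hx
    rcases hx with h | h
    · exact Or.inl h.1
    · exact Or.inr h.2
  rcases hor a hsa with h5 | h5 <;> rcases hor b hsb with h6 | h6 <;>
    rcases hor j h with h7 | h7
  · exact hab (hone _ _ _ h5 h6)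
  · exact hab (hone _ _ _ h5 h6)
  · exact ha.ne (hone _ _ _ h5 h7)
  · exact hb.ne (hone _ _ _ h7 h6)
  · exact hb.ne (hone _ _ _ h7 h6)
  · exact ha.ne (hone _ _ _ h5 h7)
  · exact hab (hone _ _ _ h5 h6)
  · exact hab (hone _ _ _ h5 h6)

end

/-- **[EPR Ori]** a random orientation is unbalanced. -/
theorem thm_Ori : St_Ori := by
  refine ⟨1 / 4096, by positivity, ?_⟩
  intro I V _ _ _ p q k m P hm hP hcard
  set P' : Fin k → Finset V := fun l => P l.rev with hP'
  set J1 : Finset (Fin k) := univ.filter fun j => m ≤ 2 * (oriOwn p q P j).card with hJ1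
  set J2 : Finset (Fin k) := univ.filter fun j => m ≤ 2 * (oriOwn p q P' j).card with hJ2
  have hcov : k ≤ J1.card + J2.card := by
    have h1 : (univ : Finset (Fin k)) ⊆ J1 ∪ J2.image Fin.rev := by
      intro j _
      rw [mem_union, mem_image]
      have h2 : m ≤ (oriOwn p q P j).card + (oriOwn p q P' j.rev).card := by
        refine (hcard j).trans (le_trans (card_le_card ?_) (card_union_le _ _))
        intro i hi
        rw [mem_filter] at hi
        rw [mem_union]
        exact oriP_rev p q P j i hi.2 hP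
      by_cases h3 : m ≤ 2 * (oriOwn p q P j).card
      · exact Or.inl (mem_filter.2 ⟨mem_univ _, h3⟩)
      · refine Or.inr ⟨j.rev, mem_filter.2 ⟨mem_univ _, ?_⟩, Fin.rev_rev j⟩
        omega
    have h2 := (card_le_card h1).trans (card_union_le _ _)
    rw [card_univ, Fintype.card_fin] at h2
    exact h2.trans (Nat.add_le_add_left card_image_le _)
  rcases le_total J2.card J1.card with h | h
  · exact oriP_main p q P hm J1 (by omega) fun j hj => (mem_filter.1 hj).2
  · have h1 := oriP_main p q P' hm J2 (by omega) fun j hj => (mem_filter.1 hj).2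
    have h2 : ∀ o : I → Bool, ∑ j, (imb (mix o p q) (mix o q p) (P' j)).natAbs =
        ∑ j, (imb (mix o p q) (mix o q p) (P j)).natAbs := by
      intro o
      exact Equiv.sum_comp Fin.revPerm fun j => (imb (mix o p q) (mix o q p) (P j)).natAbs
    simp only [h2] at h1
    exact h1

end Pool.Agent.EPR
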