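import Pool.Agent.EPR.St

/-!
# [EPR OriK] An orientation which is unbalanced for a few sets
-/

set_option autoImplicit false

namespace Pool.Agent.EPR

open Finset Pool.Agent.WD Pool.Agent.EB Pool.Agent.EC
open scoped NNReal

/-- [EPR OriK] for `s` sets with at least `s * m` crossings each and `s * t ≤ m` there is an
orientation with imbalance at least `t` at each of the sets -/
def St_OriK : Prop :=
  ∀ (I V : Type) [Fintype I] [DecidableEq I] [DecidableEq V] (p q : I → V) (s m t : ℕ)
    (P : Fin s → Finset V),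
    (∀ j, s * m ≤ (univ.filter fun i =>
        (p i ∈ P j ∧ q i ∉ P j) ∨ (p i ∉ P j ∧ q i ∈ P j)).card) → s * t ≤ m →
    ∃ o : I → Bool, ∀ j, t ≤ (imb (mix o p q) (mix o q p) (P j)).natAbs

private theorem OriK_blocks {I ι : Type} [DecidableEq I] [DecidableEq ι] (T : ι → Finset I)
    (m : ℕ) (S : Finset ι) (hT : ∀ i ∈ S, S.card * m ≤ (T i).card) :
    ∃ B : ι → Finset I, (∀ i ∈ S, B i ⊆ T i ∧ (B i).card = m) ∧
      ∀ i ∈ S, ∀ j ∈ S, i ≠ j → Disjoint (B i) (B j) := by
  induction S using Finset.induction_on with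
  | empty => exact ⟨fun _ => ∅, by simp, by simp⟩
  | insert a S ha ih =>
    rw [card_insert_of_notMem ha] at hT
    obtain ⟨B, hB1, hB2⟩ := ih fun i hi =>
      (Nat.mul_le_mul_right m (Nat.le_succ _)).trans (hT i (mem_insert_of_mem hi))
    have h1 : (S.biUnion B).card ≤ S.card * m :=
      card_biUnion_le_card_mul _ _ _ fun i hi => (hB1 i hi).2.le
    have h2 : m ≤ (T a \ S.biUnion B).card := by
      have h3 := hT a (mem_insert_self _ _)
      have h4 := le_card_sdiff (S.biUnion B) (T a)
      have h5 : (S.card + 1) * m = S.card * m + m := by ring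
      omega
    obtain ⟨U, hU1, hU2⟩ := exists_subset_card_eq h2
    refine ⟨Function.update B a U, ?_, ?_⟩
    · intro i hi
      by_cases hia : i = a
      · subst hia
        rw [Function.update_self]
        exact ⟨hU1.trans sdiff_subset, hU2⟩
      · rw [Function.update_of_ne hia]
        exact hB1 i (mem_of_mem_insert_of_ne hi hia)
    · have key : ∀ j ∈ S, Disjoint U (B j) := by
        intro j hj
        rw [Finset.disjoint_left]
        intro x hx hxj
        exact (mem_sdiff.1 (hU1 hx)).2 (mem_biUnion.2 ⟨j, hj, hxj⟩)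
      intro i hi j hj hij
      by_cases hia : i = a
      · subst hia
        rw [Function.update_self, Function.update_of_ne (Ne.symm hij)]
        exact key j (mem_of_mem_insert_of_ne hj (Ne.symm hij))
      · by_cases hja : j = a
        · subst hja
          rw [Function.update_self, Function.update_of_ne hia]
          exact (key i (mem_of_mem_insert_of_ne hi hia)).symm
        · rw [Function.update_of_ne hia, Function.update_of_ne hja]
          exact hB2 i (mem_of_mem_insert_of_ne hi hia) j (mem_of_mem_insert_of_ne hj hja) hij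

/-- the contribution of an element to the imbalance -/
private def OriK_c {I V : Type} [DecidableEq V] (p q : I → V) (P : Finset V) (g : I) (b : Bool) :
    ℤ := (if (if b then p g else q g) ∈ P then 1 else 0) -
      (if (if b then q g else p g) ∈ P then 1 else 0)

private theorem OriK_imb {I V : Type} [Fintype I] [DecidableEq V] (p q : I → V) (P : Finset V)
    (o : I → Bool) : imb (mix o p q) (mix o q p) P = ∑ g, OriK_c p q P g (o g) := rfl

private theorem OriK_few (t : ℕ) (m : ℕ) (C : ℤ) :
    ((univ : Finset (Fin (m + 1))).filter fun a : Fin (m + 1) =>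
      (2 * ((a : ℕ) : ℤ) + C).natAbs < t).card ≤ t := by
  rcases Nat.eq_zero_or_pos t with ht | ht
  · subst ht
    simp
  -- the values `a` lie in an interval of length `t`
  have h1 : ((univ : Finset (Fin (m + 1))).filter fun a : Fin (m + 1) =>
      (2 * ((a : ℕ) : ℤ) + C).natAbs < t).card ≤
        (Finset.Icc (-((C + t - 1) / 2)) (-((C + t - 1) / 2) + t - 1)).card := by
    refine card_le_card_of_injOn (fun a : Fin (m + 1) => ((a : ℕ) : ℤ)) ?_ ?_
    · intro a ha
      rw [mem_coe, mem_filter] at ha
      rw [mem_coe, mem_Icc]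
      show -((C + t - 1) / 2) ≤ ((a : ℕ) : ℤ) ∧ ((a : ℕ) : ℤ) ≤ -((C + t - 1) / 2) + t - 1
      have h2 := ha.2
      have h3 : -(t : ℤ) < 2 * ((a : ℕ) : ℤ) + C ∧ 2 * ((a : ℕ) : ℤ) + C < t := by omega
      constructor <;> omega
    · intro a _ b _ h
      have h4 : ((a : ℕ) : ℤ) = ((b : ℕ) : ℤ) := h
      exact Fin.ext (by exact_mod_cast h4)
  refine h1.trans ?_
  rw [Int.card_Icc]
  omega

/-- [EPR OriK] -/
theorem thm_OriK : St_OriK := by
  classical
  intro I V _ _ _ p q s m t P hcr hst
  rcases Nat.eq_zero_or_pos s with hs | hs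
  · subst hs
    exact ⟨fun _ => true, fun j => j.elim0⟩
  obtain ⟨B, hB1, hB2⟩ := OriK_blocks (fun j : Fin s => univ.filter fun i =>
    (p i ∈ P j ∧ q i ∉ P j) ∨ (p i ∉ P j ∧ q i ∈ P j)) m univ (fun j _ => by
      rw [card_univ, Fintype.card_fin]
      exact hcr j)
  have hBc : ∀ j, (B j).card = m := fun j => (hB1 j (mem_univ _)).2
  have hBT : ∀ j g, g ∈ B j → (p g ∈ P j ∧ q g ∉ P j) ∨ (p g ∉ P j ∧ q g ∈ P j) := fun j g hg =>
    (mem_filter.1 ((hB1 j (mem_univ _)).1 hg)).2
  have hBd : ∀ i j g, g ∈ B i → g ∈ B j → i = j := by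
    intro i j g hi hj
    by_contra hij
    exact Finset.disjoint_left.1 (hB2 i (mem_univ _) j (mem_univ _) hij) hi hj
  set e : ∀ j, B j ≃ Fin m := fun j => (B j).equivFinOfCardEq (hBc j) with he
  -- the orientations
  set o : (Fin s → Fin (m + 1)) → I → Bool := fun r g => if h : ∃ j, g ∈ B j then
    (if ((e h.choose ⟨g, h.choose_spec⟩ : Fin m) : ℕ) < (r h.choose : ℕ) then
      decide (p g ∈ P h.choose) else !(decide (p g ∈ P h.choose))) else true with ho
  have ho1 : ∀ r j g (hg : g ∈ B j), o r g = if ((e j ⟨g, hg⟩ : Fin m) : ℕ) < (r j : ℕ) then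
      decide (p g ∈ P j) else !(decide (p g ∈ P j)) := by
    intro r j g hg
    have h : ∃ j, g ∈ B j := ⟨j, hg⟩
    have h1 : h.choose = j := hBd _ _ g h.choose_spec hg
    simp only [ho]
    rw [dif_pos h]
    have h2 : ∀ (k : Fin s) (hk : g ∈ B k), k = j →
        (if ((e k ⟨g, hk⟩ : Fin m) : ℕ) < (r k : ℕ) then
          decide (p g ∈ P k) else !(decide (p g ∈ P k))) =
        if ((e j ⟨g, hg⟩ : Fin m) : ℕ) < (r j : ℕ) then
          decide (p g ∈ P j) else !(decide (p g ∈ P j)) := by
      intro k hk hkj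
      subst hkj
      rfl
    exact h2 _ h.choose_spec h1
  have ho2 : ∀ r r' j g, (∀ i, i ≠ j → r i = r' i) → g ∉ B j → o r g = o r' g := by
    intro r r' j g hr hg
    by_cases h : ∃ i, g ∈ B i
    · obtain ⟨i, hi⟩ := h
      have hij : i ≠ j := by
        rintro rfl
        exact hg hi
      rw [ho1 r i g hi, ho1 r' i g hi, hr i hij]
    · simp only [ho]
      rw [dif_neg h, dif_neg h]
  -- the own contribution
  have hown : ∀ r j, ∑ g ∈ B j, OriK_c p q (P j) g (o r g) = 2 * ((r j : ℕ) : ℤ) - m := by
    intro r j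
    have h1 : ∀ g (hg : g ∈ B j), OriK_c p q (P j) g (o r g) =
        if ((e j ⟨g, hg⟩ : Fin m) : ℕ) < (r j : ℕ) then 1 else -1 := by
      intro g hg
      rw [ho1 r j g hg]
      unfold OriK_c
      rcases hBT j g hg with ⟨h2, h3⟩ | ⟨h2, h3⟩
      · by_cases h4 : ((e j ⟨g, hg⟩ : Fin m) : ℕ) < (r j : ℕ) <;> simp [h2, h3, h4]
      · by_cases h4 : ((e j ⟨g, hg⟩ : Fin m) : ℕ) < (r j : ℕ) <;> simp [h2, h3, h4]
    rw [← sum_attach]
    have h5 : ∑ x ∈ (B j).attach, OriK_c p q (P j) (x : I) (o r x) =
        ∑ x : B j, (if ((e j x : Fin m) : ℕ) < (r j : ℕ) then (1 : ℤ) else -1) := by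
      rw [univ_eq_attach]
      exact sum_congr rfl fun x _ => h1 x x.2
    rw [h5, Equiv.sum_comp (e j) fun a : Fin m => if (a : ℕ) < (r j : ℕ) then (1 : ℤ) else -1,
      Fin.sum_univ_eq_sum_range (fun a => if a < (r j : ℕ) then (1 : ℤ) else -1) m]
    have hrm : (r j : ℕ) ≤ m := Nat.lt_succ_iff.1 (r j).2
    generalize (r j : ℕ) = rj at hrm
    obtain ⟨w, rfl⟩ := Nat.exists_eq_add_of_le hrm
    have h6 : ∑ a ∈ range (rj + w), (if a < rj then (1 : ℤ) else -1) =
        rj - (w : ℤ) := by
      rw [sum_range_add]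
      have h7 : ∑ x ∈ range rj, (if x < rj then (1 : ℤ) else -1) = rj := by
        rw [sum_congr rfl fun x hx => if_pos (mem_range.1 hx), sum_const, card_range]
        simp
      have h8 : ∑ x ∈ range w, (if rj + x < rj then (1 : ℤ) else -1) = -(w : ℤ) := by
        rw [sum_congr rfl fun x _ => if_neg (by omega), sum_const, card_range]
        simp
      rw [h7, h8]
      ring
    rw [h6]
    push_cast
    ring
  -- the number of choices which are bad for `j`
  have hbad : ∀ j, (univ.filter fun r : Fin s → Fin (m + 1) =>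
      (imb (mix (o r) p q) (mix (o r) q p) (P j)).natAbs < t).card ≤ t * (m + 1) ^ (s - 1) := by
    intro j
    have h1 := card_le_mul_card_image (f := fun r : Fin s → Fin (m + 1) => Function.update r j 0)
      (univ.filter fun r : Fin s → Fin (m + 1) =>
        (imb (mix (o r) p q) (mix (o r) q p) (P j)).natAbs < t) t ?_
    · refine h1.trans (Nat.mul_le_mul_left _ ?_)
      have h2 : (image (fun r : Fin s → Fin (m + 1) => Function.update r j 0)
          (univ.filter fun r : Fin s → Fin (m + 1) =>
            (imb (mix (o r) p q) (mix (o r) q p) (P j)).natAbs < t)).card ≤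
          ((Fintype.piFinset fun _ : Fin s => (univ : Finset (Fin (m + 1)))).filter
            fun r => r j = 0).card := by
        refine card_le_card fun r hr => ?_
        obtain ⟨r', -, rfl⟩ := mem_image.1 hr
        refine mem_filter.2 ⟨?_, Function.update_self _ _ _⟩
        rw [Fintype.mem_piFinset]
        exact fun _ => mem_univ _
      refine h2.trans ?_
      rw [Fintype.card_filter_piFinset_const_eq_of_mem _ _ (mem_univ _)]
      simp
    · intro r₀ hr₀
      -- the fibre
      obtain ⟨r₁, -, hr₁⟩ := mem_image.1 hr₀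
      set C : ℤ := ∑ g ∈ (B j)ᶜ, OriK_c p q (P j) g (o r₀ g) with hC
      have hfib : ∀ r : Fin s → Fin (m + 1), Function.update r j 0 = r₀ →
          imb (mix (o r) p q) (mix (o r) q p) (P j) = 2 * ((r j : ℕ) : ℤ) + (C - m) := by
        intro r hr
        rw [OriK_imb, ← sum_add_sum_compl (B j), hown r j]
        have h3 : ∑ g ∈ (B j)ᶜ, OriK_c p q (P j) g (o r g) = C := by
          refine sum_congr rfl fun g hg => ?_
          rw [ho2 r r₀ j g (fun i hi => ?_) (mem_compl.1 hg)]
          rw [← hr, Function.update_of_ne hi]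
        rw [h3]
        ring
      refine le_trans ?_ (OriK_few t m (C - m))
      refine card_le_card_of_injOn (fun r : Fin s → Fin (m + 1) => r j) ?_ ?_
      · intro r hr
        rw [mem_coe, mem_filter, mem_filter] at hr
        rw [mem_coe, mem_filter]
        refine ⟨mem_univ _, ?_⟩
        rw [← hfib r hr.2]
        exact hr.1.2
      · intro r hr r' hr' h
        rw [mem_coe, mem_filter, mem_filter] at hr hr'
        funext i
        by_cases hi : i = j
        · subst hi
          exact h
        · have h4 : Function.update r j 0 i = Function.update r' j 0 i := by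
            have h5 : Function.update r j 0 = Function.update r' j 0 := hr.2.trans hr'.2.symm
            rw [h5]
          rwa [Function.update_of_ne hi, Function.update_of_ne hi] at h4
  -- a good choice
  have hex : ∃ r : Fin s → Fin (m + 1), ∀ j,
      ¬ (imb (mix (o r) p q) (mix (o r) q p) (P j)).natAbs < t := by
    by_contra hno
    push Not at hno
    have h1 : (univ : Finset (Fin s → Fin (m + 1))) ⊆ univ.biUnion fun j =>
        univ.filter fun r : Fin s → Fin (m + 1) =>
          (imb (mix (o r) p q) (mix (o r) q p) (P j)).natAbs < t := by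
      intro r _
      obtain ⟨j, hj⟩ := hno r
      exact mem_biUnion.2 ⟨j, mem_univ _, mem_filter.2 ⟨mem_univ _, hj⟩⟩
    have h2 := (card_le_card h1).trans (card_biUnion_le_card_mul _ _ _ fun j _ => hbad j)
    rw [card_univ, Fintype.card_fun, Fintype.card_fin, Fintype.card_fin, card_univ,
      Fintype.card_fin] at h2
    have h3 : s * (t * (m + 1) ^ (s - 1)) ≤ m * (m + 1) ^ (s - 1) := by
      rw [← mul_assoc]
      exact Nat.mul_le_mul_right _ hst
    have h4 : (m + 1) ^ s = (m + 1) * (m + 1) ^ (s - 1) := by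
      rw [← pow_succ', Nat.sub_add_cancel hs]
    have h5 : 0 < (m + 1) ^ (s - 1) := by positivity
    rw [h4, add_mul, one_mul] at h2
    omega
  obtain ⟨r, hr⟩ := hex
  exact ⟨o r, fun j => not_lt.1 (hr j)⟩

end Pool.Agent.EPR
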