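import Pool.Agent.EPR.St
import Pool.Agent.EC.Pick

/-!
# EPR: a sparse random choice of elements without conflicts
-/

set_option autoImplicit false
set_option linter.unusedSectionVars false

namespace Pool.Agent.EPR

open Finset Pool.Agent.EB
open Pool.Agent.EC (Pick_nc Pick_theta)

section

variable {G : Type} [Fintype G] [DecidableEq G] (c : G → G → Prop) [DecidableRel c]
variable {α : Type} [Fintype α] [DecidableEq α] (o : α)

/-- the element `g` is selected by `w` -/
def pick_sel (w : G → α) (g : G) : Prop := w g = o ∧ ∀ h, h ≠ g → c g h → w h ≠ o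

open Classical in
/-- the weight -/
noncomputable def pick_wt (w : G → α) (g : G) : ℝ := if pick_sel c o w g then 1 / 2 else 1

theorem pick_wt_nonneg (w : G → α) (g : G) : 0 ≤ pick_wt c o w g := by
  unfold pick_wt
  split_ifs <;> norm_num

theorem pick_sel_congr (g : G) (w w' : G → α) (h : ∀ v ∈ Pick_nc c g, w v = w' v) :
    pick_sel c o w g ↔ pick_sel c o w' g := by
  unfold pick_sel
  have hg : w g = w' g := h g (mem_insert_self _ _)
  have hv : ∀ v, c g v → w v = w' v := fun v hv =>
    h v (mem_insert_of_mem (mem_filter.mpr ⟨mem_univ _, hv⟩))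
  rw [hg]
  refine and_congr_right fun _ => ?_
  constructor
  · intro h1 v h2 h3
    rw [← hv v h3]
    exact h1 v h2 h3
  · intro h1 v h2 h3
    rw [hv v h3]
    exact h1 v h2 h3

/-- forget the values near `g` -/
def pick_rst (g : G) (w : G → α) (v : G) : α := if v ∈ Pick_nc c g then o else w v

theorem pick_rst_off (g : G) (w : G → α) (v : G) (hv : v ∉ Pick_nc c g) :
    pick_rst c o g w v = w v := by
  unfold pick_rst
  rw [if_neg hv]

theorem pick_rst_rst (g : G) (w : G → α) :
    pick_rst c o g (pick_rst c o g w) = pick_rst c o g w := by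
  funext v
  unfold pick_rst
  split_ifs <;> rfl

theorem pick_fibre_iff (g : G) (z : G → α) (hz : pick_rst c o g z = z) (w : G → α) :
    pick_rst c o g w = z ↔ ∀ v, v ∉ Pick_nc c g → w v = z v := by
  constructor
  · intro h v hv
    rw [← pick_rst_off c o g w v hv, h]
  · intro h
    funext v
    by_cases hv : v ∈ Pick_nc c g
    · rw [← hz]
      unfold pick_rst
      rw [if_pos hv, if_pos hv]
    · rw [pick_rst_off c o g w v hv, h v hv]

theorem pick_fibre (g : G) (z : G → α) (hz : pick_rst c o g z = z) :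
    (univ.filter (fun w : G → α => pick_rst c o g w = z)).card =
      Fintype.card α ^ (Pick_nc c g).card := by
  have h1 : univ.filter (fun w : G → α => pick_rst c o g w = z) =
      Fintype.piFinset (fun v => if v ∈ Pick_nc c g then (univ : Finset α) else {z v}) := by
    ext w
    rw [mem_filter, Fintype.mem_piFinset, pick_fibre_iff c o g z hz w]
    constructor
    · rintro ⟨-, h⟩ v
      split_ifs with hv
      · exact mem_univ _
      · exact mem_singleton.mpr (h v hv)
    · intro h
      refine ⟨mem_univ _, fun v hv => ?_⟩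
      have h2 := h v
      rw [if_neg hv] at h2
      exact mem_singleton.mp h2
  rw [h1, Fintype.card_piFinset]
  have h2 : ∀ v : G, (if v ∈ Pick_nc c g then (univ : Finset α) else {z v}).card =
      if v ∈ Pick_nc c g then Fintype.card α else 1 := by
    intro v
    split_ifs
    · rfl
    · exact card_singleton _
  rw [Finset.prod_congr rfl fun v _ => h2 v, Finset.prod_ite_mem, Finset.univ_inter,
    Finset.prod_const]

theorem pick_fibre_sel (g : G) (z : G → α) (hz : pick_rst c o g z = z)
    [DecidablePred fun w : G → α => pick_sel c o w g] :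
    ((univ.filter (fun w : G → α => pick_rst c o g w = z)).filter
      (fun w => pick_sel c o w g)).card = (Fintype.card α - 1) ^ ((Pick_nc c g).card - 1) := by
  have hself : g ∈ Pick_nc c g := mem_insert_self _ _
  have h1 : (univ.filter (fun w : G → α => pick_rst c o g w = z)).filter
      (fun w => pick_sel c o w g) =
      Fintype.piFinset (fun v => if v ∈ Pick_nc c g then
        (if v = g then ({o} : Finset α) else univ.erase o) else {z v}) := by
    ext w
    rw [mem_filter, mem_filter, Fintype.mem_piFinset, pick_fibre_iff c o g z hz w]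
    constructor
    · rintro ⟨⟨-, h⟩, h'⟩ v
      split_ifs with hv hg
      · rw [hg]
        exact mem_singleton.mpr h'.1
      · refine mem_erase.mpr ⟨h'.2 v hg ?_, mem_univ _⟩
        rcases mem_insert.mp hv with h3 | h3
        · exact absurd h3 hg
        · exact (mem_filter.mp h3).2
      · exact mem_singleton.mpr (h v hv)
    · intro h
      refine ⟨⟨mem_univ _, fun v hv => ?_⟩, ?_, fun v hv hc => ?_⟩
      · have h2 := h v
        rw [if_neg hv] at h2
        exact mem_singleton.mp h2
      · have h2 := h g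
        rw [if_pos hself, if_pos rfl] at h2
        exact mem_singleton.mp h2
      · have h2 := h v
        have h3 : v ∈ Pick_nc c g := mem_insert_of_mem (mem_filter.mpr ⟨mem_univ _, hc⟩)
        rw [if_pos h3, if_neg hv] at h2
        exact (mem_erase.mp h2).1
  rw [h1, Fintype.card_piFinset]
  have h2 : ∀ v : G, (if v ∈ Pick_nc c g then
        (if v = g then ({o} : Finset α) else univ.erase o) else {z v}).card =
      if v ∈ Pick_nc c g then (if v = g then 1 else Fintype.card α - 1) else 1 := by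
    intro v
    split_ifs
    · exact card_singleton _
    · rw [card_erase_of_mem (mem_univ _)]
      rfl
    · exact card_singleton _
  rw [Finset.prod_congr rfl fun v _ => h2 v, Finset.prod_ite_mem, Finset.univ_inter,
    ← Finset.mul_prod_erase _ _ hself, if_pos rfl, one_mul,
    Finset.prod_congr rfl fun v hv => if_neg (mem_erase.mp hv).1, Finset.prod_const,
    card_erase_of_mem hself]

theorem pick_bern (N n : ℕ) (hn : 1 ≤ n) (hN : 2 * n ≤ N) :
    ((N : ℝ)) ^ n ≤ 2 * N * ((N - 1 : ℕ) : ℝ) ^ (n - 1) := by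
  obtain ⟨k, rfl⟩ := Nat.exists_eq_add_of_le' hn
  have hN1 : 1 ≤ N := by omega
  have hN0 : (0 : ℝ) < N := by exact_mod_cast hN1
  rw [Nat.add_sub_cancel, Nat.cast_sub hN1, Nat.cast_one]
  have h1 : 1 + (k : ℝ) * (-(1 / N)) ≤ (1 + -(1 / (N : ℝ))) ^ k := by
    refine one_add_mul_le_pow ?_ k
    have h2 : 1 / (N : ℝ) ≤ 1 := by
      rw [div_le_one hN0]
      exact_mod_cast hN1
    linarith
  have h2 : (1 / 2 : ℝ) ≤ 1 + (k : ℝ) * (-(1 / N)) := by
    have h3 : (k : ℝ) * (1 / N) ≤ 1 / 2 := by
      rw [mul_one_div, div_le_iff₀ hN0]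
      have h4 : 2 * (k : ℝ) ≤ N := by
        have h5 : 2 * k ≤ N := by omega
        exact_mod_cast h5
      linarith
    linarith
  have h3 : ((N : ℝ) - 1) ^ k = (N : ℝ) ^ k * (1 + -(1 / (N : ℝ))) ^ k := by
    rw [← mul_pow]
    congr 1
    field_simp
    ring
  rw [h3, pow_succ]
  have h4 : (N : ℝ) ^ k * (1 / 2) ≤ (N : ℝ) ^ k * (1 + -(1 / (N : ℝ))) ^ k :=
    mul_le_mul_of_nonneg_left (h2.trans h1) (by positivity)
  nlinarith [mul_le_mul_of_nonneg_left h4 hN0.le]

theorem pick_step (g : G) (L : ℕ) (hL : (Pick_nc c g).card ≤ L) (hN : 2 * L ≤ Fintype.card α)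
    (F : (G → α) → ℝ) (hF0 : ∀ w, 0 ≤ F w) (hF : ∀ w, F (pick_rst c o g w) = F w) :
    ∑ w, F w * pick_wt c o w g ≤ (1 - 1 / (4 * Fintype.card α)) * ∑ w, F w := by
  classical
  have hself : g ∈ Pick_nc c g := mem_insert_self _ _
  have hn1 : 1 ≤ (Pick_nc c g).card := card_pos.mpr ⟨g, hself⟩
  have hNpos : (0 : ℝ) < Fintype.card α := by
    have : 0 < Fintype.card α := by omega
    exact_mod_cast this
  have hmaps : ∀ x ∈ (univ : Finset (G → α)), pick_rst c o g x ∈ univ.image (pick_rst c o g) :=
    fun x hx => Finset.mem_image_of_mem _ hx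
  rw [← Finset.sum_fiberwise_of_maps_to hmaps, ← Finset.sum_fiberwise_of_maps_to hmaps,
    Finset.mul_sum]
  refine Finset.sum_le_sum fun z hz => ?_
  obtain ⟨x1, hx1, rfl⟩ := Finset.mem_image.1 hz
  set z : G → α := pick_rst c o g x1 with hzdef
  have hzz : pick_rst c o g z = z := pick_rst_rst c o g x1
  set P : Finset (G → α) := univ.filter (fun x => pick_rst c o g x = z) with hP
  have hFP : ∀ x ∈ P, F x = F z := by
    intro x hx
    have h1 := (Finset.mem_filter.1 hx).2
    rw [← hF x, h1]
  have hcard : (P.card : ℝ) = (Fintype.card α : ℝ) ^ (Pick_nc c g).card := by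
    have h1 := pick_fibre c o g z hzz
    rw [hP, h1]
    push_cast
    rfl
  have hsel : ((P.filter (fun x => pick_sel c o x g)).card : ℝ) =
      ((Fintype.card α - 1 : ℕ) : ℝ) ^ ((Pick_nc c g).card - 1) := by
    rw [hP, pick_fibre_sel c o g z hzz]
    push_cast
    rfl
  have hb := pick_bern (Fintype.card α) (Pick_nc c g).card hn1 (by omega)
  rw [← hcard, ← hsel] at hb
  have h1 : ∑ x ∈ P, F x * pick_wt c o x g = F z * ∑ x ∈ P, pick_wt c o x g := by
    rw [Finset.mul_sum]
    exact Finset.sum_congr rfl fun x hx => by rw [hFP x hx]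
  have h2 : ∑ x ∈ P, F x = F z * P.card := by
    rw [Finset.sum_congr rfl hFP, Finset.sum_const, nsmul_eq_mul, mul_comm]
  have h3 : ∑ x ∈ P, pick_wt c o x g =
      P.card - 1 / 2 * (P.filter (fun x => pick_sel c o x g)).card := by
    have h4 : ∀ x ∈ P, pick_wt c o x g = 1 - (if pick_sel c o x g then (1 / 2 : ℝ) else 0) := by
      intro x _
      unfold pick_wt
      split_ifs <;> norm_num
    rw [Finset.sum_congr rfl h4, Finset.sum_sub_distrib, ← Finset.sum_filter, Finset.sum_const,
      Finset.sum_const, nsmul_eq_mul, nsmul_eq_mul, mul_one, mul_comm (1 / 2 : ℝ)]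
  rw [h1, h2]
  have h7 : ∑ x ∈ P, pick_wt c o x g ≤ (1 - 1 / (4 * Fintype.card α)) * P.card := by
    rw [h3, sub_mul, one_mul]
    have h8 : 1 / (4 * (Fintype.card α : ℝ)) * P.card ≤
        1 / 2 * (P.filter (fun x => pick_sel c o x g)).card := by
      rw [one_div_mul_eq_div, div_le_iff₀ (by positivity)]
      linarith
    linarith
  calc F z * ∑ x ∈ P, pick_wt c o x g ≤ F z * ((1 - 1 / (4 * Fintype.card α)) * P.card) :=
        mul_le_mul_of_nonneg_left h7 (hF0 z)
    _ = _ := by ring

theorem pick_mom (L : ℕ) (hL : ∀ g, (Pick_nc c g).card ≤ L) (hL1 : 1 ≤ L)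
    (hN : 2 * L ≤ Fintype.card α) (T : Finset G)
    (hT : ∀ g ∈ T, ∀ h ∈ T, g ≠ h → Disjoint (Pick_nc c g) (Pick_nc c h)) :
    ∑ w : G → α, ∏ g ∈ T, pick_wt c o w g ≤
      (1 - 1 / (4 * Fintype.card α)) ^ T.card * (Fintype.card α : ℝ) ^ Fintype.card G := by
  classical
  induction T using Finset.induction_on with
  | empty => simp
  | insert g T hg ih =>
    have ih' := ih fun a ha b hb => hT a (mem_insert_of_mem ha) b (mem_insert_of_mem hb)
    have hN1 : (1 : ℝ) ≤ Fintype.card α := by
      have : 1 ≤ Fintype.card α := by omega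
      exact_mod_cast this
    have h0 : (0 : ℝ) ≤ 1 - 1 / (4 * Fintype.card α) := by
      rw [sub_nonneg, div_le_one (by positivity)]
      linarith
    have h1 := pick_step c o g L (hL g) hN (fun w => ∏ h ∈ T, pick_wt c o w h)
      (fun w => Finset.prod_nonneg fun h _ => pick_wt_nonneg c o w h) (by
        intro w
        refine Finset.prod_congr rfl fun h hh => ?_
        unfold pick_wt
        have h2 : pick_sel c o (pick_rst c o g w) h ↔ pick_sel c o w h := by
          refine pick_sel_congr c o h _ _ fun v hv => pick_rst_off c o g w v fun hv' => ?_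
          refine Finset.disjoint_left.mp (hT g (mem_insert_self _ _) h (mem_insert_of_mem hh) ?_)
            hv' hv
          rintro rfl
          exact hg hh
        simp only [h2])
    calc ∑ w : G → α, ∏ a ∈ insert g T, pick_wt c o w a
        = ∑ w : G → α, (∏ h ∈ T, pick_wt c o w h) * pick_wt c o w g := by
          refine Finset.sum_congr rfl fun w _ => ?_
          rw [Finset.prod_insert hg, mul_comm]
      _ ≤ (1 - 1 / (4 * Fintype.card α)) * ∑ w : G → α, ∏ h ∈ T, pick_wt c o w h := h1
      _ ≤ (1 - 1 / (4 * Fintype.card α)) *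
          ((1 - 1 / (4 * Fintype.card α)) ^ T.card * (Fintype.card α : ℝ) ^ Fintype.card G) :=
          mul_le_mul_of_nonneg_left ih' h0
      _ = _ := by rw [Finset.card_insert_of_notMem hg]; ring

/-- the number of the places with the value `o` is seldom more than twice its mean -/
theorem pick_markov : 2 * (univ.filter (fun w : G → α => 2 * Fintype.card G <
      Fintype.card α * (univ.filter (fun g => w g = o)).card)).card ≤
    Fintype.card α ^ Fintype.card G := by
  classical
  rcases Nat.eq_zero_or_pos (Fintype.card G) with h0 | hpos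
  · have h1 : univ.filter (fun w : G → α => 2 * Fintype.card G <
      Fintype.card α * (univ.filter (fun g => w g = o)).card) = ∅ := by
      rw [filter_eq_empty_iff]
      intro w _
      have h2 : (univ.filter (fun g => w g = o)).card ≤ Fintype.card G := card_le_univ _
      rw [h0] at h2
      rw [Nat.le_zero.mp h2]
      omega
    rw [h1, card_empty]
    exact Nat.zero_le _
  · set B := univ.filter (fun w : G → α => 2 * Fintype.card G <
      Fintype.card α * (univ.filter (fun g => w g = o)).card) with hB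
    have h1 : ∀ g : G, Fintype.card α * (univ.filter (fun w : G → α => w g = o)).card =
        Fintype.card α ^ Fintype.card G := by
      intro g
      have h2 : univ.filter (fun w : G → α => w g = o) =
          Fintype.piFinset (fun v => if v = g then ({o} : Finset α) else univ) := by
        ext w
        rw [mem_filter, Fintype.mem_piFinset]
        constructor
        · rintro ⟨-, h⟩ v
          split_ifs with hv
          · rw [hv]
            exact mem_singleton.mpr h
          · exact mem_univ _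
        · intro h
          have h3 := h g
          rw [if_pos rfl] at h3
          exact ⟨mem_univ _, mem_singleton.mp h3⟩
      rw [h2, Fintype.card_piFinset, ← Finset.mul_prod_erase _ _ (mem_univ g), if_pos rfl,
        card_singleton, one_mul,
        Finset.prod_congr rfl fun v hv => by rw [if_neg (mem_erase.mp hv).1], Finset.prod_const,
        card_erase_of_mem (mem_univ _), Finset.card_univ, Finset.card_univ, ← pow_succ',
        Nat.sub_add_cancel hpos]
    have h2 : ∑ w : G → α, Fintype.card α * (univ.filter (fun g => w g = o)).card =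
        Fintype.card G * Fintype.card α ^ Fintype.card G := by
      rw [← Finset.mul_sum]
      have h3 : ∑ w : G → α, (univ.filter (fun g => w g = o)).card =
          ∑ g : G, (univ.filter (fun w : G → α => w g = o)).card := by
        simp only [Finset.card_filter]
        exact Finset.sum_comm
      rw [h3, Finset.mul_sum, Finset.sum_congr rfl fun g _ => h1 g, Finset.sum_const,
        smul_eq_mul, Finset.card_univ]
    have h3 : B.card * (2 * Fintype.card G) ≤
        ∑ w : G → α, Fintype.card α * (univ.filter (fun g => w g = o)).card := by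
      calc B.card * (2 * Fintype.card G) = ∑ _w ∈ B, 2 * Fintype.card G := by
            rw [Finset.sum_const, smul_eq_mul]
        _ ≤ ∑ w ∈ B, Fintype.card α * (univ.filter (fun g => w g = o)).card :=
            Finset.sum_le_sum fun w hw => (mem_filter.mp hw).2.le
        _ ≤ _ := Finset.sum_le_sum_of_subset (Finset.subset_univ B)
    rw [h2] at h3
    have h4 : Fintype.card G * (2 * B.card) ≤
        Fintype.card G * Fintype.card α ^ Fintype.card G := by
      calc Fintype.card G * (2 * B.card) = B.card * (2 * Fintype.card G) := by ring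
        _ ≤ _ := h3
    exact Nat.le_of_mul_le_mul_left h4 hpos

end

theorem pick_theta_le (N : ℕ) (hN : 1 ≤ N) : (1 - 1 / (4 * (N : ℝ))) ^ (8 * N) ≤ 1 / 4 := by
  have hN0 : (0 : ℝ) < N := by exact_mod_cast hN
  have hN1 : (1 : ℝ) ≤ N := by exact_mod_cast hN
  have h0 : (0 : ℝ) ≤ 1 - 1 / (4 * (N : ℝ)) := by
    rw [sub_nonneg, div_le_one (by positivity)]
    linarith
  have h1 : 1 - 1 / (4 * (N : ℝ)) ≤ Real.exp (-(1 / (4 * (N : ℝ)))) := by
    have h2 := Real.add_one_le_exp (-(1 / (4 * (N : ℝ))))
    linarith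
  have h2 : (1 - 1 / (4 * (N : ℝ))) ^ (8 * N) ≤ Real.exp (-(1 / (4 * (N : ℝ)))) ^ (8 * N) :=
    pow_le_pow_left₀ h0 h1 _
  have h3 : Real.exp (-(1 / (4 * (N : ℝ)))) ^ (8 * N) = Real.exp (-2) := by
    rw [← Real.exp_nat_mul]
    congr 1
    push_cast
    field_simp
    norm_num
  rw [h3] at h2
  refine h2.trans ?_
  have h4 : (2 : ℝ) ≤ Real.exp 1 := by
    have := Real.exp_one_gt_d9
    linarith
  have h5 : Real.exp (-2) = (Real.exp 1 * Real.exp 1)⁻¹ := by
    rw [← Real.exp_add, Real.exp_neg]
    norm_num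
  rw [h5, one_div]
  refine inv_anti₀ (by norm_num) ?_
  nlinarith

theorem thm_Pick : St_Pick := by
  classical
  intro Λ
  set L : ℕ := Λ + 1 with hLdef
  have hL1 : 1 ≤ L := by omega
  refine ⟨16 * L ^ 3, Nat.mul_pos (by norm_num) (pow_pos hL1 3), ?_⟩
  intro G _ _ c _ hsym hdeg Q hQ ι _ T m hm hι
  obtain ⟨N, hNdef⟩ : ∃ N : ℕ, N = 2 * L * Q := ⟨_, rfl⟩
  have hLQ : 1 ≤ L * Q := Nat.mul_pos hL1 hQ
  have hN1 : 1 ≤ N := by
    rw [hNdef, mul_assoc]
    omega
  have hN2 : 2 * L ≤ N := by
    rw [hNdef]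
    exact Nat.le_mul_of_pos_right _ hQ
  have : NeZero N := ⟨by omega⟩
  have hcN : Fintype.card (Fin N) = N := Fintype.card_fin N
  have hN0 : (0 : ℝ) < N := by exact_mod_cast hN1
  obtain ⟨q, hqdef⟩ : ∃ q : ℕ, q = 8 * N := ⟨_, rfl⟩
  have hq1 : 1 ≤ q := by omega
  have hq0 : (0 : ℝ) < q := by exact_mod_cast hq1
  set θ : ℝ := 1 - 1 / (4 * (N : ℝ)) with hθ
  have hθ0 : 0 ≤ θ := by
    rw [hθ, sub_nonneg, div_le_one (by positivity)]
    have : (1 : ℝ) ≤ N := by exact_mod_cast hN1
    linarith
  have hθq : θ ^ q ≤ 1 / 4 := by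
    rw [hqdef]
    exact pick_theta_le N hN1
  have hKQ : 16 * L ^ 3 * Q = L * L * q := by
    rw [hqdef, hNdef]
    ring
  have hKQr : (((16 * L ^ 3 : ℕ) : ℝ)) * (Q : ℝ) = ((L * L : ℕ) : ℝ) * (q : ℝ) := by
    exact_mod_cast hKQ
  have hnc : ∀ g, (Pick_nc c g).card ≤ L := fun g =>
    (card_insert_le _ _).trans (Nat.add_le_add_right (hdeg g) 1)
  have hncs : ∀ g v, v ∈ Pick_nc c g → g ∈ Pick_nc c v := by
    intro g v hv
    unfold Pick_nc at hv ⊢
    rw [mem_insert, mem_filter] at hv ⊢
    rcases hv with rfl | hv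
    · exact Or.inl rfl
    · exact Or.inr ⟨mem_univ _, hsym _ _ hv.2⟩
  have hself : ∀ g, g ∈ Pick_nc c g := fun g => mem_insert_self _ _
  -- greedy choice
  have hgr : ∀ i, ∃ T' ⊆ T i, (∀ a ∈ T', ∀ b ∈ T', a ≠ b → Disjoint (Pick_nc c a) (Pick_nc c b)) ∧
      (T i).card ≤ L * L * T'.card := by
    intro i
    obtain ⟨J, hJ1, hJ2, hJ3⟩ := Sel1_greedy (T i)
      (fun a b => ¬ Disjoint (Pick_nc c a) (Pick_nc c b)) (fun a b h h' => h h'.symm) (L * L)
      (fun a => (Pick_nc c a).biUnion (Pick_nc c))
      (fun a _ => (card_biUnion_le_card_mul _ _ _ fun v _ => hnc v).trans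
        (Nat.mul_le_mul_right _ (hnc a)))
      (fun a _ b _ hab => by
        rw [Finset.not_disjoint_iff] at hab
        obtain ⟨v, hv1, hv2⟩ := hab
        exact mem_biUnion.mpr ⟨v, hv1, hncs b v hv2⟩)
      (fun a _ h => Finset.disjoint_left.mp h (hself a) (hself a))
    exact ⟨J, hJ1, fun a ha b hb hab => not_not.mp (hJ2 a ha b hb hab), hJ3⟩
  choose T' hT'1 hT'2 hT'3 using hgr
  let S : (G → Fin N) → Finset G := fun w => univ.filter fun g => pick_sel c 0 w g
  -- the bad sets
  let bad : ι → Finset (G → Fin N) := fun i =>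
    univ.filter fun w => q * (S w ∩ T' i).card < (T' i).card
  have hprod : ∀ (i : ι) (w : G → Fin N), ∏ g ∈ T' i, pick_wt c 0 w g =
      (1 / 2 : ℝ) ^ (S w ∩ T' i).card := by
    intro i w
    unfold pick_wt
    rw [Finset.prod_ite]
    simp only [Finset.prod_const, one_pow, mul_one]
    congr 2
    ext g
    simp only [S, mem_filter, mem_inter, mem_univ, true_and]
    exact and_comm
  have hbad : ∀ i, ((bad i).card : ℝ) ≤
      (2 : ℝ) ^ (-((m : ℝ) / (((16 * L ^ 3 : ℕ) : ℝ) * Q))) * (N : ℝ) ^ Fintype.card G := by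
    intro i
    set t : ℝ := ((T' i).card : ℝ) with ht
    have h1 := pick_mom c (0 : Fin N) L hnc hL1 (by rw [hcN]; exact hN2) (T' i) (hT'2 i)
    rw [hcN] at h1
    have h2 : ((bad i).card : ℝ) * (2 : ℝ) ^ (-(t / q)) ≤
        ∑ w : G → Fin N, ∏ g ∈ T' i, pick_wt c 0 w g := by
      rw [← nsmul_eq_mul, ← Finset.sum_const]
      refine (Finset.sum_le_sum fun w hw => ?_).trans
        (Finset.sum_le_sum_of_subset_of_nonneg (Finset.subset_univ (bad i)) fun w _ _ =>
          Finset.prod_nonneg fun g _ => pick_wt_nonneg c 0 w g)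
      rw [hprod]
      have h3 : q * (S w ∩ T' i).card < (T' i).card := (mem_filter.mp hw).2
      have h4 : ((S w ∩ T' i).card : ℝ) ≤ t / q := by
        rw [le_div_iff₀ hq0, mul_comm, ht]
        exact_mod_cast h3.le
      have h5 : (1 / 2 : ℝ) ^ (S w ∩ T' i).card = (2 : ℝ) ^ (-((S w ∩ T' i).card : ℝ)) := by
        rw [Real.rpow_neg (by norm_num), Real.rpow_natCast, one_div, inv_pow]
      rw [h5]
      exact Real.rpow_le_rpow_of_exponent_le (by norm_num) (by linarith)
    have h6 := Pick_theta θ hθ0 q hq1 hθq (T' i).card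
    have h7 : ((bad i).card : ℝ) * (2 : ℝ) ^ (-(t / q)) ≤
        (2 : ℝ) ^ (-(2 * t / q)) * (N : ℝ) ^ Fintype.card G :=
      h2.trans (h1.trans (mul_le_mul_of_nonneg_right h6 (by positivity)))
    have h8 : (2 : ℝ) ^ (-(2 * t / q)) = (2 : ℝ) ^ (-(t / q)) * (2 : ℝ) ^ (-(t / q)) := by
      rw [← Real.rpow_add (by norm_num)]
      congr 1
      ring
    rw [h8] at h7
    have h9 : (0 : ℝ) < (2 : ℝ) ^ (-(t / q)) := by positivity
    have h10 : ((bad i).card : ℝ) ≤ (2 : ℝ) ^ (-(t / q)) * (N : ℝ) ^ Fintype.card G := by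
      refine le_of_mul_le_mul_right ?_ h9
      linarith
    refine h10.trans (mul_le_mul_of_nonneg_right ?_ (by positivity))
    refine Real.rpow_le_rpow_of_exponent_le (by norm_num) ?_
    have h11 : (m : ℝ) ≤ (L * L : ℕ) * t := by
      rw [ht]
      exact_mod_cast (hm i).trans (hT'3 i)
    have hLL : (0 : ℝ) < (L * L : ℕ) := by exact_mod_cast Nat.mul_pos hL1 hL1
    rw [neg_le_neg_iff, hKQr, div_le_div_iff₀ (by positivity) hq0]
    nlinarith [mul_le_mul_of_nonneg_right h11 hq0.le]
  -- union bound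
  have hmk := pick_markov (G := G) (0 : Fin N)
  rw [hcN] at hmk
  set B : Finset (G → Fin N) := univ.filter (fun w : G → Fin N => 2 * Fintype.card G <
      N * (univ.filter (fun g => w g = 0)).card) with hB
  have hex : ∃ w : G → Fin N, (∀ i, w ∉ bad i) ∧ w ∉ B := by
    by_contra hcon
    push Not at hcon
    have h1 : (univ : Finset (G → Fin N)) ⊆ univ.biUnion bad ∪ B := by
      intro w _
      by_cases hw : ∀ i, w ∉ bad i
      · exact mem_union_right _ (hcon w hw)
      · push Not at hw
        obtain ⟨i, hi⟩ := hw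
        exact mem_union_left _ (mem_biUnion.mpr ⟨i, mem_univ _, hi⟩)
    have h2 := ((card_le_card h1).trans (card_union_le _ _)).trans
      (Nat.add_le_add_right card_biUnion_le _)
    rw [Finset.card_univ, Fintype.card_fun, hcN] at h2
    have h3 : ((N ^ Fintype.card G : ℕ) : ℝ) ≤ ∑ i, ((bad i).card : ℝ) + (B.card : ℝ) := by
      exact_mod_cast h2
    have h4 : ∑ i, ((bad i).card : ℝ) ≤ Fintype.card ι *
        ((2 : ℝ) ^ (-((m : ℝ) / (((16 * L ^ 3 : ℕ) : ℝ) * Q))) * (N : ℝ) ^ Fintype.card G) := by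
      refine (Finset.sum_le_sum fun i _ => hbad i).trans (le_of_eq ?_)
      rw [Finset.sum_const, nsmul_eq_mul, Finset.card_univ]
    have h5 : 2 * ((Fintype.card ι : ℝ) *
        ((2 : ℝ) ^ (-((m : ℝ) / (((16 * L ^ 3 : ℕ) : ℝ) * Q))) * (N : ℝ) ^ Fintype.card G)) <
        (N : ℝ) ^ Fintype.card G := by
      have h6 : (0 : ℝ) < (2 : ℝ) ^ (-((m : ℝ) / (((16 * L ^ 3 : ℕ) : ℝ) * Q))) := by positivity
      have h7 : 2 * (Fintype.card ι : ℝ) *
          (2 : ℝ) ^ (-((m : ℝ) / (((16 * L ^ 3 : ℕ) : ℝ) * Q))) < 1 := by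
        have h8 := mul_lt_mul_of_pos_right hι h6
        rw [← Real.rpow_add (by norm_num), add_neg_cancel, Real.rpow_zero] at h8
        exact h8
      have h9 : (0 : ℝ) < (N : ℝ) ^ Fintype.card G := by positivity
      nlinarith [mul_lt_mul_of_pos_right h7 h9]
    have h10 : ((N ^ Fintype.card G : ℕ) : ℝ) = (N : ℝ) ^ Fintype.card G := by push_cast; rfl
    have h11 : 2 * (B.card : ℝ) ≤ (N : ℝ) ^ Fintype.card G := by
      rw [← h10]
      exact_mod_cast hmk
    rw [h10] at h3
    linarith
  obtain ⟨w, hw, hwB⟩ := hex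
  refine ⟨S w, ?_, ?_, ?_⟩
  · intro g hg h hh hgh hc
    have h1 : pick_sel c 0 w g := (mem_filter.mp hg).2
    have h2 : pick_sel c 0 w h := (mem_filter.mp hh).2
    exact h1.2 h hgh.symm hc h2.1
  · have h1 : ¬ 2 * Fintype.card G < N * (univ.filter (fun g => w g = 0)).card := fun h =>
      hwB (mem_filter.mpr ⟨mem_univ _, h⟩)
    have h2 : (S w).card ≤ (univ.filter (fun g => w g = 0)).card := by
      refine card_le_card fun g hg => ?_
      exact mem_filter.mpr ⟨mem_univ _, (mem_filter.mp hg).2.1⟩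
    have h3 : N * (S w).card ≤ 2 * Fintype.card G :=
      (Nat.mul_le_mul_left _ h2).trans (not_lt.mp h1)
    rw [hNdef] at h3
    have h4 : L * (Q * (S w).card) ≤ Fintype.card G := by
      have h5 : 2 * (L * (Q * (S w).card)) ≤ 2 * Fintype.card G := by
        calc 2 * (L * (Q * (S w).card)) = 2 * L * Q * (S w).card := by ring
          _ ≤ _ := h3
      omega
    have h5 : Q * (S w).card ≤ L * (Q * (S w).card) := Nat.le_mul_of_pos_left _ hL1
    have h6 : Fintype.card G ≤ 16 * L ^ 3 * Fintype.card G :=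
      Nat.le_mul_of_pos_left _ (Nat.mul_pos (by norm_num) (pow_pos hL1 3))
    exact (h5.trans h4).trans h6
  · intro i
    have h1 : ¬ q * (S w ∩ T' i).card < (T' i).card := fun h =>
      hw i (mem_filter.mpr ⟨mem_univ _, h⟩)
    have h2 : (S w ∩ T' i).card ≤ (S w ∩ T i).card :=
      card_le_card (inter_subset_inter_left (hT'1 i))
    calc (T i).card ≤ L * L * (T' i).card := hT'3 i
      _ ≤ L * L * (q * (S w ∩ T' i).card) := Nat.mul_le_mul_left _ (not_lt.mp h1)
      _ ≤ L * L * (q * (S w ∩ T i).card) :=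
          Nat.mul_le_mul_left _ (Nat.mul_le_mul_left _ h2)
      _ = L * L * q * (S w ∩ T i).card := by ring
      _ = 16 * L ^ 3 * Q * (S w ∩ T i).card := by rw [hKQ]

end Pool.Agent.EPR
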