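import Pool.Agent.EPR.SumK

/-!
# [EPR SumC] The two lower bounds for sums of tree tensor networks together
-/

set_option autoImplicit false

namespace Pool.Agent.EPR

open Finset Pool.Agent.WD Pool.Agent.EB Pool.Agent.EC
open scoped NNReal

/-- [EPR SumC] from a supply of gadgets to the lower bound for sums of tree tensor networks -/
def St_SumC : Prop :=
  ∀ D Λ : ℕ, ∃ c : ℝ, 0 < c ∧ ∃ n₀ : ℕ, ∀ (n : ℕ) (E A : Finset (Sym2 (Fin n)))
    (Y F X : Finset (Fin n)) (G : Finset (Fin n × Fin n)) (g : Fin n × Fin n → Gad (Fin n))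
    (ctr : Fin n × Fin n → Fin n) (r : Fin n → Bool), n₀ ≤ n → (∀ e ∈ E, ¬ e.IsDiag) →
    Closed E A Y → Supply3 E A Y D F Λ X G g ctr → part A Y r ≠ 0 → SumHardOn c A Y F r

private theorem SumC_comb {c₁ c₂ : ℝ} (h1 : 0 < c₁) (h2 : 0 < c₂) {b s W : ℕ} (hb : 1 ≤ b)
    (hs : 1 ≤ s) (hA : (2 : ℝ) ^ (c₁ * Real.sqrt b) ≤ s + 1 ∨
      (2 : ℝ) ^ (c₁ * Real.sqrt (b / Real.logb 2 (2 * s))) ≤ W + 1)
    (hB : (2 : ℝ) ^ (c₂ * (b / (s : ℝ) ^ 2)) ≤ 2 * s * (W + 1)) :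
    (2 : ℝ) ^ (min c₁ (min (c₂ / 2) (c₁ ^ 2 / 14)) * Real.sqrt b) ≤ s + 1 ∨
      (2 : ℝ) ^ (min c₁ (min (c₂ / 2) (c₁ ^ 2 / 14)) *
        max (b / (s : ℝ) ^ 2) (Real.sqrt (b / Real.logb 2 (2 * s)))) ≤ W + 1 := by
  obtain ⟨c, hc⟩ : ∃ c : ℝ, c = min c₁ (min (c₂ / 2) (c₁ ^ 2 / 14)) := ⟨_, rfl⟩
  rw [← hc]
  have hc1 : c ≤ c₁ := by rw [hc]; exact min_le_left _ _
  have hc2 : c ≤ c₂ / 2 := by rw [hc]; exact (min_le_right _ _).trans (min_le_left _ _)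
  have hc3 : c ≤ c₁ ^ 2 / 14 := by rw [hc]; exact (min_le_right _ _).trans (min_le_right _ _)
  have hb' : (1 : ℝ) ≤ b := by exact_mod_cast hb
  have hs' : (1 : ℝ) ≤ s := by exact_mod_cast hs
  have hb0 : (0 : ℝ) < b := by linarith
  have hs0 : (0 : ℝ) < s := by linarith
  rcases hA with hA | hA
  · left
    refine le_trans ?_ hA
    exact Real.rpow_le_rpow_of_exponent_le (by norm_num)
      (mul_le_mul_of_nonneg_right hc1 (Real.sqrt_nonneg _))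
  right
  obtain ⟨l, hl⟩ : ∃ l : ℝ, l = Real.logb 2 (2 * s) := ⟨_, rfl⟩
  rw [← hl] at hA ⊢
  have h2l : (2 : ℝ) ^ l = 2 * s := by
    rw [hl]
    exact Real.rpow_logb (by norm_num) (by norm_num) (by linarith)
  have hl1 : 1 ≤ l := by
    by_contra hle
    have h3 : (2 : ℝ) ^ l < 2 ^ (1 : ℝ) :=
      Real.rpow_lt_rpow_of_exponent_lt (by norm_num) (not_le.1 hle)
    rw [Real.rpow_one, h2l] at h3
    linarith
  have hl0 : 0 < l := by linarith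
  obtain ⟨ρ, hρ⟩ : ∃ ρ : ℝ, ρ = Real.sqrt (b / l) := ⟨_, rfl⟩
  rw [← hρ] at hA ⊢
  have hρ0 : 0 < ρ := by rw [hρ]; exact Real.sqrt_pos.2 (by positivity)
  have hρ2 : ρ ^ 2 = b / l := by rw [hρ]; exact Real.sq_sqrt (by positivity)
  have hW1 : 1 ≤ W := by
    by_contra hW
    have hW0 : W = 0 := by omega
    rw [hW0, Nat.cast_zero, zero_add] at hA
    have h3 : (1 : ℝ) < 2 ^ (c₁ * ρ) := Real.one_lt_rpow (by norm_num) (by positivity)
    linarith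
  have hW1' : (1 : ℝ) ≤ W := by exact_mod_cast hW1
  obtain ⟨a, ha⟩ : ∃ a : ℝ, a = Real.logb 2 (W + 1) := ⟨_, rfl⟩
  have h2a : (2 : ℝ) ^ a = W + 1 := by
    rw [ha]
    exact Real.rpow_logb (by norm_num) (by norm_num) (by linarith)
  have ha1 : 1 ≤ a := by
    by_contra hle
    have h3 : (2 : ℝ) ^ a < 2 ^ (1 : ℝ) :=
      Real.rpow_lt_rpow_of_exponent_lt (by norm_num) (not_le.1 hle)
    rw [Real.rpow_one, h2a] at h3
    linarith
  rw [← h2a] at hA ⊢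
  rw [← h2a, ← h2l, ← Real.rpow_add (by norm_num)] at hB
  have hA' : c₁ * ρ ≤ a := (Real.rpow_le_rpow_left_iff (by norm_num)).1 hA
  have hB' : c₂ * (b / (s : ℝ) ^ 2) ≤ l + a := (Real.rpow_le_rpow_left_iff (by norm_num)).1 hB
  apply Real.rpow_le_rpow_of_exponent_le (by norm_num)
  have hβ0 : (0 : ℝ) < b / (s : ℝ) ^ 2 := by positivity
  rcases le_total (b / (s : ℝ) ^ 2) ρ with hm | hm
  · rw [max_eq_right hm]
    exact (mul_le_mul_of_nonneg_right hc1 hρ0.le).trans hA'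
  rw [max_eq_left hm]
  rcases le_or_gt l a with hla | hla
  · have h3 : c * (b / (s : ℝ) ^ 2) ≤ c₂ / 2 * (b / (s : ℝ) ^ 2) :=
      mul_le_mul_of_nonneg_right hc2 hβ0.le
    linarith
  · -- `c₁ ^ 2 * b < l ^ 3 ≤ 13.5 * s ^ 2`
    have h3 : c₁ * ρ < l := by linarith
    have h4 : (c₁ * ρ) ^ 2 < l ^ 2 := pow_lt_pow_left₀ h3 (by positivity) (by norm_num)
    rw [mul_pow, hρ2, ← mul_div_assoc, div_lt_iff₀ hl0] at h4
    have h5 : 2 * l / 3 < (2 : ℝ) ^ (2 * l / 3) := by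
      rcases le_or_gt 1 (2 * l / 3) with h6 | h6
      · exact SumH_lt_two h6
      · exact lt_of_lt_of_le h6 (Real.one_le_rpow (by norm_num) (by positivity))
    have h6 : (2 * l / 3) ^ 3 < (2 * (s : ℝ)) ^ 2 := by
      calc (2 * l / 3) ^ 3 < ((2 : ℝ) ^ (2 * l / 3)) ^ 3 :=
            pow_lt_pow_left₀ h5 (by positivity) (by norm_num)
        _ = (2 : ℝ) ^ (l * 2) := by
            rw [← Real.rpow_natCast, ← Real.rpow_mul (by norm_num)]
            congr 1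
            push_cast
            ring
        _ = (2 * (s : ℝ)) ^ 2 := by
            rw [Real.rpow_mul (by norm_num), h2l]
            exact Real.rpow_two _
    have h7 : c₁ ^ 2 * b < 14 * s ^ 2 := by
      have h8 : (2 * l / 3) ^ 3 = 8 / 27 * (l ^ 2 * l) := by ring
      have h9 : (2 * (s : ℝ)) ^ 2 = 4 * s ^ 2 := by ring
      rw [h8, h9] at h6
      have h10 : (0 : ℝ) < (s : ℝ) ^ 2 := by positivity
      linarith
    have h8 : c₁ ^ 2 / 14 * (b / (s : ℝ) ^ 2) < 1 := by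
      rw [div_mul_div_comm, div_lt_one (by positivity)]
      exact h7
    have h9 : c * (b / (s : ℝ) ^ 2) ≤ c₁ ^ 2 / 14 * (b / (s : ℝ) ^ 2) :=
      mul_le_mul_of_nonneg_right hc3 hβ0.le
    linarith

theorem thm_SumC (hH : St_SumH) (hK : St_SumK) : St_SumC := by
  intro D Λ
  obtain ⟨c₁, hc₁, n₀, hH⟩ := hH D Λ
  obtain ⟨c₂, hc₂, hK⟩ := hK D Λ
  refine ⟨min c₁ (min (c₂ / 2) (c₁ ^ 2 / 14)), lt_min hc₁ (lt_min (by positivity) (by positivity)),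
    n₀, ?_⟩
  intro n E A Y F X G g ctr r hn hloop hcl hsup hr b s W h hb hbn hnet hsum
  obtain ⟨hs, h2⟩ := hK n E A Y F X G g ctr r hloop hcl hsup hr b s W h hb hbn hnet hsum
  exact ⟨hs, SumC_comb hc₁ hc₂ hb hs
    (hH n E A Y F X G g ctr r hn hloop hcl hsup hr b s W h hb hbn hnet hsum) h2⟩

end Pool.Agent.EPR
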