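import Pool.Agent.EPR.St
import Pool.Agent.EC.SumH

/-!
# From a supply of gadgets to the lower bound for sums of tree tensor networks, with precision
-/

set_option autoImplicit false

namespace Pool.Agent.EPR

open Finset Pool.Agent.WD Pool.Agent.EB Pool.Agent.EC
open scoped NNReal

theorem SumH_cuts {D V : Type} [DecidableEq V] (W : ℕ) (h : (V → D) → ℝ) (t : VTree V)
    (hc : CutsR W h t) : Pool.Agent.EC.CutsR W h t := by
  induction t with
  | leaf v => exact hc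
  | node l r ihl ihr => exact ⟨hc.1, ihl hc.2.1, ihr hc.2.2⟩

/-- the number of the gadgets -/
theorem SumH_gcard {Λ n D : ℕ} {E A : Finset (Sym2 (Fin n))} {Y F X : Finset (Fin n)}
    {G : Finset (Fin n × Fin n)} {g : Fin n × Fin n → Gad (Fin n)}
    {ctr : Fin n × Fin n → Fin n} (hsup : Supply3 E A Y D F Λ X G g ctr)
    (hp : ∀ e ∈ G, e.1 ∈ (g e).R) : G.card ≤ Λ * X.card := by
  classical
  have h1 : G.card ≤ Λ * (G.image Prod.fst).card := by
    apply card_le_mul_card_image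
    intro a ha
    obtain ⟨e, he, rfl⟩ := mem_image.1 ha
    refine (card_le_card ?_).trans (hsup.conf e he)
    intro f hf
    obtain ⟨hf1, hf2⟩ := mem_filter.1 hf
    refine mem_filter.2 ⟨hf1, Or.inl fun hd => ?_⟩
    refine (disjoint_left.1 hd) (hp e he) ?_
    rw [← hf2]
    exact hp f hf1
  refine h1.trans (Nat.mul_le_mul_left _ (card_le_card ?_))
  intro a ha
  obtain ⟨e, he, rfl⟩ := mem_image.1 ha
  exact (hsup.core e he).1

/-- the choice of gadgets without conflicts -/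
theorem SumH_pickP {Λ K : ℕ}
    (hPick : ∀ (G : Type) [Fintype G] [DecidableEq G] (c : G → G → Prop)
      [DecidableRel c], (∀ g h, c g h → c h g) → (∀ g, (univ.filter (c g)).card ≤ Λ) →
      ∀ (Q : ℕ), 1 ≤ Q → ∀ (ι : Type) [Fintype ι] (T : ι → Finset G) (m : ℕ),
        (∀ i, m ≤ (T i).card) → 2 * (Fintype.card ι : ℝ) < 2 ^ ((m : ℝ) / (K * Q)) →
        ∃ J : Finset G, (∀ g ∈ J, ∀ h ∈ J, g ≠ h → ¬ c g h) ∧
          Q * J.card ≤ K * Fintype.card G ∧ ∀ i, (T i).card ≤ K * Q * (J ∩ T i).card)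
    {n D : ℕ} {E A : Finset (Sym2 (Fin n))} {Y F X : Finset (Fin n)}
    {G : Finset (Fin n × Fin n)} {g : Fin n × Fin n → Gad (Fin n)}
    {ctr : Fin n × Fin n → Fin n} (hsup : Supply3 E A Y D F Λ X G g ctr) {ι : Type} [Fintype ι]
    (P : ι → Finset (Fin n)) (L Q : ℕ) (hQ : 1 ≤ Q)
    (hP : ∀ i, L ≤ (P i ∩ X).card ∧ Λ * (P i ∩ X).card ≤ n)
    (hι : 2 * (Fintype.card ι : ℝ) < 2 ^ ((L : ℝ) / (K * Q))) :
    ∃ J : Finset (Fin n × Fin n), J ⊆ G ∧
      (∀ e ∈ J, ∀ f ∈ J, e ≠ f → Disjoint (g e).R (g f).R ∧ ctr e ≠ ctr f ∧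
        s(ctr e, ctr f) ∉ E) ∧ Q * J.card ≤ K * G.card ∧
      ∀ i, L ≤ K * Q *
        (J.filter fun e => (e.1 ∈ P i ∧ e.2 ∉ P i) ∨ (e.1 ∉ P i ∧ e.2 ∈ P i)).card := by
  classical
  let cf : {e // e ∈ G} → {e // e ∈ G} → Prop := fun e f =>
    ¬ Disjoint (g e.1).R (g f.1).R ∨ ctr e.1 = ctr f.1 ∨ s(ctr e.1, ctr f.1) ∈ E
  let T : ι → Finset {e // e ∈ G} := fun i => univ.filter fun e =>
    (e.1.1 ∈ P i ∧ e.1.2 ∉ P i) ∨ (e.1.1 ∉ P i ∧ e.1.2 ∈ P i)
  have hT : ∀ i, L ≤ (T i).card := by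
    intro i
    have h1 : (P i ∩ X).card ≤ (G.filter fun e => (e.1 ∈ P i ∩ X ∧ e.2 ∉ P i ∩ X) ∨
        (e.1 ∉ P i ∩ X ∧ e.2 ∈ P i ∩ X)).card :=
      hsup.cross _ inter_subset_right (hP i).2
    refine (hP i).1.trans (h1.trans ?_)
    apply card_le_card_of_surjOn Subtype.val
    intro e he
    obtain ⟨heG, he⟩ := mem_filter.1 he
    obtain ⟨hX1, hX2, -, -⟩ := hsup.core e heG
    refine ⟨⟨e, heG⟩, ?_, rfl⟩
    refine mem_coe.2 (mem_filter.2 ⟨mem_univ _, ?_⟩)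
    rcases he with ⟨h2, h3⟩ | ⟨h2, h3⟩
    · exact Or.inl ⟨(mem_inter.1 h2).1, fun h4 => h3 (mem_inter.2 ⟨h4, hX2⟩)⟩
    · exact Or.inr ⟨fun h4 => h2 (mem_inter.2 ⟨h4, hX1⟩), (mem_inter.1 h3).1⟩
  obtain ⟨J', hJ1, hJ0, hJ2⟩ := hPick {e // e ∈ G} cf (by
      rintro e f (h | h | h)
      · exact Or.inl fun h' => h h'.symm
      · exact Or.inr (Or.inl h.symm)
      · exact Or.inr (Or.inr (by rw [Sym2.eq_swap]; exact h))) (by
      intro e
      refine le_trans ?_ (hsup.conf e.1 e.2)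
      apply card_le_card_of_injOn Subtype.val
      · intro f hf
        exact mem_filter.2 ⟨f.2, (mem_filter.1 hf).2⟩
      · exact fun f _ f' _ h => Subtype.ext h) Q hQ ι T L hT hι
  refine ⟨J'.map ⟨Subtype.val, Subtype.val_injective⟩, ?_, ?_, ?_, ?_⟩
  · intro e he
    obtain ⟨e', -, rfl⟩ := mem_map.1 he
    exact e'.2
  · intro e he f hf hef
    obtain ⟨e', he', rfl⟩ := mem_map.1 he
    obtain ⟨f', hf', rfl⟩ := mem_map.1 hf
    have h1 := hJ1 e' he' f' hf' (fun h => hef (congrArg _ h))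
    change ¬ (¬ Disjoint (g e'.1).R (g f'.1).R ∨ ctr e'.1 = ctr f'.1 ∨
      s(ctr e'.1, ctr f'.1) ∈ E) at h1
    push Not at h1
    exact h1
  · rw [card_map]
    rwa [Fintype.card_coe] at hJ0
  · intro i
    refine (hT i).trans ((hJ2 i).trans (Nat.mul_le_mul_left _ ?_))
    apply card_le_card_of_injOn Subtype.val
    · intro e he
      obtain ⟨h3, h4⟩ := mem_inter.1 he
      exact mem_filter.2 ⟨mem_map.2 ⟨e, h3, rfl⟩, (mem_filter.1 h4).2⟩
    · exact fun f _ f' _ h => Subtype.ext h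

/-- the choice of the orientation -/
private theorem SumH_oriP {c₁ : ℝ}
    (hOri : ∀ (I V : Type) [Fintype I] [DecidableEq I] [DecidableEq V]
      (p q : I → V) (k m : ℕ) (P : Fin k → Finset V), 1 ≤ m →
      (∀ i j, i ≠ j → Disjoint (P i) (P j)) →
      (∀ j, m ≤ (univ.filter fun i =>
          (p i ∈ P j ∧ q i ∉ P j) ∨ (p i ∉ P j ∧ q i ∈ P j)).card) →
      ((univ.filter fun o : I → Bool =>
          ((∑ j, (imb (mix o p q) (mix o q p) (P j)).natAbs : ℕ) : ℝ) <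
            c₁ * k * Real.sqrt m).card : ℝ) ≤ 2 ^ (-(c₁ * k)) * 2 ^ Fintype.card I)
    {I V : Type} [Fintype I] [DecidableEq I] [DecidableEq V] (p q : I → V) {s : ℕ}
    (k : Fin s → ℕ) (m : ℕ) (P : ∀ i, Fin (k i) → Finset V) (hm : 1 ≤ m)
    (hPd : ∀ i j j', j ≠ j' → Disjoint (P i j) (P i j'))
    (hcr : ∀ i j, m ≤ (univ.filter fun e =>
          (p e ∈ P i j ∧ q e ∉ P i j) ∨ (p e ∉ P i j ∧ q e ∈ P i j)).card)
    {β : ℝ} (hβ : ∀ i, (2 : ℝ) ^ (-(c₁ * k i)) ≤ β) (hs : s * β < 1) :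
    ∃ o : I → Bool, ∀ i, c₁ * k i * Real.sqrt m ≤
      ((∑ j, (imb (mix o p q) (mix o q p) (P i j)).natAbs : ℕ) : ℝ) := by
  classical
  by_contra hcon
  push Not at hcon
  let Bd : Fin s → Finset (I → Bool) := fun i => univ.filter fun o : I → Bool =>
    ((∑ j, (imb (mix o p q) (mix o q p) (P i j)).natAbs : ℕ) : ℝ) < c₁ * k i * Real.sqrt m
  have h1 : ∀ i, ((Bd i).card : ℝ) ≤ β * 2 ^ Fintype.card I := fun i =>
    (hOri I V p q (k i) m (P i) hm (hPd i) (hcr i)).trans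
      (mul_le_mul_of_nonneg_right (hβ i) (by positivity))
  have h2 : (univ : Finset (I → Bool)) ⊆ univ.biUnion Bd := by
    intro o _
    obtain ⟨i, hi⟩ := hcon o
    exact mem_biUnion.2 ⟨i, mem_univ _, mem_filter.2 ⟨mem_univ _, hi⟩⟩
  have h3 := (card_le_card h2).trans card_biUnion_le
  rw [card_univ, Fintype.card_fun, Fintype.card_bool] at h3
  have h4 : ((2 ^ Fintype.card I : ℕ) : ℝ) ≤ ∑ i, ((Bd i).card : ℝ) := by exact_mod_cast h3
  have h5 : ∑ i, ((Bd i).card : ℝ) ≤ ∑ _i : Fin s, β * 2 ^ Fintype.card I :=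
    sum_le_sum fun i _ => h1 i
  rw [sum_const, card_univ, Fintype.card_fin, nsmul_eq_mul] at h5
  push_cast at h4
  have h6 : (0 : ℝ) < 2 ^ Fintype.card I := by positivity
  have h7 : (s : ℝ) * (β * 2 ^ Fintype.card I) < 1 * 2 ^ Fintype.card I := by
    rw [← mul_assoc]
    exact mul_lt_mul_of_pos_right hs h6
  linarith

/-- the final estimate -/
private theorem SumH_finP {c₁ τ l κ : ℝ} {M s W : ℕ} {k R S : Fin s → ℕ} (hτ : 1 ≤ τ)
    (hc₁ : 0 < c₁) (hk : ∀ i, κ ≤ k i) (hl : 4 * l ≤ c₁ * κ)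
    (hs : (s : ℝ) < 2 ^ l) (hW : (W : ℝ) ≤ 2 ^ (c₁ / 4 * τ))
    (hS : ∀ i, c₁ * k i * τ ≤ (S i : ℝ))
    (hR : ∀ i, 2 * R i + S i ≤ 2 * M) (hsum : 2 ^ M ≤ ∑ i, W ^ k i * 2 ^ R i) : False := by
  have hs0 : (0 : ℝ) ≤ s := Nat.cast_nonneg _
  have hW0 : (0 : ℝ) ≤ W := Nat.cast_nonneg _
  have h1 : ((2 ^ M : ℕ) : ℝ) ≤ ∑ i, ((W : ℝ) ^ k i * 2 ^ R i) := by exact_mod_cast hsum
  have h2 : ∀ i, (W : ℝ) ^ k i * 2 ^ R i ≤ 2 ^ M * (2 : ℝ) ^ (-l) := by
    intro i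
    have hk0 : (0 : ℝ) ≤ k i := Nat.cast_nonneg _
    have e1 : (W : ℝ) ^ k i ≤ (2 : ℝ) ^ (c₁ / 4 * τ * k i) := by
      calc (W : ℝ) ^ k i ≤ ((2 : ℝ) ^ (c₁ / 4 * τ)) ^ k i := pow_le_pow_left₀ hW0 hW _
        _ = (2 : ℝ) ^ (c₁ / 4 * τ * k i) := by
            rw [← Real.rpow_natCast, ← Real.rpow_mul (by norm_num)]
    have e2 : (2 : ℝ) ^ R i ≤ (2 : ℝ) ^ ((M : ℝ) - c₁ / 2 * τ * k i) := by
      rw [← Real.rpow_natCast]
      apply Real.rpow_le_rpow_of_exponent_le (by norm_num)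
      have e3 : (2 : ℝ) * R i + S i ≤ 2 * M := by exact_mod_cast hR i
      have e5 := hS i
      nlinarith
    calc (W : ℝ) ^ k i * 2 ^ R i
        ≤ (2 : ℝ) ^ (c₁ / 4 * τ * k i) * (2 : ℝ) ^ ((M : ℝ) - c₁ / 2 * τ * k i) :=
          mul_le_mul e1 e2 (by positivity) (by positivity)
      _ = (2 : ℝ) ^ (c₁ / 4 * τ * k i + ((M : ℝ) - c₁ / 2 * τ * k i)) := by
          rw [← Real.rpow_add (by norm_num)]
      _ ≤ (2 : ℝ) ^ ((M : ℝ) + -l) := by
          apply Real.rpow_le_rpow_of_exponent_le (by norm_num)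
          have e6 : κ * 1 ≤ k i * τ := mul_le_mul (hk i) hτ zero_le_one hk0
          have e7 : c₁ * (κ * 1) ≤ c₁ * (k i * τ) := mul_le_mul_of_nonneg_left e6 hc₁.le
          nlinarith
      _ = 2 ^ M * (2 : ℝ) ^ (-l) := by
          rw [Real.rpow_add (by norm_num), Real.rpow_natCast]
  have h3 : ∑ i, ((W : ℝ) ^ k i * 2 ^ R i) ≤ ∑ _i : Fin s, 2 ^ M * (2 : ℝ) ^ (-l) :=
    sum_le_sum fun i _ => h2 i
  rw [sum_const, card_univ, Fintype.card_fin, nsmul_eq_mul] at h3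
  have h5 : (s : ℝ) * (2 : ℝ) ^ (-l) < 1 := by
    rw [Real.rpow_neg (by norm_num)]
    rw [← div_eq_mul_inv, div_lt_one (by positivity)]
    exact hs
  push_cast at h1
  have h6 : (0 : ℝ) < 2 ^ M := by positivity
  have h7 : (s : ℝ) * (2 ^ M * (2 : ℝ) ^ (-l)) < 2 ^ M := by
    calc (s : ℝ) * (2 ^ M * (2 : ℝ) ^ (-l))
        = 2 ^ M * (s * (2 : ℝ) ^ (-l)) := by ring
      _ < 2 ^ M * 1 := mul_lt_mul_of_pos_left h5 h6
      _ = 2 ^ M := mul_one _
  linarith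

theorem SumH_lt_two {x : ℝ} (hx : 1 ≤ x) : x < 2 ^ x := by
  have h2 : 1 + x * 1 ≤ (1 + 1 : ℝ) ^ x :=
    one_add_mul_self_le_rpow_one_add (by norm_num) hx
  have : (1 + 1 : ℝ) = 2 := by norm_num
  rw [this] at h2
  linarith

theorem thm_SumH (hPick : St_Pick) (hOri : St_Ori) (hTree : St_Tree) (hRank : St_Rank)
    (hLin : St_Lin) (hFull : St_Full) : St_SumH := by
  classical
  intro D Λ
  obtain ⟨K, hK1, hPick⟩ := hPick Λ
  obtain ⟨c₁, hc₁, hOri⟩ := hOri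
  obtain ⟨KF, hFull⟩ := hFull D
  have hΛ0 : (0 : ℝ) ≤ Λ := Nat.cast_nonneg _
  have hKF0 : (0 : ℝ) ≤ KF := Nat.cast_nonneg _
  have hK1' : (1 : ℝ) ≤ K := by exact_mod_cast hK1
  -- constants
  obtain ⟨K1, hK1d⟩ : ∃ K1 : ℝ, K1 = Λ + 4 / c₁ + 1 := ⟨_, rfl⟩
  have h4c : 0 < 4 / c₁ := by positivity
  have hK1a : 1 ≤ K1 := by linarith
  have hK1b : (Λ : ℝ) ≤ K1 := by linarith
  have hK1c : 4 ≤ c₁ * K1 := by
    have h1 : 4 / c₁ ≤ K1 := by linarith
    rw [div_le_iff₀ hc₁] at h1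
    linarith
  obtain ⟨K2, hK2d⟩ : ∃ K2 : ℝ, K2 = K * (KF + 1) * (Λ + 1) := ⟨_, rfl⟩
  have hK2a : 1 ≤ K2 := by
    rw [hK2d]
    exact one_le_mul_of_one_le_of_one_le
      (one_le_mul_of_one_le_of_one_le hK1' (by linarith)) (by linarith)
  have hK2b : (KF : ℝ) * (K * Λ) ≤ K2 := by
    rw [hK2d]
    have h1 : (0 : ℝ) ≤ K * KF + K * Λ + K := by positivity
    have h2 : (K : ℝ) * (KF + 1) * (Λ + 1) = KF * (K * Λ) + (K * KF + K * Λ + K) := by ring
    linarith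
  obtain ⟨C, hCd⟩ : ∃ C : ℝ, C = 32 * K1 * (Λ + 1) * K * K2 := ⟨_, rfl⟩
  have hKK2 : 1 ≤ K * K2 := one_le_mul_of_one_le_of_one_le hK1' hK2a
  have hCa : Λ + 1 ≤ C := by
    rw [hCd]
    have h1 : 1 ≤ 32 * K1 * (K * K2) :=
      one_le_mul_of_one_le_of_one_le (by linarith) hKK2
    have h2 : 32 * K1 * (Λ + 1) * K * K2 = (Λ + 1) * (32 * K1 * (K * K2)) := by ring
    rw [h2]
    have h3 : (0 : ℝ) ≤ Λ + 1 := by linarith
    exact le_mul_of_one_le_right h3 h1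
  have hC1 : 1 ≤ C := by linarith
  have hC0 : 0 < C := by linarith
  have hK10 : 0 < K1 := by linarith
  have hΛ1 : (0 : ℝ) < Λ + 1 := by linarith
  have hK20 : 0 < K2 := by linarith
  have hKr0 : (0 : ℝ) < K := by linarith
  refine ⟨min (1 / (24 * K1 * C)) (c₁ / (4 * C)), lt_min (by positivity) (by positivity), 0, ?_⟩
  intro n E A Y F X G g ctr r _ hloop hcl hsup hr b s W h hb1 hbn hnet hsum
  by_contra hcon
  push Not at hcon
  obtain ⟨hcon1, hcon2⟩ := hcon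
  obtain ⟨c, hc⟩ : ∃ c : ℝ, c = min (1 / (24 * K1 * C)) (c₁ / (4 * C)) := ⟨_, rfl⟩
  rw [← hc] at hcon1 hcon2
  have hc0 : 0 < c := by rw [hc]; exact lt_min (by positivity) (by positivity)
  have hcc1 : c * (24 * K1 * C) ≤ 1 := by
    have h1 : c ≤ 1 / (24 * K1 * C) := by rw [hc]; exact min_le_left _ _
    rwa [le_div_iff₀ (by positivity)] at h1
  have hcc2 : c * (4 * C) ≤ c₁ := by
    have h1 : c ≤ c₁ / (4 * C) := by rw [hc]; exact min_le_right _ _
    rwa [le_div_iff₀ (by positivity)] at h1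
  -- the numbers `s`, `b`, `l`
  have hs1 : 1 ≤ s := by
    by_contra hs
    have hs0 : s = 0 := by omega
    subst hs0
    have h1 := hsum r fun _ _ => rfl
    have h2 : ∑ i : Fin 0, h i r = 0 := by simp
    rw [h2, sub_zero] at h1
    have h3 : (0 : ℝ) < part A Y r := by
      have h4 : 0 < part A Y r := pos_iff_ne_zero.2 hr
      exact_mod_cast h4
    rw [abs_of_pos h3, le_div_iff₀ (by positivity)] at h1
    have h5 : (2 : ℝ) ^ 1 ≤ 2 ^ b := pow_le_pow_right₀ (by norm_num) hb1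
    have h6 := mul_le_mul_of_nonneg_left h5 h3.le
    linarith
  have hs1' : (1 : ℝ) ≤ s := by exact_mod_cast hs1
  have hb1' : (1 : ℝ) ≤ b := by exact_mod_cast hb1
  have hbn' : (b : ℝ) ≤ n := by exact_mod_cast hbn
  obtain ⟨β, hβ⟩ : ∃ β : ℝ, β = Real.sqrt b := ⟨_, rfl⟩
  rw [← hβ] at hcon1
  have hβ0 : 0 ≤ β := by rw [hβ]; exact Real.sqrt_nonneg _
  have hβ2 : β ^ 2 = b := by rw [hβ]; exact Real.sq_sqrt (by linarith)
  have hcβ : 1 < c * β := by
    by_contra hle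
    have h1 : (2 : ℝ) ^ (c * β) ≤ 2 ^ (1 : ℝ) :=
      Real.rpow_le_rpow_of_exponent_le (by norm_num) (not_lt.1 hle)
    rw [Real.rpow_one] at h1
    linarith
  obtain ⟨l, hl⟩ : ∃ l : ℝ, l = Real.logb 2 (2 * s) := ⟨_, rfl⟩
  rw [← hl] at hcon2
  have h2l : (2 : ℝ) ^ l = 2 * s := by
    rw [hl]
    exact Real.rpow_logb (by norm_num) (by norm_num) (by linarith)
  have hl1 : 1 ≤ l := by
    by_contra hle
    have h1 : (2 : ℝ) ^ l < 2 ^ (1 : ℝ) :=
      Real.rpow_lt_rpow_of_exponent_lt (by norm_num) (not_le.1 hle)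
    rw [Real.rpow_one, h2l] at h1
    linarith
  have hl2 : l < 2 * (c * β) := by
    have h1 : (2 : ℝ) ^ l < 2 ^ (1 + c * β) := by
      rw [h2l, Real.rpow_add (by norm_num), Real.rpow_one]
      linarith
    have h2 := (Real.rpow_lt_rpow_left_iff (by norm_num : (1 : ℝ) < 2)).1 h1
    linarith
  have hl0 : 0 < l := by linarith
  have hkey : 144 * K1 ^ 2 * C ^ 2 * l ^ 2 < b := by
    have h1 : 24 * K1 * C * l < 2 * β := by
      have h2 : 24 * K1 * C * l < 24 * K1 * C * (2 * (c * β)) :=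
        mul_lt_mul_of_pos_left hl2 (by positivity)
      have h3 : 24 * K1 * C * (2 * (c * β)) = c * (24 * K1 * C) * (2 * β) := by ring
      have h4 : c * (24 * K1 * C) * (2 * β) ≤ 1 * (2 * β) :=
        mul_le_mul_of_nonneg_right hcc1 (by linarith)
      linarith
    have h5 : (24 * K1 * C * l) ^ 2 < (2 * β) ^ 2 :=
      pow_lt_pow_left₀ h1 (by positivity) (by norm_num)
    have h6 : (2 * β) ^ 2 = 4 * b := by rw [mul_pow, hβ2]; norm_num
    rw [h6] at h5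
    have h7 : (24 * K1 * C * l) ^ 2 = 4 * (144 * K1 ^ 2 * C ^ 2 * l ^ 2) := by ring
    linarith
  -- the number `k`
  obtain ⟨k₀, hk₀⟩ : ∃ k₀ : ℕ, k₀ = ⌈K1 * l⌉₊ := ⟨_, rfl⟩
  have hk₀1 : K1 * l ≤ k₀ := by rw [hk₀]; exact Nat.le_ceil _
  have hK1l : 1 ≤ K1 * l := one_le_mul_of_one_le_of_one_le hK1a hl1
  have hk₀2 : (k₀ : ℝ) ≤ 2 * (K1 * l) := by
    have h1 : (k₀ : ℝ) < K1 * l + 1 := by rw [hk₀]; exact Nat.ceil_lt_add_one (by positivity)
    linarith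
  have hk₀0 : 1 ≤ k₀ := by
    have h1 : (1 : ℝ) ≤ k₀ := by linarith
    exact_mod_cast h1
  have hk₀Λ : Λ ≤ k₀ := by
    have h1 : (Λ : ℝ) ≤ k₀ := by
      have h2 : K1 ≤ K1 * l := le_mul_of_one_le_right hK10.le hl1
      linarith
    exact_mod_cast h1
  -- the number `L`
  have hX1 : (n : ℝ) ≤ (Λ + 1) * X.card := by
    have h1 : (n : ℝ) ≤ Λ * X.card := by exact_mod_cast hsup.big
    have h2 : (0 : ℝ) ≤ X.card := Nat.cast_nonneg _
    linarith
  have hX2 : 4 * k₀ ≤ X.card := by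
    have h1 : (Λ + 1) * (8 * (K1 * l)) ≤ (Λ + 1) * X.card := by
      have h2 : (Λ + 1) * (8 * (K1 * l)) ≤ 144 * K1 ^ 2 * C ^ 2 * l ^ 2 := by
        have h3 : (Λ + 1) * 1 ≤ C * C := mul_le_mul hCa hC1 (by norm_num) hC0.le
        have h4 : 8 * (K1 * l) ≤ 144 * ((K1 * l) * (K1 * l)) := by
          have h7 : K1 * l ≤ (K1 * l) * (K1 * l) := le_mul_of_one_le_right (by linarith) hK1l
          linarith
        calc (Λ + 1) * (8 * (K1 * l)) ≤ (C * C) * (144 * ((K1 * l) * (K1 * l))) :=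
              mul_le_mul (by linarith) h4 (by positivity) (by positivity)
          _ = _ := by ring
      linarith
    have h5 : 8 * (K1 * l) ≤ X.card := le_of_mul_le_mul_left h1 hΛ1
    have h6 : (4 : ℝ) * k₀ ≤ X.card := by linarith
    exact_mod_cast h6
  obtain ⟨L, hL⟩ : ∃ L : ℕ, L = X.card / (4 * k₀) := ⟨_, rfl⟩
  have h4k : 0 < 4 * k₀ := by omega
  have hL1 : 1 ≤ L := by rw [hL]; exact (Nat.one_le_div_iff h4k).2 hX2
  have hL2 : 4 * k₀ * L ≤ X.card := by rw [hL]; exact Nat.mul_div_le _ _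
  have hL3 : X.card < 8 * k₀ * L := by
    have h1 : X.card < 4 * k₀ * (L + 1) := by rw [hL]; exact Nat.lt_mul_div_succ _ h4k
    have h2 : 4 * k₀ * 1 ≤ 4 * k₀ * L := Nat.mul_le_mul_left _ hL1
    have h3 : 4 * k₀ * (L + 1) = 4 * k₀ * L + 4 * k₀ * 1 := by ring
    have h4 : 8 * k₀ * L = 4 * k₀ * L + 4 * k₀ * L := by ring
    omega
  have hXn : X.card ≤ n := by
    have h1 := card_le_card (subset_univ X)
    rwa [card_univ, Fintype.card_fin] at h1
  have hn1 : 1 ≤ n := by omega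
  have hn0 : (0 : ℝ) < n := by exact_mod_cast hn1
  -- the pieces
  choose τ hτ hcuts using hnet
  have hT : ∀ i : Fin s, ∃ (k : ℕ) (P : Fin k → Finset (Fin n))
      (f : Fin (W ^ k) → Fin k → (Fin n → Bool) → ℝ) (f0 : Fin (W ^ k) → (Fin n → Bool) → ℝ),
      (∀ i j, i ≠ j → Disjoint (P i) (P j)) ∧
      (∀ j, L ≤ (P j ∩ X).card ∧ (P j ∩ X).card ≤ 2 * L) ∧
      X.card ≤ 2 * L * k + L ∧
      (∀ t j x y, (∀ v ∈ P j, x v = y v) → f t j x = f t j y) ∧
      (∀ t x y, (∀ v, (∀ j, v ∉ P j) → x v = y v) → f0 t x = f0 t y) ∧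
      ∀ x, h i x = ∑ t, f0 t x * ∏ j, f t j x := by
    intro i
    obtain ⟨k, P, h1, h2, h3, h4⟩ := hTree (Fin n) (τ i) X L (hτ i) hL1
    obtain ⟨f, f0, h5, h6, h7⟩ := h4 W (h i) (SumH_cuts _ _ _ (hcuts i))
    exact ⟨k, P, f, f0, h1, h2, h3, h5, h6, h7⟩
  choose k P f f0 hPd hPX hXk hf hf0 hh using hT
  have hk8 : ∀ i, k i ≤ 8 * k₀ := by
    intro i
    have h1 : k i * L ≤ X.card := by
      calc k i * L = ∑ _j : Fin (k i), L := by
            rw [sum_const, card_univ, Fintype.card_fin, smul_eq_mul]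
        _ ≤ ∑ j, (P i j ∩ X).card := sum_le_sum fun j _ => (hPX i j).1
        _ = (univ.biUnion fun j => P i j ∩ X).card := by
            rw [card_biUnion]
            intro j _ j' _ hj
            exact (hPd i j j' hj).mono inter_subset_left inter_subset_left
        _ ≤ X.card := card_le_card (by
            intro v hv
            obtain ⟨j, -, hj⟩ := mem_biUnion.1 hv
            exact (mem_inter.1 hj).2)
    have h2 : k i * L ≤ 8 * k₀ * L := by omega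
    exact Nat.le_of_mul_le_mul_right h2 hL1
  have hkk : ∀ i, k₀ ≤ k i := by
    intro i
    have h1 : 4 * k₀ * L ≤ (2 * k i + 1) * L := by
      have h2 : (2 * k i + 1) * L = 2 * L * k i + L := by ring
      rw [h2]
      exact hL2.trans (hXk i)
    have h3 : 4 * k₀ ≤ 2 * k i + 1 := Nat.le_of_mul_le_mul_right h1 hL1
    omega
  -- the gadgets
  have hGp : ∀ e ∈ G, e.1 ∈ (g e).R := by
    intro e he
    rw [← (hsup.core e he).2.2.1]
    rcases hsup.typ with h1 | h1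
    · exact (h1 e he).pR
    · exact (h1 e he).pR
  have hGq : ∀ e ∈ G, e.2 ∈ (g e).R := by
    intro e he
    rw [← (hsup.core e he).2.2.2]
    rcases hsup.typ with h1 | h1
    · exact (h1 e he).qR
    · exact (h1 e he).qR
  have hGpq : ∀ e ∈ G, (g e).p ≠ (g e).q := by
    intro e he
    rcases hsup.typ with h1 | h1
    · exact (h1 e he).pq
    · exact (h1 e he).pq
  have hGC : ∀ e ∈ G, (g e).C ⊆ (g e).R := by
    intro e he
    rcases hsup.typ with h1 | h1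
    · exact (h1 e he).CR
    · rw [(h1 e he).C0]
      exact empty_subset _
  have hGcard : G.card ≤ Λ * X.card := SumH_gcard hsup hGp
  -- the density
  obtain ⟨Q, hQ⟩ : ∃ Q : ℕ, Q = ⌈K2 * n / b⌉₊ := ⟨_, rfl⟩
  have hb0 : (0 : ℝ) < b := by linarith
  have hK2n : 1 ≤ K2 * n / b := by
    rw [le_div_iff₀ hb0]
    have h1 : (n : ℝ) ≤ K2 * n := le_mul_of_one_le_left hn0.le hK2a
    linarith
  have hQ1 : K2 * n / b ≤ Q := by rw [hQ]; exact Nat.le_ceil _
  have hQ2 : (Q : ℝ) ≤ 2 * (K2 * n / b) := by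
    have h1 : (Q : ℝ) < K2 * n / b + 1 := by rw [hQ]; exact Nat.ceil_lt_add_one (by positivity)
    linarith
  have hQ0 : (0 : ℝ) < Q := by linarith
  have hQ0' : 1 ≤ Q := by
    have h1 : 0 < Q := by exact_mod_cast hQ0
    omega
  obtain ⟨ω, hω⟩ : ∃ ω : ℝ, ω = b / (C * l) := ⟨_, rfl⟩
  have hω0 : 0 < ω := by rw [hω]; positivity
  have hLω : ω ≤ (L : ℝ) / (K * Q) := by
    rw [hω, div_le_div_iff₀ (by positivity) (by positivity)]
    have h1 : (X.card : ℝ) ≤ 8 * k₀ * L := by exact_mod_cast hL3.le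
    have hL0 : (0 : ℝ) ≤ L := Nat.cast_nonneg _
    have h2 : (n : ℝ) ≤ (Λ + 1) * (16 * (K1 * l) * L) := by
      refine hX1.trans (mul_le_mul_of_nonneg_left (h1.trans ?_) hΛ1.le)
      apply mul_le_mul_of_nonneg_right _ hL0
      linarith
    have h3 : b * (Q : ℝ) ≤ 2 * K2 * n := by
      have h4 : b * (Q : ℝ) ≤ b * (2 * (K2 * n / b)) := mul_le_mul_of_nonneg_left hQ2 hb0.le
      have h5 : b * (2 * (K2 * n / b)) = 2 * K2 * n := by field_simp
      linarith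
    calc (b : ℝ) * (K * Q) = K * (b * Q) := by ring
      _ ≤ K * (2 * K2 * n) := mul_le_mul_of_nonneg_left h3 hKr0.le
      _ = 2 * K * K2 * n := by ring
      _ ≤ 2 * K * K2 * ((Λ + 1) * (16 * (K1 * l) * L)) :=
          mul_le_mul_of_nonneg_left h2 (by positivity)
      _ = L * (C * l) := by rw [hCd]; ring
  have hω1 : 6 * (K1 * l) < ω := by
    rw [hω, lt_div_iff₀ (by positivity)]
    have h1 : 6 * (K1 * l) * (C * l) ≤ 144 * K1 ^ 2 * C ^ 2 * l ^ 2 := by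
      have h2 : (1 : ℝ) ≤ K1 * C := one_le_mul_of_one_le_of_one_le hK1a hC1
      have h3 : (0 : ℝ) ≤ K1 * C * l ^ 2 := by positivity
      have h4 : K1 * C * l ^ 2 ≤ K1 * C * l ^ 2 * (K1 * C) := le_mul_of_one_le_right h3 h2
      have h5 : 6 * (K1 * l) * (C * l) = 6 * (K1 * C * l ^ 2) := by ring
      have h6 : 144 * K1 ^ 2 * C ^ 2 * l ^ 2 = 144 * (K1 * C * l ^ 2 * (K1 * C)) := by ring
      linarith
    linarith
  obtain ⟨J, hJG, hJ1, hJ0, hJ2⟩ := SumH_pickP hPick hsup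
    (ι := Σ i : Fin s, Fin (k i)) (fun q => P q.1 q.2) L Q hQ0' (fun q => ⟨(hPX q.1 q.2).1, by
      have h1 := (hPX q.1 q.2).2
      have h2 : Λ * (P q.1 q.2 ∩ X).card ≤ k₀ * (2 * L) := Nat.mul_le_mul hk₀Λ h1
      have h3 : 4 * k₀ * L = 2 * (k₀ * (2 * L)) := by ring
      omega⟩) (by
      have h1 : (Fintype.card (Σ i : Fin s, Fin (k i)) : ℝ) ≤ s * (8 * k₀) := by
        rw [Fintype.card_sigma]
        push_cast
        calc ∑ i : Fin s, (Fintype.card (Fin (k i)) : ℝ) ≤ ∑ _i : Fin s, (8 * k₀ : ℝ) := by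
              apply sum_le_sum
              intro i _
              rw [Fintype.card_fin]
              exact_mod_cast hk8 i
          _ = s * (8 * k₀) := by rw [sum_const, card_univ, Fintype.card_fin, nsmul_eq_mul]
      have h2 : (k₀ : ℝ) < 2 ^ (k₀ : ℝ) := SumH_lt_two (by exact_mod_cast hk₀0)
      have h3 : (k₀ : ℝ) < 2 ^ (2 * (K1 * l)) :=
        h2.trans_le (Real.rpow_le_rpow_of_exponent_le (by norm_num) hk₀2)
      have h4 : (2 : ℝ) ^ (3 + 2 * (K1 * l) + l) = 8 * 2 ^ (2 * (K1 * l)) * (2 * s) := by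
        rw [Real.rpow_add (by norm_num), Real.rpow_add (by norm_num), h2l]
        norm_num
      have h5 : 3 + 2 * (K1 * l) + l ≤ (L : ℝ) / (K * Q) := by
        have h6 : l ≤ K1 * l := le_mul_of_one_le_left hl0.le hK1a
        linarith
      have h7 : (2 : ℝ) ^ (3 + 2 * (K1 * l) + l) ≤ 2 ^ ((L : ℝ) / (K * Q)) :=
        Real.rpow_le_rpow_of_exponent_le (by norm_num) h5
      have h8 : 2 * (s * (8 * (k₀ : ℝ))) < 8 * 2 ^ (2 * (K1 * l)) * (2 * s) := by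
        have h9 : 0 < 16 * (s : ℝ) := by linarith
        have h10 := mul_lt_mul_of_pos_left h3 h9
        linarith
      linarith)
  -- the number of crossings
  obtain ⟨m, hm⟩ : ∃ m : ℕ, m = ⌈ω⌉₊ := ⟨_, rfl⟩
  have hmω : ω ≤ m := by rw [hm]; exact Nat.le_ceil _
  have hm0 : 1 ≤ m := by
    have h1 : (0 : ℝ) < m := lt_of_lt_of_le hω0 hmω
    have h2 : 0 < m := by exact_mod_cast h1
    omega
  have hmJ : ∀ q : (Σ i : Fin s, Fin (k i)), m ≤ (J.filter fun e =>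
      (e.1 ∈ P q.1 q.2 ∧ e.2 ∉ P q.1 q.2) ∨ (e.1 ∉ P q.1 q.2 ∧ e.2 ∈ P q.1 q.2)).card := by
    intro q
    rw [hm, Nat.ceil_le]
    refine hLω.trans ?_
    rw [div_le_iff₀ (by positivity)]
    have h1 := hJ2 q
    have h2 : (L : ℝ) ≤ K * Q * (J.filter fun e => (e.1 ∈ P q.1 q.2 ∧ e.2 ∉ P q.1 q.2) ∨
        (e.1 ∉ P q.1 q.2 ∧ e.2 ∈ P q.1 q.2)).card := by exact_mod_cast h1
    linarith
  have hJb : KF * J.card ≤ b := by
    have h1 : (Q : ℝ) * J.card ≤ K * (Λ * n) := by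
      have h2 : (Q : ℝ) * J.card ≤ K * G.card := by exact_mod_cast hJ0
      have h3 : (G.card : ℝ) ≤ Λ * X.card := by exact_mod_cast hGcard
      have h4 : (X.card : ℝ) ≤ n := by exact_mod_cast hXn
      refine h2.trans (mul_le_mul_of_nonneg_left (h3.trans ?_) hKr0.le)
      exact mul_le_mul_of_nonneg_left h4 hΛ0
    have h5 : K2 * n ≤ Q * b := by rwa [div_le_iff₀ hb0] at hQ1
    have h6 : (Q : ℝ) * (KF * J.card) ≤ Q * b := by
      calc (Q : ℝ) * (KF * J.card) = KF * (Q * J.card) := by ring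
        _ ≤ KF * (K * (Λ * n)) := mul_le_mul_of_nonneg_left h1 hKF0
        _ = KF * (K * Λ) * n := by ring
        _ ≤ K2 * n := mul_le_mul_of_nonneg_right hK2b hn0.le
        _ ≤ Q * b := h5
    have h7 := le_of_mul_le_mul_left h6 hQ0
    exact_mod_cast h7
  let gI : {e // e ∈ J} → Gad (Fin n) := fun e => g e.1
  have hpc : ∀ e : {e // e ∈ J}, (gI e).p = e.1.1 := fun e => (hsup.core e.1 (hJG e.2)).2.2.1
  have hqc : ∀ e : {e // e ∈ J}, (gI e).q = e.1.2 := fun e => (hsup.core e.1 (hJG e.2)).2.2.2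
  have hc₁k : 4 * l ≤ c₁ * k₀ := by
    have h1 : c₁ * (K1 * l) ≤ c₁ * k₀ := mul_le_mul_of_nonneg_left hk₀1 hc₁.le
    have h2 : 4 * l ≤ c₁ * K1 * l := mul_le_mul_of_nonneg_right hK1c hl0.le
    linarith
  have hsl : (s : ℝ) < 2 ^ l := by rw [h2l]; linarith
  -- the orientation
  obtain ⟨o, ho⟩ := SumH_oriP hOri (I := {e // e ∈ J}) (fun e => (gI e).p) (fun e => (gI e).q)
    k m P hm0 hPd (by
      intro i j
      simp only [hpc, hqc]
      rw [SumH_card J fun e : Fin n × Fin n =>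
        (e.1 ∈ P i j ∧ e.2 ∉ P i j) ∨ (e.1 ∉ P i j ∧ e.2 ∈ P i j)]
      exact hmJ ⟨i, j⟩) (β := (2 : ℝ) ^ (-(c₁ * k₀))) (by
      intro i
      apply Real.rpow_le_rpow_of_exponent_le (by norm_num)
      have h1 : (k₀ : ℝ) ≤ k i := by exact_mod_cast hkk i
      have := mul_le_mul_of_nonneg_left h1 hc₁.le
      linarith) (by
      rw [Real.rpow_neg (by norm_num), ← div_eq_mul_inv, div_lt_one (by positivity)]
      refine lt_of_lt_of_le hsl ?_
      apply Real.rpow_le_rpow_of_exponent_le (by norm_num)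
      linarith)
  -- full rank
  have hF : ∀ y z, ∀ v ∈ F,
      asg gI (fun v => if v ∈ F then r v else true) (mix o y z) (mix o z y) v = r v := by
    intro y z v hv
    rw [SumH_asg_F (fun e => by rw [hpc]; exact hGp e.1 (hJG e.2))
      (fun e => by rw [hqc]; exact hGq e.1 (hJG e.2)) (fun e => hGC e.1 (hJG e.2))
      (fun e he => disjoint_left.1 (hsup.avoid e.1 (hJG e.2)).1 he hv), if_pos hv]
  have hrow := hFull (Fin n) {e // e ∈ J} E A Y F gI (fun e => ctr e.1) r hcl.1 hloop hcl.2 hr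
    (by
      rcases hsup.typ with h1 | h1
      · exact Or.inl fun e => h1 e.1 (hJG e.2)
      · exact Or.inr fun e => h1 e.1 (hJG e.2))
    (fun e f hef => hJ1 e.1 e.2 f.1 f.2 fun h => hef (Subtype.ext h))
    (fun e => (hsup.avoid e.1 (hJG e.2)).1) o b hb1 (by rw [Fintype.card_coe]; exact hJb)
    (fun y z => ∑ i, h i (asg gI (fun v => if v ∈ F then r v else true) (mix o y z) (mix o z y)))
    (fun y z => hsum _ (hF y z))
  obtain ⟨R, hR1, hR2⟩ := SumH_rank hRank hLin (g := gI)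
    (x₀ := fun v => if v ∈ F then r v else true) (o := o) (φ := fun x => ∑ i, h i x)
    (k := k) (N := fun i => W ^ k i) (P := P) (f := f) (f0 := f0)
    (fun e => by rw [hpc]; exact hGp e.1 (hJG e.2)) (fun e => by rw [hqc]; exact hGq e.1 (hJG e.2))
    (fun e => hGpq e.1 (hJG e.2))
    (fun e f hef => (hJ1 e.1 e.2 f.1 f.2 fun h => hef (Subtype.ext h)).1) hPd hf hf0
    (fun y z => sum_congr rfl fun i _ => hh i _) hrow
  refine SumH_finP (c₁ := c₁) (τ := Real.sqrt m) (l := l) (κ := k₀) (k := k) (R := R) ?_ hc₁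
    (fun i => by exact_mod_cast hkk i) hc₁k hsl ?_ ho hR1 hR2
  · rw [Real.one_le_sqrt]
    exact_mod_cast hm0
  · have h1 : (W : ℝ) ≤ 2 ^ (c * Real.sqrt (b / l)) := by linarith
    refine h1.trans (Real.rpow_le_rpow_of_exponent_le (by norm_num) ?_)
    have h2 : c * Real.sqrt (b / l) ≤ c₁ / 4 * Real.sqrt ω := by
      have h3 : Real.sqrt (b / l) ≤ C * Real.sqrt ω := by
        rw [← Real.sqrt_sq hC0.le, ← Real.sqrt_mul (by positivity)]
        apply Real.sqrt_le_sqrt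
        rw [hω]
        have h4 : C ^ 2 * (b / (C * l)) = C * (b / l) := by field_simp
        rw [h4]
        exact le_mul_of_one_le_left (by positivity) hC1
      calc c * Real.sqrt (b / l) ≤ c * (C * Real.sqrt ω) := mul_le_mul_of_nonneg_left h3 hc0.le
        _ = c * (4 * C) / 4 * Real.sqrt ω := by ring
        _ ≤ c₁ / 4 * Real.sqrt ω := by
          apply mul_le_mul_of_nonneg_right _ (Real.sqrt_nonneg _)
          linarith
    refine h2.trans (mul_le_mul_of_nonneg_left ?_ (by positivity))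
    exact Real.sqrt_le_sqrt hmω

end Pool.Agent.EPR
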