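import Pool.Agent.EPR.SumH
import Pool.Agent.EPR.OriK

/-!
# [EPR SumK] A few tree tensor networks: an exponential lower bound
-/

set_option autoImplicit false

namespace Pool.Agent.EPR

open Finset Pool.Agent.WD Pool.Agent.EB Pool.Agent.EC
open scoped NNReal

/-- [EPR SumK] from a supply of gadgets to the lower bound for sums of a few tree tensor networks -/
def St_SumK : Prop :=
  ∀ D Λ : ℕ, ∃ c : ℝ, 0 < c ∧ ∀ (n : ℕ) (E A : Finset (Sym2 (Fin n)))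
    (Y F X : Finset (Fin n)) (G : Finset (Fin n × Fin n)) (g : Fin n × Fin n → Gad (Fin n))
    (ctr : Fin n × Fin n → Fin n) (r : Fin n → Bool), (∀ e ∈ E, ¬ e.IsDiag) →
    Closed E A Y → Supply3 E A Y D F Λ X G g ctr → part A Y r ≠ 0 →
    ∀ (b s W : ℕ) (h : Fin s → (Fin n → Bool) → ℝ), 1 ≤ b → b ≤ n → (∀ i, IsNetR W (h i)) →
      (∀ x, (∀ v ∈ F, x v = r v) → |(part A Y x : ℝ) - ∑ i, h i x| ≤ part A Y x / 2 ^ b) →
      1 ≤ s ∧ (2 : ℝ) ^ (c * (b / (s : ℝ) ^ 2)) ≤ 2 * s * (W + 1)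

theorem thm_SumK (hPick : St_Pick) (hOri : St_OriK) (hTree : St_Tree) (hRank : St_Rank)
    (hLin : St_Lin) (hFull : St_Full) : St_SumK := by
  classical
  intro D Λ
  obtain ⟨K, hK1, hPick⟩ := hPick Λ
  obtain ⟨KF, hFull⟩ := hFull D
  have hΛ0 : (0 : ℝ) ≤ Λ := Nat.cast_nonneg _
  have hKF0 : (0 : ℝ) ≤ KF := Nat.cast_nonneg _
  have hK1' : (1 : ℝ) ≤ K := by exact_mod_cast hK1
  -- constants
  obtain ⟨K2, hK2d⟩ : ∃ K2 : ℝ, K2 = K * (KF + 1) * (Λ + 1) := ⟨_, rfl⟩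
  have hK2a : 1 ≤ K2 := by
    rw [hK2d]
    exact one_le_mul_of_one_le_of_one_le
      (one_le_mul_of_one_le_of_one_le hK1' (by linarith)) (by linarith)
  have hK2b : (KF : ℝ) * (K * Λ) ≤ K2 := by
    rw [hK2d]
    have h1 : (0 : ℝ) ≤ K * KF + K * Λ + K := by positivity
    have h2 : (K : ℝ) * (KF + 1) * (Λ + 1) = KF * (K * Λ) + (K * KF + K * Λ + K) := by ring
    linarith
  obtain ⟨C, hCd⟩ : ∃ C : ℝ, C = 8 * (Λ + 1) ^ 2 * K * K2 := ⟨_, rfl⟩
  have hKK2 : 1 ≤ K * K2 := one_le_mul_of_one_le_of_one_le hK1' hK2a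
  have hΛ1' : (1 : ℝ) ≤ (Λ + 1) ^ 2 := one_le_pow₀ (by linarith)
  have hC1 : 1 ≤ C := by
    rw [hCd]
    have h1 : 1 ≤ (Λ + 1) ^ 2 * (K * K2) := one_le_mul_of_one_le_of_one_le hΛ1' hKK2
    have h2 : 8 * ((Λ : ℝ) + 1) ^ 2 * K * K2 = 8 * ((Λ + 1) ^ 2 * (K * K2)) := by ring
    linarith
  have hC0 : 0 < C := by linarith
  have hΛ1 : (0 : ℝ) < Λ + 1 := by linarith
  have hK20 : 0 < K2 := by linarith
  have hKr0 : (0 : ℝ) < K := by linarith
  refine ⟨1 / (32 * (Λ + 1) * C), by positivity, ?_⟩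
  intro n E A Y F X G g ctr r hloop hcl hsup hr b s W h hb1 hbn hnet hsum
  obtain ⟨c, hc⟩ : ∃ c : ℝ, c = 1 / (32 * (Λ + 1) * C) := ⟨_, rfl⟩
  rw [← hc]
  have hc0 : 0 < c := by rw [hc]; positivity
  have hcc : c * (32 * (Λ + 1) * C) = 1 := by
    rw [hc]
    field_simp
  have hs1 : 1 ≤ s := by
    by_contra hs
    have hs0 : s = 0 := by omega
    subst hs0
    have h1 := hsum r fun _ _ => rfl
    have h2 : ∑ i : Fin 0, h i r = 0 := by simp
    rw [h2, sub_zero] at h1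
    have h3 : (0 : ℝ) < part A Y r := by
      have h4 : 0 < part A Y r := pos_iff_ne_zero.2 hr
      exact_mod_cast h4
    rw [abs_of_pos h3, le_div_iff₀ (by positivity)] at h1
    have h5 : (2 : ℝ) ^ 1 ≤ 2 ^ b := pow_le_pow_right₀ (by norm_num) hb1
    have h6 := mul_le_mul_of_nonneg_left h5 h3.le
    linarith
  refine ⟨hs1, ?_⟩
  by_contra hcon
  push Not at hcon
  have hs1' : (1 : ℝ) ≤ s := by exact_mod_cast hs1
  have hs0 : (0 : ℝ) < s := by linarith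
  have hb1' : (1 : ℝ) ≤ b := by exact_mod_cast hb1
  have hb0 : (0 : ℝ) < b := by linarith
  have hbn' : (b : ℝ) ≤ n := by exact_mod_cast hbn
  have hW0 : (0 : ℝ) ≤ W := Nat.cast_nonneg _
  obtain ⟨β, hβ⟩ : ∃ β : ℝ, β = b / (s : ℝ) ^ 2 := ⟨_, rfl⟩
  rw [← hβ] at hcon
  have hsW : (1 : ℝ) ≤ s * (W + 1) := one_le_mul_of_one_le_of_one_le hs1' (by linarith)
  have hcβ : 1 < c * β := by
    by_contra hle
    have h1 : (2 : ℝ) ^ (c * β) ≤ 2 ^ (1 : ℝ) :=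
      Real.rpow_le_rpow_of_exponent_le (by norm_num) (not_lt.1 hle)
    rw [Real.rpow_one] at h1
    have h2 : (2 : ℝ) * s * (W + 1) = 2 * (s * (W + 1)) := by ring
    linarith
  have hβC : 32 * (Λ + 1) * C < β := by
    have h1 : c * (32 * (Λ + 1) * C) < c * β := by linarith
    exact lt_of_mul_lt_mul_left h1 hc0.le
  have hβC' : 16 * C < β := by
    have h1 : 16 * C * 1 ≤ 16 * C * (Λ + 1) := mul_le_mul_of_nonneg_left (by linarith) (by positivity)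
    have h2 : 2 * (16 * C * (Λ + 1)) = 32 * (Λ + 1) * C := by ring
    linarith
  have hbβ : (b : ℝ) = β * s ^ 2 := by
    rw [hβ]
    field_simp
  -- the number `L`
  have hss : (s : ℝ) ≤ s ^ 2 := by
    have h1 : (s : ℝ) * 1 ≤ s * s := mul_le_mul_of_nonneg_left hs1' hs0.le
    have h2 : (s : ℝ) ^ 2 = s * s := by ring
    linarith
  have hβ0 : 0 < β := by rw [hβ]; positivity
  have hβb : β ≤ b := by
    rw [hbβ]
    exact le_mul_of_one_le_right hβ0.le (by linarith)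
  have hX1 : (n : ℝ) ≤ (Λ + 1) * X.card := by
    have h1 : (n : ℝ) ≤ Λ * X.card := by exact_mod_cast hsup.big
    have h2 : (0 : ℝ) ≤ X.card := Nat.cast_nonneg _
    linarith
  have hX2 : 2 * (Λ + 1) ≤ X.card := by
    have h1 : ((Λ : ℝ) + 1) * (2 * (Λ + 1)) ≤ (Λ + 1) * X.card := by
      have h2 : (Λ + 1) ^ 2 ≤ C := by
        rw [hCd]
        have h3 : (Λ + 1) ^ 2 * 1 ≤ ((Λ : ℝ) + 1) ^ 2 * (8 * (K * K2)) :=
          mul_le_mul_of_nonneg_left (by linarith) (by positivity)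
        linarith [show ((Λ : ℝ) + 1) ^ 2 * (8 * (K * K2)) = 8 * (Λ + 1) ^ 2 * K * K2 by ring]
      have h4 : ((Λ : ℝ) + 1) * (2 * (Λ + 1)) = 2 * (Λ + 1) ^ 2 := by ring
      linarith
    have h5 : (2 : ℝ) * (Λ + 1) ≤ X.card := le_of_mul_le_mul_left h1 hΛ1
    exact_mod_cast h5
  obtain ⟨L, hL⟩ : ∃ L : ℕ, L = X.card / (2 * (Λ + 1)) := ⟨_, rfl⟩
  have h4k : 0 < 2 * (Λ + 1) := by omega
  have hL1 : 1 ≤ L := by rw [hL]; exact (Nat.one_le_div_iff h4k).2 hX2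
  have hL2 : 2 * (Λ + 1) * L ≤ X.card := by rw [hL]; exact Nat.mul_div_le _ _
  have hL3 : X.card < 4 * (Λ + 1) * L := by
    have h1 : X.card < 2 * (Λ + 1) * (L + 1) := by rw [hL]; exact Nat.lt_mul_div_succ _ h4k
    have h2 : 2 * (Λ + 1) * 1 ≤ 2 * (Λ + 1) * L := Nat.mul_le_mul_left _ hL1
    have h3 : 2 * (Λ + 1) * (L + 1) = 2 * (Λ + 1) * L + 2 * (Λ + 1) * 1 := by ring
    have h4 : 4 * (Λ + 1) * L = 2 * (Λ + 1) * L + 2 * (Λ + 1) * L := by ring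
    omega
  have hXn : X.card ≤ n := by
    have h1 := card_le_card (subset_univ X)
    rwa [card_univ, Fintype.card_fin] at h1
  have hn1 : 1 ≤ n := by omega
  have hn0 : (0 : ℝ) < n := by exact_mod_cast hn1
  -- the pieces
  choose τ hτ hcuts using hnet
  have hT : ∀ i : Fin s, ∃ (k : ℕ) (P : Fin k → Finset (Fin n))
      (f : Fin (W ^ k) → Fin k → (Fin n → Bool) → ℝ) (f0 : Fin (W ^ k) → (Fin n → Bool) → ℝ),
      (∀ i j, i ≠ j → Disjoint (P i) (P j)) ∧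
      (∀ j, L ≤ (P j ∩ X).card ∧ (P j ∩ X).card ≤ 2 * L) ∧
      X.card ≤ 2 * L * k + L ∧
      (∀ t j x y, (∀ v ∈ P j, x v = y v) → f t j x = f t j y) ∧
      (∀ t x y, (∀ v, (∀ j, v ∉ P j) → x v = y v) → f0 t x = f0 t y) ∧
      ∀ x, h i x = ∑ t, f0 t x * ∏ j, f t j x := by
    intro i
    obtain ⟨k, P, h1, h2, h3, h4⟩ := hTree (Fin n) (τ i) X L (hτ i) hL1
    obtain ⟨f, f0, h5, h6, h7⟩ := h4 W (h i) (SumH_cuts _ _ _ (hcuts i))
    exact ⟨k, P, f, f0, h1, h2, h3, h5, h6, h7⟩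
  choose k P f f0 hPd hPX hXk hf hf0 hh using hT
  have hk8 : ∀ i, k i ≤ 4 * (Λ + 1) := by
    intro i
    have h1 : k i * L ≤ X.card := by
      calc k i * L = ∑ _j : Fin (k i), L := by
            rw [sum_const, card_univ, Fintype.card_fin, smul_eq_mul]
        _ ≤ ∑ j, (P i j ∩ X).card := sum_le_sum fun j _ => (hPX i j).1
        _ = (univ.biUnion fun j => P i j ∩ X).card := by
            rw [card_biUnion]
            intro j _ j' _ hj
            exact (hPd i j j' hj).mono inter_subset_left inter_subset_left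
        _ ≤ X.card := card_le_card (by
            intro v hv
            obtain ⟨j, -, hj⟩ := mem_biUnion.1 hv
            exact (mem_inter.1 hj).2)
    have h2 : k i * L ≤ 4 * (Λ + 1) * L := by omega
    exact Nat.le_of_mul_le_mul_right h2 hL1
  have hkk : ∀ i, 0 < k i := by
    intro i
    have h1 : 2 * (Λ + 1) * L ≤ (2 * k i + 1) * L := by
      have h2 : (2 * k i + 1) * L = 2 * L * k i + L := by ring
      rw [h2]
      exact hL2.trans (hXk i)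
    have h3 : 2 * (Λ + 1) ≤ 2 * k i + 1 := Nat.le_of_mul_le_mul_right h1 hL1
    omega
  -- the gadgets
  have hGp : ∀ e ∈ G, e.1 ∈ (g e).R := by
    intro e he
    rw [← (hsup.core e he).2.2.1]
    rcases hsup.typ with h1 | h1
    · exact (h1 e he).pR
    · exact (h1 e he).pR
  have hGq : ∀ e ∈ G, e.2 ∈ (g e).R := by
    intro e he
    rw [← (hsup.core e he).2.2.2]
    rcases hsup.typ with h1 | h1
    · exact (h1 e he).qR
    · exact (h1 e he).qR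
  have hGpq : ∀ e ∈ G, (g e).p ≠ (g e).q := by
    intro e he
    rcases hsup.typ with h1 | h1
    · exact (h1 e he).pq
    · exact (h1 e he).pq
  have hGC : ∀ e ∈ G, (g e).C ⊆ (g e).R := by
    intro e he
    rcases hsup.typ with h1 | h1
    · exact (h1 e he).CR
    · rw [(h1 e he).C0]
      exact empty_subset _
  have hGcard : G.card ≤ Λ * X.card := SumH_gcard hsup hGp
  -- the density
  obtain ⟨Q, hQ⟩ : ∃ Q : ℕ, Q = ⌈K2 * n / b⌉₊ := ⟨_, rfl⟩
  have hK2n : 1 ≤ K2 * n / b := by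
    rw [le_div_iff₀ hb0]
    have h1 : (n : ℝ) ≤ K2 * n := le_mul_of_one_le_left hn0.le hK2a
    linarith
  have hQ1 : K2 * n / b ≤ Q := by rw [hQ]; exact Nat.le_ceil _
  have hQ2 : (Q : ℝ) ≤ 2 * (K2 * n / b) := by
    have h1 : (Q : ℝ) < K2 * n / b + 1 := by rw [hQ]; exact Nat.ceil_lt_add_one (by positivity)
    linarith
  have hQ0 : (0 : ℝ) < Q := by linarith
  have hQ0' : 1 ≤ Q := by
    have h1 : 0 < Q := by exact_mod_cast hQ0
    omega
  obtain ⟨ω, hω⟩ : ∃ ω : ℝ, ω = b / C := ⟨_, rfl⟩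
  have hω0 : 0 < ω := by rw [hω]; positivity
  have hωb : ω * C = b := by rw [hω]; field_simp
  have hLω : ω ≤ (L : ℝ) / (K * Q) := by
    rw [hω, div_le_div_iff₀ (by positivity) (by positivity)]
    have h1 : (X.card : ℝ) ≤ 4 * (Λ + 1) * L := by exact_mod_cast hL3.le
    have hL0 : (0 : ℝ) ≤ L := Nat.cast_nonneg _
    have h2 : (n : ℝ) ≤ (Λ + 1) * (4 * (Λ + 1) * L) :=
      hX1.trans (mul_le_mul_of_nonneg_left h1 hΛ1.le)
    have h3 : b * (Q : ℝ) ≤ 2 * K2 * n := by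
      have h4 : b * (Q : ℝ) ≤ b * (2 * (K2 * n / b)) := mul_le_mul_of_nonneg_left hQ2 hb0.le
      have h5 : b * (2 * (K2 * n / b)) = 2 * K2 * n := by field_simp
      linarith
    calc (b : ℝ) * (K * Q) = K * (b * Q) := by ring
      _ ≤ K * (2 * K2 * n) := mul_le_mul_of_nonneg_left h3 hKr0.le
      _ = 2 * K * K2 * n := by ring
      _ ≤ 2 * K * K2 * ((Λ + 1) * (4 * (Λ + 1) * L)) :=
          mul_le_mul_of_nonneg_left h2 (by positivity)
      _ = L * C := by rw [hCd]; ring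
  have hωs : 16 * (s : ℝ) ^ 2 < ω := by
    have h1 : 16 * (s : ℝ) ^ 2 * C < ω * C := by
      rw [hωb, hbβ]
      have h2 : 16 * C * (s : ℝ) ^ 2 < β * s ^ 2 := mul_lt_mul_of_pos_right hβC' (by positivity)
      linarith [show 16 * C * (s : ℝ) ^ 2 = 16 * (s : ℝ) ^ 2 * C by ring]
    exact lt_of_mul_lt_mul_right h1 hC0.le
  obtain ⟨J, hJG, hJ1, hJ0, hJ2⟩ := SumH_pickP hPick hsup
    (ι := Fin s) (fun i => P i ⟨0, hkk i⟩) L Q hQ0' (fun i => ⟨(hPX i _).1, by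
      have h1 := (hPX i ⟨0, hkk i⟩).2
      have h2 : Λ * (P i ⟨0, hkk i⟩ ∩ X).card ≤ (Λ + 1) * (2 * L) := Nat.mul_le_mul (by omega) h1
      have h3 : (Λ + 1) * (2 * L) = 2 * (Λ + 1) * L := by ring
      omega⟩) (by
      rw [Fintype.card_fin]
      have h1 : (2 * (s : ℝ)) < 2 ^ (2 * (s : ℝ)) := SumH_lt_two (by linarith)
      refine h1.trans_le (Real.rpow_le_rpow_of_exponent_le (by norm_num) ?_)
      linarith)
  -- the numbers `m`, `t`
  obtain ⟨m, hm⟩ : ∃ m : ℕ, m = ⌊ω / s⌋₊ := ⟨_, rfl⟩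
  have hm1 : (m : ℝ) ≤ ω / s := by rw [hm]; exact Nat.floor_le (by positivity)
  have hm2 : ω / s < m + 1 := by rw [hm]; exact Nat.lt_floor_add_one _
  obtain ⟨t, ht⟩ : ∃ t : ℕ, t = m / s := ⟨_, rfl⟩
  have hst : s * t ≤ m := by rw [ht]; exact Nat.mul_div_le _ _
  have ht1 : m < s * (t + 1) := by rw [ht]; exact Nat.lt_mul_div_succ _ hs1
  have htω : ω / s ^ 2 ≤ 2 * t := by
    have h1 : (m : ℝ) + 1 ≤ s * (t + 1) := by exact_mod_cast ht1
    have h2 : ω < s * (s * (t + 1)) := by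
      have h3 : ω / s < s * (t + 1) := by linarith
      rw [div_lt_iff₀ hs0] at h3
      linarith
    have h4 : ω / s ^ 2 < t + 1 := by
      rw [div_lt_iff₀ (by positivity)]
      linarith [show (s : ℝ) * (s * (t + 1)) = (t + 1) * s ^ 2 by ring]
    have h5 : 16 < ω / s ^ 2 := by
      rw [lt_div_iff₀ (by positivity)]
      exact hωs
    linarith
  have hmJ : ∀ i : Fin s, s * m ≤ (J.filter fun e =>
      (e.1 ∈ P i ⟨0, hkk i⟩ ∧ e.2 ∉ P i ⟨0, hkk i⟩) ∨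
        (e.1 ∉ P i ⟨0, hkk i⟩ ∧ e.2 ∈ P i ⟨0, hkk i⟩)).card := by
    intro i
    have h1 := hJ2 i
    have h2 : (L : ℝ) ≤ K * Q * (J.filter fun e => (e.1 ∈ P i ⟨0, hkk i⟩ ∧ e.2 ∉ P i ⟨0, hkk i⟩) ∨
        (e.1 ∉ P i ⟨0, hkk i⟩ ∧ e.2 ∈ P i ⟨0, hkk i⟩)).card := by exact_mod_cast h1
    have h3 : ω ≤ (J.filter fun e => (e.1 ∈ P i ⟨0, hkk i⟩ ∧ e.2 ∉ P i ⟨0, hkk i⟩) ∨
        (e.1 ∉ P i ⟨0, hkk i⟩ ∧ e.2 ∈ P i ⟨0, hkk i⟩)).card := by
      refine hLω.trans ?_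
      rw [div_le_iff₀ (by positivity)]
      linarith
    have h4 : (s : ℝ) * m ≤ ω := by
      rw [le_div_iff₀ hs0] at hm1
      linarith
    exact_mod_cast h4.trans h3
  have hJb : KF * J.card ≤ b := by
    have h1 : (Q : ℝ) * J.card ≤ K * (Λ * n) := by
      have h2 : (Q : ℝ) * J.card ≤ K * G.card := by exact_mod_cast hJ0
      have h3 : (G.card : ℝ) ≤ Λ * X.card := by exact_mod_cast hGcard
      have h4 : (X.card : ℝ) ≤ n := by exact_mod_cast hXn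
      refine h2.trans (mul_le_mul_of_nonneg_left (h3.trans ?_) hKr0.le)
      exact mul_le_mul_of_nonneg_left h4 hΛ0
    have h5 : K2 * n ≤ Q * b := by rwa [div_le_iff₀ hb0] at hQ1
    have h6 : (Q : ℝ) * (KF * J.card) ≤ Q * b := by
      calc (Q : ℝ) * (KF * J.card) = KF * (Q * J.card) := by ring
        _ ≤ KF * (K * (Λ * n)) := mul_le_mul_of_nonneg_left h1 hKF0
        _ = KF * (K * Λ) * n := by ring
        _ ≤ K2 * n := mul_le_mul_of_nonneg_right hK2b hn0.le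
        _ ≤ Q * b := h5
    have h7 := le_of_mul_le_mul_left h6 hQ0
    exact_mod_cast h7
  let gI : {e // e ∈ J} → Gad (Fin n) := fun e => g e.1
  have hpc : ∀ e : {e // e ∈ J}, (gI e).p = e.1.1 := fun e => (hsup.core e.1 (hJG e.2)).2.2.1
  have hqc : ∀ e : {e // e ∈ J}, (gI e).q = e.1.2 := fun e => (hsup.core e.1 (hJG e.2)).2.2.2
  -- the orientation
  obtain ⟨o, ho⟩ := hOri {e // e ∈ J} (Fin n) (fun e => (gI e).p) (fun e => (gI e).q) s m t
    (fun i => P i ⟨0, hkk i⟩) (by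
      intro i
      simp only [hpc, hqc]
      rw [SumH_card J fun e : Fin n × Fin n =>
        (e.1 ∈ P i ⟨0, hkk i⟩ ∧ e.2 ∉ P i ⟨0, hkk i⟩) ∨
          (e.1 ∉ P i ⟨0, hkk i⟩ ∧ e.2 ∈ P i ⟨0, hkk i⟩)]
      exact hmJ i) hst
  -- full rank
  have hF : ∀ y z, ∀ v ∈ F,
      asg gI (fun v => if v ∈ F then r v else true) (mix o y z) (mix o z y) v = r v := by
    intro y z v hv
    rw [SumH_asg_F (fun e => by rw [hpc]; exact hGp e.1 (hJG e.2))
      (fun e => by rw [hqc]; exact hGq e.1 (hJG e.2)) (fun e => hGC e.1 (hJG e.2))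
      (fun e he => disjoint_left.1 (hsup.avoid e.1 (hJG e.2)).1 he hv), if_pos hv]
  have hrow := hFull (Fin n) {e // e ∈ J} E A Y F gI (fun e => ctr e.1) r hcl.1 hloop hcl.2 hr
    (by
      rcases hsup.typ with h1 | h1
      · exact Or.inl fun e => h1 e.1 (hJG e.2)
      · exact Or.inr fun e => h1 e.1 (hJG e.2))
    (fun e f hef => hJ1 e.1 e.2 f.1 f.2 fun h => hef (Subtype.ext h))
    (fun e => (hsup.avoid e.1 (hJG e.2)).1) o b hb1 (by rw [Fintype.card_coe]; exact hJb)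
    (fun y z => ∑ i, h i (asg gI (fun v => if v ∈ F then r v else true) (mix o y z) (mix o z y)))
    (fun y z => hsum _ (hF y z))
  obtain ⟨R, hR1, hR2⟩ := SumH_rank hRank hLin (g := gI)
    (x₀ := fun v => if v ∈ F then r v else true) (o := o) (φ := fun x => ∑ i, h i x)
    (k := k) (N := fun i => W ^ k i) (P := P) (f := f) (f0 := f0)
    (fun e => by rw [hpc]; exact hGp e.1 (hJG e.2)) (fun e => by rw [hqc]; exact hGq e.1 (hJG e.2))
    (fun e => hGpq e.1 (hJG e.2))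
    (fun e f hef => (hJ1 e.1 e.2 f.1 f.2 fun h => hef (Subtype.ext h)).1) hPd hf hf0
    (fun y z => sum_congr rfl fun i _ => hh i _) hrow
  -- the estimate
  obtain ⟨M, hM⟩ : ∃ M : ℕ, M = Fintype.card {e // e ∈ J} := ⟨_, rfl⟩
  rw [← hM] at hR1 hR2
  have hRt : ∀ i, 2 * R i + t ≤ 2 * M := by
    intro i
    refine le_trans (Nat.add_le_add_left ?_ _) (hR1 i)
    exact (ho i).trans (single_le_sum
      (f := fun j => (imb (mix o (fun e => (gI e).p) fun e => (gI e).q)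
        (mix o (fun e => (gI e).q) fun e => (gI e).p) (P i j)).natAbs)
      (fun j _ => Nat.zero_le _) (mem_univ (⟨0, hkk i⟩ : Fin (k i))))
  have h1 : ((2 ^ M : ℕ) : ℝ) ≤ ∑ i, ((W : ℝ) ^ k i * 2 ^ R i) := by exact_mod_cast hR2
  push_cast at h1
  have h2 : ∀ i, (W : ℝ) ^ k i * 2 ^ R i ≤
      ((W : ℝ) + 1) ^ (4 * (Λ + 1)) * (2 : ℝ) ^ ((M : ℝ) - t / 2) := by
    intro i
    refine mul_le_mul ?_ ?_ (by positivity) (by positivity)
    · calc (W : ℝ) ^ k i ≤ ((W : ℝ) + 1) ^ k i := pow_le_pow_left₀ hW0 (by linarith) _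
        _ ≤ ((W : ℝ) + 1) ^ (4 * (Λ + 1)) := pow_le_pow_right₀ (by linarith) (hk8 i)
    · rw [← Real.rpow_natCast]
      apply Real.rpow_le_rpow_of_exponent_le (by norm_num)
      have e3 : (2 : ℝ) * R i + t ≤ 2 * M := by exact_mod_cast hRt i
      linarith
  have h3 : ∑ i, ((W : ℝ) ^ k i * 2 ^ R i) ≤
      ∑ _i : Fin s, ((W : ℝ) + 1) ^ (4 * (Λ + 1)) * (2 : ℝ) ^ ((M : ℝ) - t / 2) :=
    sum_le_sum fun i _ => h2 i
  rw [sum_const, card_univ, Fintype.card_fin, nsmul_eq_mul] at h3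
  have h4 : (s : ℝ) * ((W : ℝ) + 1) ^ (4 * (Λ + 1)) ≤ (2 * s * (W + 1)) ^ (4 * (Λ + 1)) := by
    rw [mul_pow]
    refine mul_le_mul_of_nonneg_right ?_ (by positivity)
    calc (s : ℝ) ≤ 2 * s := by linarith
      _ ≤ (2 * s) ^ (4 * (Λ + 1)) := le_self_pow₀ (by linarith) (by omega)
  have h5 : (2 * s * ((W : ℝ) + 1)) ^ (4 * (Λ + 1)) ≤ (2 : ℝ) ^ (c * β * (4 * (Λ + 1))) := by
    calc (2 * s * ((W : ℝ) + 1)) ^ (4 * (Λ + 1)) ≤ ((2 : ℝ) ^ (c * β)) ^ (4 * (Λ + 1)) :=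
          pow_le_pow_left₀ (by positivity) hcon.le _
      _ = (2 : ℝ) ^ (c * β * (4 * (Λ + 1))) := by
          rw [← Real.rpow_natCast, ← Real.rpow_mul (by norm_num)]
          push_cast
          rfl
  have h6 : (2 : ℝ) ^ M ≤ (2 : ℝ) ^ (c * β * (4 * (Λ + 1)) + ((M : ℝ) - t / 2)) := by
    rw [Real.rpow_add (by norm_num)]
    calc (2 : ℝ) ^ M ≤ s * (((W : ℝ) + 1) ^ (4 * (Λ + 1)) * (2 : ℝ) ^ ((M : ℝ) - t / 2)) :=
          h1.trans h3
      _ = (s * ((W : ℝ) + 1) ^ (4 * (Λ + 1))) * (2 : ℝ) ^ ((M : ℝ) - t / 2) := by ring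
      _ ≤ _ := mul_le_mul_of_nonneg_right (h4.trans h5) (by positivity)
  rw [← Real.rpow_natCast, Real.rpow_le_rpow_left_iff (by norm_num)] at h6
  -- `t / 2 ≤ 4 (Λ + 1) c β = β / (8 C)`, but `t / 2 ≥ ω / (4 s ^ 2) = β / (4 C)`
  have h7 : ω / s ^ 2 * C = β := by
    rw [hβ, ← hωb]
    field_simp
  have h8 : (t : ℝ) / 2 ≤ c * β * (4 * (Λ + 1)) := by linarith
  have h9 : c * β * (4 * (Λ + 1)) * (8 * C) = β := by
    have h10 : c * β * (4 * (Λ + 1)) * (8 * C) = c * (32 * (Λ + 1) * C) * β := by ring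
    rw [h10, hcc, one_mul]
  have h11 : (t : ℝ) / 2 * (8 * C) ≤ β := by
    rw [← h9]
    exact mul_le_mul_of_nonneg_right h8 (by positivity)
  have h12 : ω / s ^ 2 * C ≤ 2 * t * C := mul_le_mul_of_nonneg_right htω hC0.le
  rw [h7] at h12
  have h13 : (t : ℝ) / 2 * (8 * C) = 2 * (2 * t * C) := by ring
  linarith

end Pool.Agent.EPR
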