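import Pool.Agent.EPR.St

/-!
# EC, SupB: a supply of gadgets of the second type
-/

set_option autoImplicit false

namespace Pool.Agent.EPR

open Finset Pool.Agent.WD Pool.Agent.EB Pool.Agent.EC
open scoped NNReal

section

variable {V : Type} [Fintype V] [DecidableEq V]

private theorem SupB_nb (E : Finset (Sym2 V)) (v w : V) : w ∈ nb E v ↔ s(v, w) ∈ E := by
  simp [nb]

private theorem SupB_inner (E : Finset (Sym2 V)) (S : Finset V) (e : Sym2 V) :
    e ∈ inner E S ↔ e ∈ E ∧ ∀ v ∈ e, v ∈ S := by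
  rw [EC.inner, Finset.mem_filter]

/-- the vertex and its neighbours -/
private def SupB_nc (E : Finset (Sym2 V)) (v : V) : Finset V := insert v (nb E v)

private def SupB_b2 (E : Finset (Sym2 V)) (v : V) : Finset V := (SupB_nc E v).biUnion (SupB_nc E)

private def SupB_b4 (E : Finset (Sym2 V)) (v : V) : Finset V := (SupB_b2 E v).biUnion (SupB_b2 E)

private theorem SupB_mem_nc (E : Finset (Sym2 V)) (v w : V) :
    w ∈ SupB_nc E v ↔ w = v ∨ s(v, w) ∈ E := by
  rw [SupB_nc, Finset.mem_insert, SupB_nb]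

private theorem SupB_nc_symm {E : Finset (Sym2 V)} {v w : V} (h : w ∈ SupB_nc E v) :
    v ∈ SupB_nc E w := by
  rw [SupB_mem_nc] at h ⊢
  rcases h with h | h
  · exact Or.inl h.symm
  · rw [Sym2.eq_swap]
    exact Or.inr h

private theorem SupB_mem_b2 (E : Finset (Sym2 V)) (v w : V) :
    w ∈ SupB_b2 E v ↔ ∃ u, u ∈ SupB_nc E v ∧ w ∈ SupB_nc E u := by
  rw [SupB_b2, Finset.mem_biUnion]

private theorem SupB_b2_symm {E : Finset (Sym2 V)} {v w : V} (h : w ∈ SupB_b2 E v) :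
    v ∈ SupB_b2 E w := by
  rw [SupB_mem_b2] at h ⊢
  obtain ⟨u, h1, h2⟩ := h
  exact ⟨u, SupB_nc_symm h2, SupB_nc_symm h1⟩

private theorem SupB_nc_card {E : Finset (Sym2 V)} {D : ℕ} (hD : ∀ v, (nb E v).card ≤ D) (v : V) :
    (SupB_nc E v).card ≤ D + 1 :=
  (Finset.card_insert_le _ _).trans (Nat.add_le_add_right (hD v) 1)

private theorem SupB_b2_card {E : Finset (Sym2 V)} {D : ℕ} (hD : ∀ v, (nb E v).card ≤ D) (v : V) :
    (SupB_b2 E v).card ≤ (D + 1) ^ 2 := by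
  have h1 : (SupB_b2 E v).card ≤ (SupB_nc E v).card * (D + 1) :=
    Finset.card_biUnion_le_card_mul _ _ _ fun w _ => SupB_nc_card hD w
  have h2 := SupB_nc_card hD v
  calc _ ≤ _ := h1
    _ ≤ (D + 1) * (D + 1) := Nat.mul_le_mul_right _ h2
    _ = (D + 1) ^ 2 := by ring

private theorem SupB_b4_card {E : Finset (Sym2 V)} {D : ℕ} (hD : ∀ v, (nb E v).card ≤ D) (v : V) :
    (SupB_b4 E v).card ≤ (D + 1) ^ 4 := by
  have h1 : (SupB_b4 E v).card ≤ (SupB_b2 E v).card * (D + 1) ^ 2 :=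
    Finset.card_biUnion_le_card_mul _ _ _ fun w _ => SupB_b2_card hD w
  have h2 := SupB_b2_card hD v
  calc _ ≤ _ := h1
    _ ≤ (D + 1) ^ 2 * (D + 1) ^ 2 := Nat.mul_le_mul_right _ h2
    _ = (D + 1) ^ 4 := by ring

/-- the number of edges with an end in `S` -/
private theorem SupB_touch {E : Finset (Sym2 V)} {D : ℕ} (hD : ∀ v, (nb E v).card ≤ D)
    (S : Finset V) (G : Finset (Sym2 V)) (hG : ∀ e ∈ G, e ∈ E ∧ ∃ v ∈ e, v ∈ S) :
    G.card ≤ S.card * D := by
  have h1 : G ⊆ S.biUnion fun v => (nb E v).image fun w => s(v, w) := by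
    intro e he
    obtain ⟨h2, v, h3, h4⟩ := hG e he
    obtain ⟨w, rfl⟩ := Sym2.mem_iff_exists.1 h3
    exact Finset.mem_biUnion.2 ⟨v, h4, Finset.mem_image.2 ⟨w, (SupB_nb E v w).2 h2, rfl⟩⟩
  exact (Finset.card_le_card h1).trans
    (Finset.card_biUnion_le_card_mul _ _ _ fun v _ => Finset.card_image_le.trans (hD v))

/-- the region of the gadget -/
private def SupB_R (E : Finset (Sym2 V)) (Y : Finset V) (e : V × V) : Finset V :=
  (SupB_nc E e.1 ∪ SupB_nc E e.2) \ Y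

private theorem SupB_R_b2 {E : Finset (Sym2 V)} {Y : Finset V} {e : V × V}
    (h : s(e.1, e.2) ∈ E) {x : V} (hx : x ∈ SupB_R E Y e) : x ∈ SupB_b2 E e.1 := by
  rw [SupB_mem_b2]
  rcases Finset.mem_union.1 (Finset.mem_sdiff.1 hx).1 with h1 | h1
  · exact ⟨e.1, (SupB_mem_nc E _ _).2 (Or.inl rfl), h1⟩
  · exact ⟨e.2, (SupB_mem_nc E _ _).2 (Or.inr h), h1⟩

private theorem SupB_b2_self (E : Finset (Sym2 V)) (v : V) : v ∈ SupB_b2 E v :=
  (SupB_mem_b2 E v v).2 ⟨v, (SupB_mem_nc E _ _).2 (Or.inl rfl), (SupB_mem_nc E _ _).2 (Or.inl rfl)⟩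

private theorem SupB_nc_b4 {E : Finset (Sym2 V)} {v w : V} (h : w ∈ SupB_nc E v) :
    w ∈ SupB_b4 E v :=
  Finset.mem_biUnion.2 ⟨v, SupB_b2_self E v,
    (SupB_mem_b2 E v w).2 ⟨v, (SupB_mem_nc E _ _).2 (Or.inl rfl), h⟩⟩

end

theorem thm_SupB (hC : EC.St_Core) : St_SupB := by
  classical
  intro k D n E A Y H hk hn hP hAE hEA hY hH
  have hD := hP.pg.deg
  have hloop := hP.pg.loop
  -- the closed neighbourhood of `H`
  set N : Finset (Fin n) := H.biUnion (SupB_nc E) with hN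
  have hNc : N.card ≤ H.card * (D + 1) :=
    Finset.card_biUnion_le_card_mul _ _ _ fun v _ => SupB_nc_card hD v
  have hHN : ∀ h ∈ H, ∀ v, v ∈ SupB_nc E h → v ∈ N := fun h hh v hv =>
    Finset.mem_biUnion.2 ⟨h, hh, hv⟩
  set G₀ : Finset (Sym2 (Fin n)) := A.filter fun e => (∀ v ∈ e, v ∉ Y) ∧ ∀ v ∈ e, v ∉ N with hG₀
  have hG₀A : G₀ ⊆ A := Finset.filter_subset _ _
  have hG₀E : G₀ ⊆ E := hG₀A.trans hAE
  -- the number of edges in `G₀`
  have hA : 10 ^ 9 * k * n ≤ A.card := by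
    have h1 := hP.pg.big.trans hEA
    have h2 : k * (10 ^ 9 * k * n) ≤ k * A.card := by
      calc k * (10 ^ 9 * k * n) = 10 ^ 9 * k ^ 2 * n := by ring
        _ ≤ _ := h1
    exact Nat.le_of_mul_le_mul_left h2 hk
  have hYt : (E.filter fun e => ∃ v ∈ e, v ∈ Y).card ≤ 5 * 10 ^ 8 * k * n := hP.pg.G3 Y hY.le
  have hLc : (D + 1) * (D + 1) ≤ Lc k D := by
    have h1 : 1 ≤ (D + 1) ^ 10 := Nat.one_le_pow _ _ (Nat.succ_pos D)
    have h2 : (D + 1) * (D + 1) * 1 ≤ (D + 1) * (D + 1) * (D + 1) ^ 10 := Nat.mul_le_mul_left _ h1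
    have h3 : 1 * ((D + 1) * (D + 1) * (D + 1) ^ 10) ≤
        10 ^ 6 * k * ((D + 1) * (D + 1) * (D + 1) ^ 10) := Nat.mul_le_mul_right _ (by omega)
    have h4 : Lc k D = 10 ^ 6 * k * ((D + 1) * (D + 1) * (D + 1) ^ 10) := by
      unfold Lc
      ring
    rw [h4]
    omega
  have hNt : (E.filter fun e => ∃ v ∈ e, v ∈ N).card ≤ n := by
    have h1 := SupB_touch hD N (E.filter fun e => ∃ v ∈ e, v ∈ N) fun e he =>
      Finset.mem_filter.1 he
    calc _ ≤ N.card * D := h1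
      _ ≤ (H.card * (D + 1)) * (D + 1) := Nat.mul_le_mul hNc (Nat.le_succ D)
      _ = ((D + 1) * (D + 1)) * H.card := by ring
      _ ≤ Lc k D * H.card := Nat.mul_le_mul_right _ hLc
      _ ≤ n := hH
  have hsplit : A.card ≤ G₀.card + (E.filter fun e => ∃ v ∈ e, v ∈ Y).card +
      (E.filter fun e => ∃ v ∈ e, v ∈ N).card := by
    have h1 : A ⊆ (G₀ ∪ E.filter fun e => ∃ v ∈ e, v ∈ Y) ∪ E.filter fun e => ∃ v ∈ e, v ∈ N := by
      intro e he
      by_cases h2 : ∃ v ∈ e, v ∈ Y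
      · exact Finset.mem_union_left _ (Finset.mem_union_right _
          (Finset.mem_filter.2 ⟨hAE he, h2⟩))
      · by_cases h3 : ∃ v ∈ e, v ∈ N
        · exact Finset.mem_union_right _ (Finset.mem_filter.2 ⟨hAE he, h3⟩)
        · refine Finset.mem_union_left _ (Finset.mem_union_left _
            (Finset.mem_filter.2 ⟨he, ?_, ?_⟩))
          · exact fun v hv hvY => h2 ⟨v, hv, hvY⟩
          · exact fun v hv hvN => h3 ⟨v, hv, hvN⟩
    exact (Finset.card_le_card h1).trans ((Finset.card_union_le _ _).trans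
      (Nat.add_le_add_right (Finset.card_union_le _ _) _))
  -- the core
  obtain ⟨X, hX1, hX2⟩ := hC (Fin n) G₀ 11
  rw [Fintype.card_fin] at hX2
  have hXE : (inner G₀ X).card ≤ X.card * D := by
    refine SupB_touch hD X _ fun e he => ?_
    obtain ⟨h1, h2⟩ := (SupB_inner G₀ X e).1 he
    refine ⟨hG₀E h1, ?_⟩
    induction e with
    | _ a b => exact ⟨a, Sym2.mem_mk_left a b, h2 a (Sym2.mem_mk_left a b)⟩
  have hXn : n ≤ X.card * D := by
    have h1 : 1 * n ≤ k * n := Nat.mul_le_mul_right _ hk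
    nlinarith
  have hbig : n ≤ Lc k D * X.card := by
    calc n ≤ X.card * D := hXn
      _ ≤ X.card * Lc k D := Nat.mul_le_mul_left _ ((by nlinarith : D ≤ (D + 1) * (D + 1)).trans hLc)
      _ = _ := Nat.mul_comm _ _
  -- the pairs
  set G : Finset (Fin n × Fin n) := (X ×ˢ X).filter fun e => s(e.1, e.2) ∈ G₀ with hGd
  have hG : ∀ e : Fin n × Fin n, e ∈ G ↔ (e.1 ∈ X ∧ e.2 ∈ X) ∧ s(e.1, e.2) ∈ G₀ := by
    intro e
    rw [hGd, Finset.mem_filter, Finset.mem_product]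
  have hGA : ∀ e ∈ G, s(e.1, e.2) ∈ A := fun e he => hG₀A ((hG e).1 he).2
  have hGE : ∀ e ∈ G, s(e.1, e.2) ∈ E := fun e he => hAE (hGA e he)
  have hGY : ∀ e ∈ G, e.1 ∉ Y ∧ e.2 ∉ Y := fun e he => by
    have h1 := (Finset.mem_filter.1 ((hG e).1 he).2).2.1
    exact ⟨h1 _ (Sym2.mem_mk_left _ _), h1 _ (Sym2.mem_mk_right _ _)⟩
  have hGN : ∀ e ∈ G, e.1 ∉ N ∧ e.2 ∉ N := fun e he => by
    have h1 := (Finset.mem_filter.1 ((hG e).1 he).2).2.2
    exact ⟨h1 _ (Sym2.mem_mk_left _ _), h1 _ (Sym2.mem_mk_right _ _)⟩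
  have hGne : ∀ e ∈ G, e.1 ≠ e.2 := fun e he h => hloop _ (hGE e he) (Sym2.mk_isDiag_iff.2 h)
  refine ⟨X, G, fun e => ⟨e.1, e.2, SupB_R E Y e, ∅⟩, fun e => e.1, hbig, ?_, Or.inr ?_, ?_, ?_,
    ?_⟩
  · intro e he
    exact ⟨((hG e).1 he).1.1, ((hG e).1 he).1.2, rfl, rfl⟩
  · intro e he
    have hmem : ∀ u v, (u = e.1 ∨ u = e.2) → v ∉ Y → (v = u ∨ s(u, v) ∈ E) →
        v ∈ SupB_R E Y e := by
      intro u v hu hv huv
      refine Finset.mem_sdiff.2 ⟨?_, hv⟩
      rcases hu with rfl | rfl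
      · exact Finset.mem_union_left _ ((SupB_mem_nc E _ _).2 huv)
      · exact Finset.mem_union_right _ ((SupB_mem_nc E _ _).2 huv)
    constructor
    · exact hmem e.1 e.1 (Or.inl rfl) (hGY e he).1 (Or.inl rfl)
    · exact hmem e.2 e.2 (Or.inr rfl) (hGY e he).2 (Or.inl rfl)
    · exact hGne e he
    · exact Finset.sdiff_disjoint
    · show (SupB_R E Y e).card ≤ _
      have h1 : (SupB_R E Y e).card ≤ (D + 1) + (D + 1) :=
        (Finset.card_le_card Finset.sdiff_subset).trans ((Finset.card_union_le _ _).trans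
          (Nat.add_le_add (SupB_nc_card hD _) (SupB_nc_card hD _)))
      nlinarith
    · exact fun u v hu hv huv => hmem u v hu hv (Or.inr huv)
    · exact fun u _ => hD u
    · rfl
    · exact hGA e he
  · intro e he
    have hsub : (G.filter fun f => ¬ Disjoint (SupB_R E Y e) (SupB_R E Y f) ∨ e.1 = f.1 ∨
        s(e.1, f.1) ∈ E) ⊆ (SupB_b4 E e.1).biUnion fun p => (nb E p).image fun q => (p, q) := by
      intro f hf
      obtain ⟨hfG, hf⟩ := Finset.mem_filter.1 hf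
      have h1 : f.1 ∈ SupB_b4 E e.1 := by
        rcases hf with hf | hf | hf
        · obtain ⟨x, hx1, hx2⟩ := Finset.not_disjoint_iff.1 hf
          exact Finset.mem_biUnion.2 ⟨x, SupB_R_b2 (hGE e he) hx1,
            SupB_b2_symm (SupB_R_b2 (hGE f hfG) hx2)⟩
        · exact SupB_nc_b4 ((SupB_mem_nc E _ _).2 (Or.inl hf.symm))
        · exact SupB_nc_b4 ((SupB_mem_nc E _ _).2 (Or.inr hf))
      exact Finset.mem_biUnion.2 ⟨f.1, h1, Finset.mem_image.2 ⟨f.2,
        (SupB_nb E _ _).2 (hGE f hfG), rfl⟩⟩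
    refine (Finset.card_le_card hsub).trans ?_
    have h2 : ((SupB_b4 E e.1).biUnion fun p => (nb E p).image fun q => (p, q)).card ≤
        (SupB_b4 E e.1).card * D :=
      Finset.card_biUnion_le_card_mul _ _ _ fun v _ => Finset.card_image_le.trans (hD v)
    have h3 : (D + 1) ^ 4 * (D + 1) ≤ Lc k D := by
      have h4 : 1 ≤ (D + 1) ^ 7 := Nat.one_le_pow _ _ (Nat.succ_pos D)
      have h5 : (D + 1) ^ 4 * (D + 1) * 1 ≤ (D + 1) ^ 4 * (D + 1) * (D + 1) ^ 7 :=
        Nat.mul_le_mul_left _ h4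
      have h6 : 1 * ((D + 1) ^ 4 * (D + 1) * (D + 1) ^ 7) ≤
          10 ^ 6 * k * ((D + 1) ^ 4 * (D + 1) * (D + 1) ^ 7) := Nat.mul_le_mul_right _ (by omega)
      have h7 : Lc k D = 10 ^ 6 * k * ((D + 1) ^ 4 * (D + 1) * (D + 1) ^ 7) := by
        unfold Lc
        ring
      rw [h7]
      omega
    calc _ ≤ _ := h2
      _ ≤ (D + 1) ^ 4 * (D + 1) := Nat.mul_le_mul (SupB_b4_card hD _) (Nat.le_succ D)
      _ ≤ _ := h3
  · intro e he
    have hnot : ∀ u, u ∉ N → ∀ v, v ∈ SupB_nc E u → v ∉ H := fun u hu v hv hvH =>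
      hu (hHN v hvH u (SupB_nc_symm hv))
    refine ⟨Finset.disjoint_left.2 fun x hx => ?_, ?_⟩
    · rcases Finset.mem_union.1 (Finset.mem_sdiff.1 hx).1 with h1 | h1
      · exact hnot _ (hGN e he).1 x h1
      · exact hnot _ (hGN e he).2 x h1
    · exact hnot _ (hGN e he).1 _ ((SupB_mem_nc E _ _).2 (Or.inl rfl))
  · intro S hS hSn
    have hL1 : 1 ≤ Lc k D := le_trans (by nlinarith) hLc
    have hS4 : Lc k D * S.card ≤ (D + 1) * n := by
      refine hSn.trans ?_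
      calc n = 1 * n := (one_mul n).symm
        _ ≤ (D + 1) * n := Nat.mul_le_mul_right _ (by omega)
    have hin := hP.G4 S hS4
    -- the pairs with the first end in `S`
    have h1 : 12 * S.card ≤ (G.filter fun e => e.1 ∈ S).card := by
      have h2 : (G.filter fun e => e.1 ∈ S).card =
          ∑ v ∈ S, ((G.filter fun e => e.1 ∈ S).filter fun e => e.1 = v).card :=
        Finset.card_eq_sum_card_fiberwise fun e he => (Finset.mem_filter.1 he).2
      have h3 : ∀ v ∈ S, 12 ≤ ((G.filter fun e => e.1 ∈ S).filter fun e => e.1 = v).card := by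
        intro v hv
        refine (Nat.succ_le_of_lt (hX1 v (hS hv))).trans ?_
        have h4 : ((inner G₀ X).filter fun e => v ∈ e) ⊆
            ((G.filter fun e => e.1 ∈ S).filter fun e => e.1 = v).image fun e => s(e.1, e.2) := by
          intro e he
          obtain ⟨h5, h6⟩ := Finset.mem_filter.1 he
          obtain ⟨h7, h8⟩ := (SupB_inner G₀ X e).1 h5
          obtain ⟨w, rfl⟩ := Sym2.mem_iff_exists.1 h6
          refine Finset.mem_image.2 ⟨(v, w), Finset.mem_filter.2 ⟨Finset.mem_filter.2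
            ⟨(hG _).2 ⟨⟨hS hv, h8 w (Sym2.mem_mk_right _ _)⟩, h7⟩, hv⟩, rfl⟩, rfl⟩
        exact (Finset.card_le_card h4).trans Finset.card_image_le
      rw [h2]
      have h4 := Finset.card_nsmul_le_sum S _ 12 h3
      rw [smul_eq_mul, Nat.mul_comm] at h4
      exact h4
    -- the pairs with both ends in `S`
    have h5 : (G.filter fun e => e.1 ∈ S ∧ e.2 ∈ S).card ≤ 2 * (inner E S).card := by
      have h6 := Finset.card_le_mul_card_image (f := fun e : Fin n × Fin n => s(e.1, e.2))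
        (G.filter fun e => e.1 ∈ S ∧ e.2 ∈ S) 2 fun e he => by
          obtain ⟨f, hf, rfl⟩ := Finset.mem_image.1 he
          have h7 : ((G.filter fun e => e.1 ∈ S ∧ e.2 ∈ S).filter
              fun x => s(x.1, x.2) = s(f.1, f.2)) ⊆ {(f.1, f.2), (f.2, f.1)} := by
            intro x hx
            have h8 := (Finset.mem_filter.1 hx).2
            rw [Finset.mem_insert, Finset.mem_singleton]
            rcases Sym2.eq_iff.1 h8 with ⟨h9, h10⟩ | ⟨h9, h10⟩
            · exact Or.inl (Prod.ext h9 h10)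
            · exact Or.inr (Prod.ext h9 h10)
          exact (Finset.card_le_card h7).trans Finset.card_le_two
      refine h6.trans (Nat.mul_le_mul_left 2 (Finset.card_le_card fun e he => ?_))
      obtain ⟨f, hf, rfl⟩ := Finset.mem_image.1 he
      obtain ⟨h7, h8, h9⟩ := Finset.mem_filter.1 hf
      refine (SupB_inner E S _).2 ⟨hGE f h7, fun v hv => ?_⟩
      rcases Sym2.mem_iff.1 hv with rfl | rfl
      · exact h8
      · exact h9
    have h6 : (G.filter fun e => e.1 ∈ S).card ≤ (G.filter fun e => e.1 ∈ S ∧ e.2 ∈ S).card +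
        (G.filter fun e => (e.1 ∈ S ∧ e.2 ∉ S) ∨ (e.1 ∉ S ∧ e.2 ∈ S)).card := by
      refine (Finset.card_le_card fun e he => ?_).trans (Finset.card_union_le _ _)
      obtain ⟨h7, h8⟩ := Finset.mem_filter.1 he
      by_cases h9 : e.2 ∈ S
      · exact Finset.mem_union_left _ (Finset.mem_filter.2 ⟨h7, h8, h9⟩)
      · exact Finset.mem_union_right _ (Finset.mem_filter.2 ⟨h7, Or.inl ⟨h8, h9⟩⟩)
    omega

end Pool.Agent.EPR
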