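import Pool.Agent.EPR.St

/-!
# [EPR SupE] the supply of gadgets for a typical graph
-/

set_option autoImplicit false

namespace Pool.Agent.EPR

open Finset Pool.Agent.WD Pool.Agent.EB Pool.Agent.EC
open scoped NNReal

private theorem supE_conv (hCnv : EC.St_Cnv) {k D Λ n : ℕ} {E E' : Finset (Sym2 (Fin n))}
    {H : Finset (Fin n)} (hT : Typ3 k D Λ n E E' H) (A : Finset (Sym2 (Fin n)))
    (Y F : Finset (Fin n)) (M : ℕ) (X : Finset (Fin n)) (G : Finset (Fin n × Fin n))
    (g : Fin n × Fin n → Gad (Fin n)) (ctr : Fin n × Fin n → Fin n)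
    (hS : Supply3 E' (A ∩ E') Y D (H ∪ F) M X G g ctr) : Supply3 E A Y D F M X G g ctr := by
  obtain ⟨-, c2, c3⟩ := hCnv n D E E' H hT.sub hT.exc hT.main.pg.deg A Y
  have hH : ∀ e ∈ G, Disjoint (g e).R H ∧ ctr e ∉ H := fun e he =>
    ⟨(hS.avoid e he).1.mono_right subset_union_left,
      fun h => (hS.avoid e he).2 (mem_union_left _ h)⟩
  refine ⟨hS.big, hS.core, ?_, ?_, ?_, hS.cross⟩
  · rcases hS.typ with h | h
    · exact Or.inl fun e he => c2 _ _ (h e he) (hH e he).1 (hH e he).2
    · exact Or.inr fun e he => c3 _ (h e he) (hH e he).1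
  · intro e he
    refine le_trans (card_le_card ?_) (hS.conf e he)
    intro f hf
    rw [mem_filter] at hf ⊢
    refine ⟨hf.1, ?_⟩
    rcases hf.2 with h | h | h
    · exact Or.inl h
    · exact Or.inr (Or.inl h)
    · right
      right
      by_contra h2
      exact (hH e he).2 (hT.exc _ h h2 _ (Sym2.mem_mk_left _ _))
  · intro e he
    exact ⟨(hS.avoid e he).1.mono_right subset_union_right,
      fun h => (hS.avoid e he).2 (mem_union_right _ h)⟩

private theorem supE_num {M D Λ n h : ℕ} (hD : 1 ≤ D) (hΛ : 8 * D * (D + 1) * M ≤ Λ)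
    (hf : Λ * h ≤ 2 * D * n) : 4 * (M * h) ≤ n := by
  have h1 : (8 * D * (D + 1) * M) * h ≤ 2 * D * n := (Nat.mul_le_mul_right _ hΛ).trans hf
  have h2 : (2 * D) * (4 * (M * h)) ≤ (2 * D) * n := by
    calc (2 * D) * (4 * (M * h)) = 8 * D * 1 * M * h := by ring
      _ ≤ 8 * D * (D + 1) * M * h := by
        apply Nat.mul_le_mul_right
        apply Nat.mul_le_mul_right
        apply Nat.mul_le_mul_left
        omega
      _ ≤ 2 * D * n := h1
  exact Nat.le_of_mul_le_mul_left h2 (by omega)

private theorem supE_n1 {k n m : ℕ} (hk : 1 ≤ k) (h : 10 ^ 10 * k ^ 2 * n ≤ 8 * m) : n ≤ m := by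
  have h2 : 1 ≤ k ^ 2 := Nat.one_le_pow _ _ (by omega)
  have h3 : 10 ^ 10 * 1 * n ≤ 10 ^ 10 * k ^ 2 * n := by gcongr
  omega

private theorem supE_n2 {k n m : ℕ} (hk : 1 ≤ k) (hn : 0 < n) (h : 10 ^ 10 * k ^ 2 * n ≤ 8 * m)
    (h' : 2 * m ≤ k * (40000 * n + n)) : False := by
  have h2 : k * n ≤ k ^ 2 * n := by
    rw [pow_two]
    exact Nat.mul_le_mul_right _ (Nat.le_mul_of_pos_left _ (by omega))
  have h3 : 0 < k * n := Nat.mul_pos (by omega) hn
  have h4 : k * (40000 * n + n) = 40001 * (k * n) := by ring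
  have h5 : 10 ^ 10 * k ^ 2 * n = 10 ^ 10 * (k ^ 2 * n) := by ring
  omega

theorem thm_SupE (hA : St_SupA) (hB : St_SupB) (hCnv : EC.St_Cnv) : St_SupE := by
  intro k D hk
  obtain ⟨n₀, hA⟩ := hA k D hk
  have hL : 0 < Lc k D := by
    unfold Lc
    positivity
  have hL' : (0 : ℝ) < Lc k D := by exact_mod_cast hL
  refine ⟨1 / (4 * Lc k D), by positivity, n₀ + 1, ?_⟩
  intro Λ n E E' H hn hΛ hT A Y hC hk1 hk2 F hF
  have hn0 : 0 < n := by omega
  -- the degree bound is positive
  have hD : 1 ≤ D := by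
    by_contra h
    have h0 : D = 0 := by omega
    have h1 : E' = ∅ := by
      rw [eq_empty_iff_forall_notMem]
      intro e he
      induction e using Sym2.ind with
      | _ a b =>
        have h2 := hT.main.pg.deg a
        rw [h0, Nat.le_zero, card_eq_zero] at h2
        have h3 : b ∈ nb E' a := by
          unfold nb
          rw [mem_filter]
          exact ⟨mem_univ _, he⟩
        rw [h2] at h3
        exact absurd h3 (notMem_empty _)
    have h2 := hT.main.pg.big
    rw [h1, card_empty] at h2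
    have h3 : 0 < 10 ^ 9 * k ^ 2 * n := by positivity
    omega
  have hkL : k ≤ Lc k D := by
    unfold Lc
    have h1 : 1 ≤ (D + 1) ^ 12 := Nat.one_le_pow _ _ (by omega)
    calc k = k * 1 := (mul_one k).symm
      _ ≤ (10 ^ 6 * k) * (D + 1) ^ 12 := Nat.mul_le_mul (by omega) h1
  have hΛ1 : 8 * D * (D + 1) * k ≤ Λ := (Nat.mul_le_mul_left _ hkL).trans hΛ
  have hkD : k * D ≤ Λ := by
    refine le_trans ?_ hΛ1
    calc k * D = D * 1 * k := by ring
      _ ≤ 8 * D * (D + 1) * k := by
        apply Nat.mul_le_mul_right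
        exact Nat.mul_le_mul (by omega) (by omega)
  have hDΛ : D ≤ Λ := (Nat.le_mul_of_pos_left D (by omega)).trans hkD
  have hΛ0 : 0 < Λ := by omega
  -- few edges outside the main part
  have hrem : k * (E \ E').card ≤ n := by
    have h1 : Λ * (k * (E \ E').card) ≤ Λ * n := by
      calc Λ * (k * (E \ E').card) = k * (Λ * (E \ E').card) := by ring
        _ ≤ k * (D * n) := Nat.mul_le_mul_left _ hT.rem
        _ = (k * D) * n := by ring
        _ ≤ Λ * n := Nat.mul_le_mul_right _ hkD
    exact Nat.le_of_mul_le_mul_left h1 hΛ0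
  have hrem1 : (E \ E').card ≤ n := (Nat.le_mul_of_pos_left _ (by omega)).trans hrem
  have hEn : n ≤ E.card := supE_n1 hk hT.tot
  obtain ⟨hAE, hclo⟩ := hC
  have hAc : A.card ≤ (A ∩ E').card + (E \ E').card := by
    have h1 : A ⊆ (A ∩ E') ∪ (E \ E') := by
      intro e he
      by_cases h : e ∈ E'
      · exact mem_union_left _ (mem_inter.2 ⟨he, h⟩)
      · exact mem_union_right _ (mem_sdiff.2 ⟨hAE he, h⟩)
    exact (card_le_card h1).trans (card_union_le _ _)
  have hEA : E'.card ≤ k * (A ∩ E').card := by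
    have h1 := card_le_card hT.sub
    have h2 : k * A.card ≤ k * (A ∩ E').card + k * (E \ E').card := by
      rw [← Nat.mul_add]
      exact Nat.mul_le_mul_left _ hAc
    omega
  -- few exceptional vertices
  have hH1 : 4 * (Lc k D * H.card) ≤ n := supE_num hD hΛ hT.few
  have hF1 : 4 * (Lc k D * F.card) ≤ n := by
    have h1 : (4 : ℝ) * (Lc k D * F.card) ≤ n := by
      calc (4 : ℝ) * (Lc k D * F.card) ≤ 4 * (Lc k D * (1 / (4 * Lc k D) * n)) := by gcongr
        _ = n := by field_simp
    exact_mod_cast h1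
  have hHF : Lc k D * (H ∪ F).card ≤ n := by
    have h1 : Lc k D * (H ∪ F).card ≤ Lc k D * H.card + Lc k D * F.card := by
      rw [← Nat.mul_add]
      exact Nat.mul_le_mul_left _ (card_union_le _ _)
    omega
  by_cases hY : 3 * n ≤ 20000 * k * Y.card
  · -- many eliminated variables
    have hXbig : n ≤ 1000 * k * Yᶜ.card := by
      rcases hk2 with hA2 | hA2
      swap
      · refine hA2.trans ?_
        rw [Nat.mul_assoc]
        exact Nat.le_mul_of_pos_left _ (by omega)
      by_contra hcon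
      push Not at hcon
      have h2 := hT.main.pg.G2 Yᶜ hcon.le
      have h3 : E \ A ⊆ (E'.filter fun e => ∀ v ∈ e, v ∈ Yᶜ) ∪ (E \ E') := by
        intro e he
        rw [mem_sdiff] at he
        by_cases h : e ∈ E'
        · apply mem_union_left
          rw [mem_filter]
          refine ⟨h, fun v hv => ?_⟩
          rw [mem_compl]
          intro hvY
          exact he.2 (hclo e he.1 v hvY hv)
        · exact mem_union_right _ (mem_sdiff.2 ⟨he.1, h⟩)
      have h4 : (E \ A).card ≤ 40000 * n + n :=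
        (card_le_card h3).trans ((card_union_le _ _).trans (Nat.add_le_add h2 hrem1))
      have h5 : (E \ A).card = E.card - A.card := card_sdiff_of_subset hAE
      have h6 := card_le_card hAE
      have h8 : 2 * E.card ≤ k * (E \ A).card := by
        rw [h5, Nat.mul_sub]
        omega
      have h9 : 2 * E.card ≤ k * (40000 * n + n) := h8.trans (Nat.mul_le_mul_left _ h4)
      exact supE_n2 hk hn0 hT.tot h9
    obtain ⟨X, G, g, ctr, hS⟩ := hA n E' (A ∩ E') Y (H ∪ F) (by omega) hT.main
      inter_subset_right (fun e he v hv hve => mem_inter.2 ⟨hclo e (hT.sub he) v hv hve, he⟩)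
      hY hXbig hHF
    exact ⟨X, G, g, ctr, supE_conv hCnv hT A Y F _ X G g ctr hS⟩
  · push Not at hY
    obtain ⟨X, G, g, ctr, hS⟩ := hB k D n E' (A ∩ E') Y (H ∪ F) hk hn0 hT.main
      inter_subset_right hEA hY hHF
    exact ⟨X, G, g, ctr, supE_conv hCnv hT A Y F _ X G g ctr hS⟩

end Pool.Agent.EPR
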