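import Pool.Agent.EPR.Asm
import Pool.Agent.EPR.Gr1
import Pool.Agent.EPR.Gr2
import Pool.Agent.EPR.SupB
import Pool.Agent.EPR.SupA
import Pool.Agent.EPR.SupE
import Pool.Agent.EPR.Pick
import Pool.Agent.EPR.Ori
import Pool.Agent.EPR.Full
import Pool.Agent.EPR.SumH
import Pool.Agent.EPR.OriK
import Pool.Agent.EPR.SumK
import Pool.Agent.EPR.SumC
import Pool.Agent.EC.ParL
import Pool.Agent.EC.SelX
import Pool.Agent.EC.Cnv
import Pool.Agent.EC.FinP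
import Pool.Agent.EC.Core
import Pool.Agent.EC.Tree
import Pool.Agent.EC.Rank
import Pool.Agent.EC.Lin
import Pool.Agent.EC.Cub
import Pool.Agent.EC.Run

/-!
# The main theorem
-/

set_option autoImplicit false

namespace Pool.Agent.EPR

open Finset Pool.Agent.WD Pool.Agent.EB
open scoped NNReal

theorem Main_epr (ε : ℝ) (hε0 : 0 < ε) (hε1 : ε < 1) (t : ℕ) (ht : 1 ≤ t) :
    ∃ d₀ : ℝ, ∀ d : ℝ, d₀ ≤ d → ∃ c : ℝ, 0 < c ∧ ∃ C : ℝ, ∀ n : ℕ, d ≤ n →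
      Prob n (d / n) (fun E => ¬ Resist ε t c E) ≤ C / n :=
  Asm_main thm_Gr1 thm_Gr2
    (EC.thm_FinP EC.thm_ParL thm_Conc (thm_B1 thm_Aff) (thm_B2 (thm_Rk thm_MV)) EC.thm_SelX
      EC.thm_Cnv (thm_Dec2 thm_Bro))
    (thm_SupE (thm_SupA EC.thm_Core) (thm_SupB EC.thm_Core) EC.thm_Cnv)
    (thm_SumC (thm_SumH thm_Pick thm_Ori EC.thm_Tree EC.thm_Rank EC.thm_Lin thm_Full)
      (thm_SumK thm_Pick thm_OriK EC.thm_Tree EC.thm_Rank EC.thm_Lin thm_Full))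
    (EC.thm_Run EC.thm_Cub) ε hε0 hε1 t ht

end Pool.Agent.EPR
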