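import Pool.Agent.EPR.Model
import Pool.Agent.EC.St

/-!
# Early elimination with precision: structures and signatures of the modules

The modules `EC/ParL, SelX, Cnv, FinP, Core, Tree, Rank, Lin, Cub, Run` are reused.
-/

set_option autoImplicit false

namespace Pool.Agent.EPR

open Finset Pool.Agent.WD Pool.Agent.EB Pool.Agent.EC
open scoped NNReal

open Classical in
/-- as `EC.RG2`, with local sparsity (`R6`) up to linear size -/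
structure RG3 (k D Λ n : ℕ) (E : Finset (Sym2 (Fin n))) : Prop where
  loop : ∀ e ∈ E, ¬ e.IsDiag
  tot : 10 ^ 10 * k ^ 2 * n ≤ 8 * E.card
  tot2 : E.card ≤ 2 * 10 ^ 10 * k ^ 2 * n
  R1 : ∀ S T : Finset (Fin n), Disjoint S T → n ≤ 20000 * k * S.card → n ≤ 20000 * k * T.card →
    4 * n ≤ (betw E S T).card
  R2 : ∀ S : Finset (Fin n), 1000 * k * S.card ≤ n → (inner E S).card ≤ 40000 * n
  R3 : ∀ S : Finset (Fin n), 20000 * k * S.card ≤ 3 * n → (touch E S).card ≤ 5 * 10 ^ 8 * k * n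
  R4 : ∀ S : Finset (Fin n), Λ * S.card ≤ 2 * n → 2 * Λ * (touch E S).card ≤ D * n
  R5 : Λ * (E.filter fun e => Short E e).card ≤ n
  R6 : ∀ S : Finset (Fin n), 10 ^ 13 * k ^ 3 * S.card ≤ n → (inner E S).card ≤ 5 * S.card

/-- as `EC.PG2` -/
structure PG3 (k n D : ℕ) (E : Finset (Sym2 (Fin n))) : Prop where
  pg : PG k n D E
  G1n : ∀ S T : Finset (Fin n), Disjoint S T → n ≤ 20000 * k * S.card → n ≤ 20000 * k * T.card →
    3 * n ≤ (betw E S T).card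
  G4 : ∀ S : Finset (Fin n), Lc k D * S.card ≤ (D + 1) * n → (inner E S).card ≤ 5 * S.card

/-- as `EC.Typ` -/
structure Typ3 (k D Λ n : ℕ) (E E' : Finset (Sym2 (Fin n))) (H : Finset (Fin n)) : Prop where
  loop : ∀ e ∈ E, ¬ e.IsDiag
  tot : 10 ^ 10 * k ^ 2 * n ≤ 8 * E.card
  tot2 : E.card ≤ 2 * 10 ^ 10 * k ^ 2 * n
  sub : E' ⊆ E
  main : PG3 k n D E'
  exc : ∀ e ∈ E, e ∉ E' → ∀ v ∈ e, v ∈ H
  rem : Λ * (E \ E').card ≤ D * n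
  few : Λ * H.card ≤ 2 * D * n

/-- as `EC.Supply`, with the crossing property up to linear size -/
structure Supply3 {n : ℕ} (E A : Finset (Sym2 (Fin n))) (Y : Finset (Fin n)) (D : ℕ)
    (H : Finset (Fin n)) (Λ : ℕ) (X : Finset (Fin n)) (G : Finset (Fin n × Fin n))
    (g : Fin n × Fin n → Gad (Fin n)) (ctr : Fin n × Fin n → Fin n) : Prop where
  big : n ≤ Λ * X.card
  core : ∀ e ∈ G, e.1 ∈ X ∧ e.2 ∈ X ∧ (g e).p = e.1 ∧ (g e).q = e.2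
  typ : (∀ e ∈ G, GadA E A Y D (g e) (ctr e)) ∨ ∀ e ∈ G, GadB E A Y D (g e)
  conf : ∀ e ∈ G, (G.filter fun f => ¬ Disjoint (g e).R (g f).R ∨ ctr e = ctr f ∨
    s(ctr e, ctr f) ∈ E).card ≤ Λ
  avoid : ∀ e ∈ G, Disjoint (g e).R H ∧ ctr e ∉ H
  cross : ∀ S ⊆ X, Λ * S.card ≤ n →
    S.card ≤ (G.filter fun e => (e.1 ∈ S ∧ e.2 ∉ S) ∨ (e.1 ∉ S ∧ e.2 ∈ S)).card

/-- [EPR Gr1] `EC/Gr1.lean` with the new `R6` -/
def St_Gr1 : Prop :=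
  ∀ k D Λ : ℕ, 1 ≤ k → 10 ^ 12 * k ^ 2 ≤ D → 1 ≤ Λ → Λ ^ 10 ≤ 2 ^ D →
    ∃ C : ℝ, ∀ (n : ℕ) (d : ℝ), 10 ^ 10 * (k : ℝ) ^ 2 ≤ d →
      1000 * d ≤ 1001 * (10 ^ 10 * (k : ℝ) ^ 2) → d ≤ n →
      Prob n (d / n) (fun E => ¬ RG3 k D Λ n E) ≤ C / n

/-- [EPR Gr2] `EC/Gr2.lean` with the new structures -/
def St_Gr2 : Prop :=
  ∀ (k D Λ n : ℕ) (E : Finset (Sym2 (Fin n))), 1 ≤ k → 10 ^ 12 * k ^ 2 ≤ D → D ≤ Λ → Λ ≤ n →
    RG3 k D Λ n E → ∃ (E' : Finset (Sym2 (Fin n))) (H : Finset (Fin n)), Typ3 k D Λ n E E' H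

/-- [EPR SupB] `EC/SupB.lean` with the new structures -/
def St_SupB : Prop :=
  ∀ (k D n : ℕ) (E A : Finset (Sym2 (Fin n))) (Y H : Finset (Fin n)), 1 ≤ k → 0 < n →
    PG3 k n D E → A ⊆ E → E.card ≤ k * A.card → 20000 * k * Y.card < 3 * n →
    Lc k D * H.card ≤ n →
    ∃ X G g ctr, Supply3 E A Y D H (Lc k D) X G g ctr

/-- [EPR SupA] `EC/SupA.lean` with the new structures -/
def St_SupA : Prop :=
  ∀ k D : ℕ, 1 ≤ k → ∃ n₀ : ℕ, ∀ (n : ℕ) (E A : Finset (Sym2 (Fin n))) (Y H : Finset (Fin n)),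
    n₀ ≤ n → PG3 k n D E → A ⊆ E → (∀ e ∈ E, ∀ v ∈ Y, v ∈ e → e ∈ A) →
    3 * n ≤ 20000 * k * Y.card → n ≤ 1000 * k * Yᶜ.card → Lc k D * H.card ≤ n →
    ∃ X G g ctr, Supply3 E A Y D H (Lc k D) X G g ctr

/-- [EPR SupE] `EC/SupE.lean` with the new structures -/
def St_SupE : Prop :=
  ∀ k D : ℕ, 1 ≤ k → ∃ c : ℝ, 0 < c ∧ ∃ n₀ : ℕ, ∀ (Λ n : ℕ) (E E' : Finset (Sym2 (Fin n)))
    (H : Finset (Fin n)), n₀ ≤ n → 8 * D * (D + 1) * Lc k D ≤ Λ → Typ3 k D Λ n E E' H →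
    ∀ (A : Finset (Sym2 (Fin n))) (Y : Finset (Fin n)), Closed E A Y →
      2 * E.card ≤ k * A.card →
      (2 * E.card + k * A.card ≤ k * E.card ∨ n ≤ k * Yᶜ.card) →
      ∀ F : Finset (Fin n), (F.card : ℝ) ≤ c * n →
        ∃ X G g ctr, Supply3 E A Y D F (Lc k D) X G g ctr

/-- [EPR Pick] a sparse choice without conflicts: density about `1 / Q` -/
def St_Pick : Prop :=
  ∀ Λ : ℕ, ∃ K : ℕ, 1 ≤ K ∧ ∀ (G : Type) [Fintype G] [DecidableEq G] (c : G → G → Prop)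
    [DecidableRel c], (∀ g h, c g h → c h g) → (∀ g, (univ.filter (c g)).card ≤ Λ) →
    ∀ (Q : ℕ), 1 ≤ Q → ∀ (ι : Type) [Fintype ι] (T : ι → Finset G) (m : ℕ),
      (∀ i, m ≤ (T i).card) → 2 * (Fintype.card ι : ℝ) < 2 ^ ((m : ℝ) / (K * Q)) →
      ∃ J : Finset G, (∀ g ∈ J, ∀ h ∈ J, g ≠ h → ¬ c g h) ∧
        Q * J.card ≤ K * Fintype.card G ∧ ∀ i, (T i).card ≤ K * Q * (J ∩ T i).card

/-- [EPR Ori] a random orientation is unbalanced (no upper bound for the numbers of crossings) -/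
def St_Ori : Prop :=
  ∃ c : ℝ, 0 < c ∧ ∀ (I V : Type) [Fintype I] [DecidableEq I] [DecidableEq V]
    (p q : I → V) (k m : ℕ) (P : Fin k → Finset V), 1 ≤ m →
    (∀ i j, i ≠ j → Disjoint (P i) (P j)) →
    (∀ j, m ≤ (univ.filter fun i =>
        (p i ∈ P j ∧ q i ∉ P j) ∨ (p i ∉ P j ∧ q i ∈ P j)).card) →
    ((univ.filter fun o : I → Bool =>
        ((∑ j, (imb (mix o p q) (mix o q p) (P j)).natAbs : ℕ) : ℝ) < c * k * Real.sqrt m).card :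
      ℝ) ≤ 2 ^ (-(c * k)) * 2 ^ Fintype.card I

/-- [EPR Full] full rank, also for approximations with small relative error -/
def St_Full : Prop :=
  ∀ D : ℕ, ∃ K : ℕ, ∀ (V I : Type) [Fintype V] [DecidableEq V] [Fintype I] [DecidableEq I]
    (E A : Finset (Sym2 V)) (Y F : Finset V) (g : I → Gad V) (ctr : I → V)
    (r : V → Bool), A ⊆ E → (∀ e ∈ E, ¬ e.IsDiag) → (∀ e ∈ E, ∀ v ∈ Y, v ∈ e → e ∈ A) →
    part A Y r ≠ 0 →
    ((∀ i, GadA E A Y D (g i) (ctr i)) ∨ ∀ i, GadB E A Y D (g i)) →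
    (∀ i j, i ≠ j → Disjoint (g i).R (g j).R ∧ ctr i ≠ ctr j ∧ s(ctr i, ctr j) ∉ E) →
    (∀ i, Disjoint (g i).R F) → ∀ (o : I → Bool) (b : ℕ), 1 ≤ b → K * Fintype.card I ≤ b →
    ∀ M : (I → Bool) → (I → Bool) → ℝ,
      (∀ y z, |(part A Y
          (asg g (fun v => if v ∈ F then r v else true) (mix o y z) (mix o z y)) : ℝ) - M y z| ≤
        (part A Y
          (asg g (fun v => if v ∈ F then r v else true) (mix o y z) (mix o z y)) : ℝ) / 2 ^ b) →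
      Rows M

/-- the first part of `SumHardOn` -/
def SumHardOn0 {n : ℕ} (c : ℝ) (A : Finset (Sym2 (Fin n))) (Y F : Finset (Fin n))
    (r : Fin n → Bool) : Prop :=
  ∀ (b s W : ℕ) (h : Fin s → (Fin n → Bool) → ℝ), 1 ≤ b → b ≤ n → (∀ i, IsNetR W (h i)) →
    (∀ x, (∀ v ∈ F, x v = r v) → |(part A Y x : ℝ) - ∑ i, h i x| ≤ part A Y x / 2 ^ b) →
    (2 : ℝ) ^ (c * Real.sqrt b) ≤ s + 1 ∨
      (2 : ℝ) ^ (c * Real.sqrt (b / Real.logb 2 (2 * s))) ≤ W + 1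

/-- [EPR SumH] from a supply of gadgets to the lower bound for sums of tree tensor networks -/
def St_SumH : Prop :=
  ∀ D Λ : ℕ, ∃ c : ℝ, 0 < c ∧ ∃ n₀ : ℕ, ∀ (n : ℕ) (E A : Finset (Sym2 (Fin n)))
    (Y F X : Finset (Fin n)) (G : Finset (Fin n × Fin n)) (g : Fin n × Fin n → Gad (Fin n))
    (ctr : Fin n × Fin n → Fin n) (r : Fin n → Bool), n₀ ≤ n → (∀ e ∈ E, ¬ e.IsDiag) →
    Closed E A Y → Supply3 E A Y D F Λ X G g ctr → part A Y r ≠ 0 → SumHardOn0 c A Y F r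

end Pool.Agent.EPR
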